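import Pool.Agent.Lib.MP_b07157_ag.E.Defs

/-!
# Theorem E: bump functions
-/

noncomputable section

namespace MPb07157.EE

open MeasureTheory Finset

variable {φ : ℝ → ℝ} {lo m hi : ℝ}

/-- E-5a. -/
theorem IsBump.continuous_iter (h : IsBump φ lo m hi) (k : ℕ) :
    Continuous (iteratedDeriv k φ) := by
  exact (h.smooth k).continuous_iteratedDeriv k le_rfl

/-- E-5b. -/
theorem IsBump.hasDerivAt_iter (h : IsBump φ lo m hi) (k : ℕ) (s : ℝ) :
    HasDerivAt (iteratedDeriv k φ) (iteratedDeriv (k + 1) φ s) s := by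
  have h1 : Differentiable ℝ (iteratedDeriv k φ) :=
    (h.smooth (k + 1)).differentiable_iteratedDeriv k (by exact_mod_cast Nat.lt_succ_self k)
  rw [iteratedDeriv_succ]
  exact (h1 s).hasDerivAt

/-- E-5c. -/
theorem IsBump.iter_eq_zero (h : IsBump φ lo m hi) (k : ℕ) (s : ℝ) (hs : s < lo ∨ hi < s) :
    iteratedDeriv k φ s = 0 := by
  have hloc : φ =ᶠ[nhds s] fun _ => (0 : ℝ) := by
    rcases hs with hs | hs
    · filter_upwards [isOpen_Iio.mem_nhds (show s ∈ Set.Iio lo from hs)] with x hx
      exact h.supp x (Or.inl hx)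
    · filter_upwards [isOpen_Ioi.mem_nhds (show s ∈ Set.Ioi hi from hs)] with x hx
      exact h.supp x (Or.inr hx)
  rw [hloc.iteratedDeriv_eq k]
  simp

/-- E-5d. -/
theorem IsBump.hasCompactSupport_iter (h : IsBump φ lo m hi) (k : ℕ) :
    HasCompactSupport (iteratedDeriv k φ) := by
  refine HasCompactSupport.intro (K := Set.Icc lo hi) isCompact_Icc fun s hs => ?_
  apply h.iter_eq_zero k s
  by_contra hc
  rw [not_or, not_lt, not_lt] at hc
  exact hs hc

/-- E-5e. -/
theorem IsBump.integral_iter (h : IsBump φ lo m hi) (k : ℕ) (hk : 1 ≤ k) :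
    ∫ s, iteratedDeriv k φ s = 0 := by
  obtain ⟨j, rfl⟩ : ∃ j, k = j + 1 := ⟨k - 1, by omega⟩
  exact integral_eq_zero_of_hasDerivAt_of_integrable (fun s => h.hasDerivAt_iter j s)
    ((h.continuous_iter (j + 1)).integrable_of_hasCompactSupport (h.hasCompactSupport_iter (j + 1)))
    ((h.continuous_iter j).integrable_of_hasCompactSupport (h.hasCompactSupport_iter j))

open Classical in
/-- E-5f. -/
theorem IsBump.integral_deriv_le (h : IsBump φ lo m hi) (a : ℝ) :
    ∫ s, (if s ≤ a then 1 else 0) * iteratedDeriv 1 φ s = φ a := by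
  have h1 : (fun s => (if s ≤ a then (1 : ℝ) else 0) * iteratedDeriv 1 φ s) =
      (Set.Iic a).indicator (iteratedDeriv 1 φ) := by
    funext s
    by_cases hs : s ≤ a
    · rw [if_pos hs, one_mul, Set.indicator_of_mem (show s ∈ Set.Iic a from hs)]
    · rw [if_neg hs, zero_mul, Set.indicator_of_notMem (show s ∉ Set.Iic a from hs)]
  rw [h1, integral_indicator measurableSet_Iic]
  have h2 : Filter.Tendsto φ Filter.atBot (nhds 0) := by
    refine Filter.Tendsto.congr' ?_ tendsto_const_nhds
    filter_upwards [Filter.eventually_lt_atBot lo] with x hx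
    exact (h.supp x (Or.inl hx)).symm
  have h3 : ∀ s, HasDerivAt φ (iteratedDeriv 1 φ s) s := fun s => by
    have h4 := h.hasDerivAt_iter 0 s
    rwa [iteratedDeriv_zero] at h4
  have h5 := integral_Iic_of_hasDerivAt_of_tendsto' (a := a) (fun x _ => h3 x)
    ((h.continuous_iter 1).integrable_of_hasCompactSupport (h.hasCompactSupport_iter 1)).integrableOn h2
  rw [h5, sub_zero]

/-- E-5g. -/
theorem IsBump.integral_pos (h : IsBump φ lo m hi) : 0 < ∫ s, φ s := by
  have h1 := h.continuous_iter 0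
  have h2 := h.hasCompactSupport_iter 0
  rw [iteratedDeriv_zero] at h1 h2
  exact h1.integral_pos_of_hasCompactSupport_nonneg_nonzero h2 (fun s => h.nonneg s) h.pos.ne'

/-- E-5h. Existence, with a prescribed interior point. -/
theorem exists_isBump {lo m hi : ℝ} (h1 : lo < m) (h2 : m < hi) : ∃ φ : ℝ → ℝ, IsBump φ lo m hi := by
  have hη : 0 < min (m - lo) (hi - m) / 2 := by
    have : 0 < min (m - lo) (hi - m) := lt_min (by linarith) (by linarith)
    linarith
  obtain ⟨χ, hχ1, hχ2, hχ3, hχ4⟩ := exists_bump m (min (m - lo) (hi - m) / 2) hη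
  refine ⟨χ, hχ1, hχ2, h1, h2, hχ3, fun s hs => ?_⟩
  have h3 := hχ4 0 s ?_
  · rwa [iteratedDeriv_zero] at h3
  · have h4 := min_le_left (m - lo) (hi - m)
    have h5 := min_le_right (m - lo) (hi - m)
    rcases hs with hs | hs
    · have h6 := neg_le_abs (s - m)
      linarith
    · have h6 := le_abs_self (s - m)
      linarith

end MPb07157.EE
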