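import Pool.Agent.Lib.MP_b07157_ag.E.Defs
import Pool.Agent.Lib.MP_b07157_ag.E.Bump

section

/-!
# Theorem E: volumes of Minkowski sums with a segment
-/

noncomputable section

namespace MPb07157.EE

open MeasureTheory Finset

variable {ι : Type} [Fintype ι] [DecidableEq ι]

/-- A bounded measurable function with bounded support is integrable. -/
private theorem box_int {X : Type*} [MeasurableSpace X] (μ : Measure X) {F : X → ℝ}
    (hF : Measurable F) {M : ℝ} (hM : ∀ x, |F x| ≤ M) {s : Set X} (hs : MeasurableSet s)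
    (hμ : μ s < ⊤) (h0 : ∀ x, F x ≠ 0 → x ∈ s) : Integrable F μ := by
  have h1 : Integrable (s.indicator fun _ => M) μ := by
    rw [integrable_indicator_iff hs]
    exact integrableOn_const hμ.ne
  refine h1.mono' hF.aestronglyMeasurable (Filter.Eventually.of_forall fun x => ?_)
  by_cases hx : F x = 0
  · rw [hx, norm_zero]
    exact Set.indicator_nonneg (fun _ _ => (abs_nonneg _).trans (hM x)) x
  · rw [Set.indicator_of_mem (h0 x hx), Real.norm_eq_abs]
    exact hM x

/-- E-16a. -/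
theorem measurable_sat (K : Set (ι → ℝ)) (hKc : IsClosed K) (E : Finset ι) (ξ : ι → ι → ℝ) :
    MeasurableSet {y : ι → ℝ | ∃ a : ι → ℝ, (fun j => y j - ∑ e ∈ E, a e * ξ e j) ∈ K} := by
  have h1 : {y : ι → ℝ | ∃ a : ι → ℝ, (fun j => y j - ∑ e ∈ E, a e * ξ e j) ∈ K} =
      (fun q : (ι → ℝ) × (ι → ℝ) => fun j => q.1 j + ∑ e ∈ E, q.2 e * ξ e j) ''
        (K ×ˢ (Set.univ : Set (ι → ℝ))) := by
    ext y
    constructor
    · rintro ⟨a, ha⟩
      refine ⟨(fun j => y j - ∑ e ∈ E, a e * ξ e j, a), ⟨ha, Set.mem_univ _⟩, ?_⟩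
      funext j
      simp
    · rintro ⟨⟨k, a⟩, ⟨hk, -⟩, rfl⟩
      refine ⟨a, ?_⟩
      convert hk using 1
      funext j
      simp
  have hc : Continuous (fun q : (ι → ℝ) × (ι → ℝ) => fun j => q.1 j + ∑ e ∈ E, q.2 e * ξ e j) := by
    fun_prop
  obtain ⟨T, hT, hTu⟩ := (isSigmaCompact_univ.of_isClosed_subset (hKc.prod isClosed_univ)
    (Set.subset_univ _)).image hc
  rw [h1, ← hTu]
  exact MeasurableSet.iUnion fun n => (hT n).isClosed.measurableSet

open Classical in
/-- E-16. The volume of `K + [0, t] ξ` minus the volume of `K`, weighted by a function `Ψ` which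
is invariant in the direction `ξ`. -/
theorem box_step (K : Set (ι → ℝ)) (hK : Convex ℝ K) (hKc : IsClosed K) (e : ι) (ξ : ι → ℝ)
    (hξ : ξ e = 1) (t : ℝ) (ht : 0 ≤ t) (Ψ : (ι → ℝ) → ℝ) (hΨ : Measurable Ψ) (M : ℝ)
    (hM : ∀ y, |Ψ y| ≤ M) (hinv : ∀ (y : ι → ℝ) (a : ℝ), Ψ (fun j => y j + a * ξ j) = Ψ y)
    (hbd : Bornology.IsBounded {y | y ∈ K ∧ Ψ y ≠ 0}) :
    (∫ y : ι → ℝ, Ψ y * (if ∃ a : ℝ, 0 ≤ a ∧ a ≤ t ∧ (fun j => y j - a * ξ j) ∈ K
        then 1 else 0)) - ∫ y : ι → ℝ, Ψ y * (if y ∈ K then 1 else 0) =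
      ∫ y : ι → ℝ, Ψ y * (if (0 ≤ y e ∧ y e ≤ t) ∧ ∃ a : ℝ, (fun j => y j - a * ξ j) ∈ K
        then 1 else 0) := by
  -- notation
  set A : Set (ι → ℝ) := {y | ∃ a : ℝ, 0 ≤ a ∧ a ≤ t ∧ (fun j => y j - a * ξ j) ∈ K} with hA
  set S : Set (ι → ℝ) := {y | (0 ≤ y e ∧ y e ≤ t) ∧ ∃ a : ℝ, (fun j => y j - a * ξ j) ∈ K} with hS
  have hsub : ∀ (y : ι → ℝ) (a : ℝ), (fun j => y j - a * ξ j) = y - a • ξ := fun y a => rfl
  have hΨs : ∀ (y : ι → ℝ) (a : ℝ), Ψ (y - a • ξ) = Ψ y := by
    intro y a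
    have h1 := hinv (y - a • ξ) a
    rw [← h1]
    congr 1
    funext j
    simp
  -- measurability
  have hAm : MeasurableSet A := by
    have h1 : A = (fun q : (ι → ℝ) × ℝ => q.1 + q.2 • ξ) '' (K ×ˢ Set.Icc (0 : ℝ) t) := by
      ext y
      constructor
      · rintro ⟨a, ha0, hat, ha⟩
        exact ⟨(y - a • ξ, a), ⟨ha, ha0, hat⟩, by simp⟩
      · rintro ⟨⟨k, a⟩, ⟨hk, ha0, hat⟩, rfl⟩
        refine ⟨a, ha0, hat, ?_⟩
        rw [hsub]
        simpa using hk
    have hc : Continuous (fun q : (ι → ℝ) × ℝ => q.1 + q.2 • ξ) := by fun_prop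
    obtain ⟨T, hT, hTu⟩ := (isSigmaCompact_univ.of_isClosed_subset
      (hKc.prod (isClosed_Icc (a := (0 : ℝ)) (b := t))) (Set.subset_univ _)).image hc
    rw [h1, ← hTu]
    exact MeasurableSet.iUnion fun n => (hT n).isClosed.measurableSet
  have hSm : MeasurableSet S := by
    have h1 : MeasurableSet {y : ι → ℝ | ∃ a : ℝ, (fun j => y j - a * ξ j) ∈ K} := by
      have h2 := measurable_sat K hKc {e} (fun _ => ξ)
      have h3 : {y : ι → ℝ | ∃ a : ι → ℝ, (fun j => y j - ∑ e ∈ ({e} : Finset ι), a e * ξ j) ∈ K} =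
          {y : ι → ℝ | ∃ a : ℝ, (fun j => y j - a * ξ j) ∈ K} := by
        ext y
        simp only [Finset.sum_singleton, Set.mem_ofPred_eq]
        exact ⟨fun ⟨a, ha⟩ => ⟨a e, ha⟩, fun ⟨a, ha⟩ => ⟨fun _ => a, ha⟩⟩
      rwa [h3] at h2
    have h2 : MeasurableSet {y : ι → ℝ | 0 ≤ y e ∧ y e ≤ t} :=
      (measurableSet_le measurable_const (measurable_pi_apply e)).inter
        (measurableSet_le (measurable_pi_apply e) measurable_const)
    exact h2.inter h1
  have hKm : MeasurableSet K := hKc.measurableSet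
  -- bounds
  obtain ⟨R, hR⟩ := hbd.exists_norm_le
  have hR' : ∀ y ∈ K, Ψ y ≠ 0 → ‖y‖ ≤ max R 0 := fun y hy h => (hR y ⟨hy, h⟩).trans (le_max_left _ _)
  set R₀ : ℝ := max R 0 with hR₀
  have hR₀0 : 0 ≤ R₀ := le_max_right _ _
  set X : ℝ := ‖ξ‖ with hX
  have hX0 : 0 ≤ X := norm_nonneg _
  set R₁ : ℝ := R₀ + (R₀ + t) * X with hR₁
  have hR₁0 : 0 ≤ R₁ := by positivity
  have hbA : ∀ y ∈ A, Ψ y ≠ 0 → ‖y‖ ≤ R₁ := by
    rintro y ⟨a, ha0, hat, ha⟩ hy
    rw [hsub] at ha
    have h1 := hR' _ ha (by rwa [hΨs])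
    have h2 : y = (y - a • ξ) + a • ξ := by simp
    rw [h2]
    refine (norm_add_le _ _).trans ?_
    rw [norm_smul, Real.norm_eq_abs, abs_of_nonneg ha0]
    have h3 : a * ‖ξ‖ ≤ (R₀ + t) * X := mul_le_mul_of_nonneg_right (by linarith) hX0
    linarith
  have hbS : ∀ y ∈ S, Ψ y ≠ 0 → ‖y‖ ≤ R₁ := by
    rintro y ⟨⟨hy0, hyt⟩, a, ha⟩ hy
    rw [hsub] at ha
    have h1 := hR' _ ha (by rwa [hΨs])
    have h4 := (norm_le_pi_norm (y - a • ξ) e).trans h1
    rw [Real.norm_eq_abs, abs_le] at h4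
    simp only [Pi.sub_apply, Pi.smul_apply, hξ, smul_eq_mul, mul_one] at h4
    have h5 : |a| ≤ R₀ + t := by rw [abs_le]; constructor <;> linarith [h4.1, h4.2]
    have h2 : y = (y - a • ξ) + a • ξ := by simp
    rw [h2]
    refine (norm_add_le _ _).trans ?_
    rw [norm_smul, Real.norm_eq_abs]
    have h3 : |a| * ‖ξ‖ ≤ (R₀ + t) * X := mul_le_mul_of_nonneg_right h5 hX0
    linarith
  have hKA : K ⊆ A := by
    intro y hy
    refine ⟨0, le_rfl, ht, ?_⟩
    rw [hsub, zero_smul, sub_zero]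
    exact hy
  -- the functions
  let iA : (ι → ℝ) → ℝ := fun y => if y ∈ A then 1 else 0
  let iK : (ι → ℝ) → ℝ := fun y => if y ∈ K then 1 else 0
  let iS : (ι → ℝ) → ℝ := fun y => if y ∈ S then 1 else 0
  have hiA : Measurable iA := Measurable.ite hAm measurable_const measurable_const
  have hiK : Measurable iK := Measurable.ite hKm measurable_const measurable_const
  have hiS : Measurable iS := Measurable.ite hSm measurable_const measurable_const
  have hM0 : 0 ≤ M := (abs_nonneg _).trans (hM 0)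
  have hbi : ∀ (q : Prop) [Decidable q] (y : ι → ℝ), |Ψ y * (if q then 1 else 0)| ≤ M := by
    intro q _ y
    rw [abs_mul]
    split_ifs
    · rw [abs_one, mul_one]; exact hM y
    · rw [abs_zero, mul_zero]; exact hM0
  have hball : (volume : Measure (ι → ℝ)) (Metric.closedBall 0 R₁) < ⊤ := measure_closedBall_lt_top
  have hIA : Integrable fun y => Ψ y * iA y := by
    refine box_int volume (hΨ.mul hiA) (fun y => hbi (y ∈ A) y) Metric.isClosed_closedBall.measurableSet
      hball fun y hy => ?_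
    rw [mem_closedBall_zero_iff]
    have h1 : Ψ y ≠ 0 := fun h => hy (by rw [h, zero_mul])
    have h2 : y ∈ A := by
      by_contra h
      exact hy (by simp only [iA, if_neg h, mul_zero])
    exact hbA y h2 h1
  have hIK : Integrable fun y => Ψ y * iK y := by
    refine box_int volume (hΨ.mul hiK) (fun y => hbi (y ∈ K) y) Metric.isClosed_closedBall.measurableSet
      hball fun y hy => ?_
    rw [mem_closedBall_zero_iff]
    have h1 : Ψ y ≠ 0 := fun h => hy (by rw [h, zero_mul])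
    have h2 : y ∈ K := by
      by_contra h
      exact hy (by simp only [iK, if_neg h, mul_zero])
    exact hbA y (hKA h2) h1
  have hIS : Integrable fun y => Ψ y * iS y := by
    refine box_int volume (hΨ.mul hiS) (fun y => hbi (y ∈ S) y) Metric.isClosed_closedBall.measurableSet
      hball fun y hy => ?_
    rw [mem_closedBall_zero_iff]
    have h1 : Ψ y ≠ 0 := fun h => hy (by rw [h, zero_mul])
    have h2 : y ∈ S := by
      by_contra h
      exact hy (by simp only [iS, if_neg h, mul_zero])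
    exact hbS y h2 h1
  let Dd : (ι → ℝ) → ℝ := fun y => iA y - iK y - iS y
  have hDm : Measurable Dd := (hiA.sub hiK).sub hiS
  have hDb : ∀ y, |Dd y| ≤ 3 := by
    intro y
    simp only [Dd, iA, iK, iS]
    rw [abs_le]
    split_ifs <;> constructor <;> norm_num
  let F : (ι → ℝ) → ℝ := fun y => Ψ y * Dd y
  have hFm : Measurable F := hΨ.mul hDm
  have hFb : ∀ y, |F y| ≤ M * 3 := fun y => by
    simp only [F]
    rw [abs_mul]
    exact mul_le_mul (hM y) (hDb y) (abs_nonneg _) hM0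
  have hFs : ∀ y, F y ≠ 0 → ‖y‖ ≤ R₁ := by
    intro y hy
    have h1 : Ψ y ≠ 0 := fun h => hy (by simp only [F]; rw [h, zero_mul])
    by_cases h2 : y ∈ A
    · exact hbA y h2 h1
    by_cases h3 : y ∈ S
    · exact hbS y h3 h1
    exfalso
    apply hy
    have h4 : y ∉ K := fun h => h2 (hKA h)
    simp only [F, Dd, iA, iK, iS, if_neg h2, if_neg h3, if_neg h4, sub_zero, mul_zero]
  -- the line integrals
  have hline : ∀ y, Ψ y ≠ 0 → ∫ s : ℝ, Dd (y - s • ξ) = 0 := by
    intro y hy
    set I : Set ℝ := {s | y - s • ξ ∈ K} with hI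
    have hIc : IsClosed I := hKc.preimage (by fun_prop)
    have hIconv : Convex ℝ I := by
      intro s hs s' hs' a b ha hb hab
      have h1 := hK hs hs' ha hb hab
      have h2 : a • (y - s • ξ) + b • (y - s' • ξ) = y - (a • s + b • s') • ξ := by
        have h3 : y = (a + b) • y := by rw [hab, one_smul]
        conv_rhs => rw [h3]
        simp only [smul_sub, add_smul, smul_assoc]
        abel
      rw [h2] at h1
      exact h1
    have hIb : ∀ s ∈ I, |y e - s| ≤ R₀ := by
      intro s hs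
      have h1 := hR' _ hs (by rwa [hΨs])
      have h4 := (norm_le_pi_norm (y - s • ξ) e).trans h1
      rw [Real.norm_eq_abs] at h4
      simpa [hξ] using h4
    have mA : ∀ s : ℝ, y - s • ξ ∈ A ↔ ∃ a, 0 ≤ a ∧ a ≤ t ∧ s + a ∈ I := by
      intro s
      constructor
      · rintro ⟨a, h1, h2, h3⟩
        refine ⟨a, h1, h2, ?_⟩
        rw [hsub, sub_sub, ← add_smul] at h3
        exact h3
      · rintro ⟨a, h1, h2, h3⟩
        refine ⟨a, h1, h2, ?_⟩
        rw [hsub, sub_sub, ← add_smul]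
        exact h3
    have mS : ∀ s : ℝ, y - s • ξ ∈ S ↔ (0 ≤ y e - s ∧ y e - s ≤ t) ∧ I.Nonempty := by
      intro s
      have h0 : (y - s • ξ) e = y e - s := by simp [hξ]
      constructor
      · rintro ⟨h1, a, h3⟩
        rw [h0] at h1
        refine ⟨h1, s + a, ?_⟩
        rw [hsub, sub_sub, ← add_smul] at h3
        exact h3
      · rintro ⟨h1, a, h3⟩
        refine ⟨by rw [h0]; exact h1, a - s, ?_⟩
        rw [hsub, sub_sub, ← add_smul, add_sub_cancel]
        exact h3
    rcases I.eq_empty_or_nonempty with hIe | hIn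
    · have h1 : ∀ s : ℝ, Dd (y - s • ξ) = 0 := by
        intro s
        have h2 : y - s • ξ ∉ A := by
          rw [mA, hIe]
          rintro ⟨a, -, -, h⟩
          exact h
        have h3 : y - s • ξ ∉ S := by
          rw [mS, hIe]
          rintro ⟨-, h⟩
          exact Set.not_nonempty_empty h
        have h4 : y - s • ξ ∉ K := fun h => h2 (hKA h)
        simp only [Dd, iA, iK, iS, if_neg h2, if_neg h3, if_neg h4, sub_zero]
      simp only [h1, integral_zero]
    · have hbb : BddBelow I := ⟨y e - R₀, fun s hs => by have := (abs_le.1 (hIb s hs)).2; linarith⟩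
      have hba : BddAbove I := ⟨y e + R₀, fun s hs => by have := (abs_le.1 (hIb s hs)).1; linarith⟩
      set α : ℝ := sInf I with hα
      set β : ℝ := sSup I with hβ
      have hαI : α ∈ I := hIc.csInf_mem hIn hbb
      have hβI : β ∈ I := hIc.csSup_mem hIn hba
      have hαβ : α ≤ β := csInf_le hbb hβI
      have hII : I = Set.Icc α β := by
        ext s
        constructor
        · intro hs
          exact ⟨csInf_le hbb hs, le_csSup hba hs⟩
        · intro hs
          exact hIconv.ordConnected.out hαI hβI hs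
      have e1 : ∀ s : ℝ, Dd (y - s • ξ) = (Set.Icc (α - t) β).indicator 1 s -
          (Set.Icc α β).indicator 1 s - (Set.Icc (y e - t) (y e)).indicator 1 s := by
        intro s
        simp only [Dd, iA, iK, iS, Set.indicator_apply, Pi.one_apply]
        have k1 : y - s • ξ ∈ A ↔ s ∈ Set.Icc (α - t) β := by
          rw [mA, hII]
          constructor
          · rintro ⟨a, h1, h2, h3, h4⟩
            exact ⟨by linarith, by linarith⟩
          · rintro ⟨h1, h2⟩
            refine ⟨max 0 (α - s), le_max_left _ _, max_le ht (by linarith), ?_, ?_⟩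
            · have := le_max_right 0 (α - s); linarith
            · rcases max_cases 0 (α - s) with ⟨h3, -⟩ | ⟨h3, -⟩ <;> rw [h3] <;> linarith
        have k2 : y - s • ξ ∈ K ↔ s ∈ Set.Icc α β := by
          rw [← hII]
          rfl
        have k3 : y - s • ξ ∈ S ↔ s ∈ Set.Icc (y e - t) (y e) := by
          rw [mS]
          constructor
          · rintro ⟨⟨h1, h2⟩, -⟩
            exact ⟨by linarith, by linarith⟩
          · rintro ⟨h1, h2⟩
            exact ⟨⟨by linarith, by linarith⟩, hIn⟩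
        simp only [k1, k2, k3]
      have hi : ∀ a b : ℝ, Integrable ((Set.Icc a b).indicator (1 : ℝ → ℝ)) := by
        intro a b
        rw [integrable_indicator_iff measurableSet_Icc]
        exact integrableOn_const (by simp)
      have hv : ∀ a b : ℝ, a ≤ b → ∫ s, (Set.Icc a b).indicator (1 : ℝ → ℝ) s = b - a := by
        intro a b hab
        rw [integral_indicator_one measurableSet_Icc]
        simp [Measure.real, hab]
      simp only [e1]
      have hs1 := integral_sub ((hi (α - t) β).sub (hi α β)) (hi (y e - t) (y e))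
      have hs2 := integral_sub (hi (α - t) β) (hi α β)
      have hs3 : ∫ s, ((Set.Icc (α - t) β).indicator (1 : ℝ → ℝ) s -
          (Set.Icc α β).indicator 1 s - (Set.Icc (y e - t) (y e)).indicator 1 s) =
          (∫ s, (Set.Icc (α - t) β).indicator (1 : ℝ → ℝ) s) -
          (∫ s, (Set.Icc α β).indicator (1 : ℝ → ℝ) s) -
          ∫ s, (Set.Icc (y e - t) (y e)).indicator (1 : ℝ → ℝ) s := by
        rw [← hs2]
        exact hs1
      rw [hs3, hv _ _ (by linarith), hv _ _ hαβ, hv _ _ (by linarith)]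
      ring
  -- the average
  let χ : ℝ → ℝ := (Set.Ico (0 : ℝ) 1).indicator 1
  have hχm : Measurable χ := measurable_one.indicator measurableSet_Ico
  have hχ1 : ∫ s, χ s = 1 := by
    rw [integral_indicator_one measurableSet_Ico]
    simp [Measure.real]
  have hχb : ∀ s, |χ s| ≤ 1 := by
    intro s
    simp only [χ, Set.indicator_apply, Pi.one_apply]
    split_ifs <;> simp
  have hχ0 : ∀ s, χ s ≠ 0 → 0 ≤ s ∧ s < 1 := by
    intro s hs
    by_contra h
    exact hs (Set.indicator_of_notMem (by rwa [Set.mem_Ico]) _)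
  set R₂ : ℝ := R₁ + (R₁ + 1) * X with hR₂
  have hR₂1 : R₁ ≤ R₂ := by
    have : 0 ≤ (R₁ + 1) * X := by positivity
    linarith
  set BB : Set ((ι → ℝ) × ℝ) := Metric.closedBall (0 : ι → ℝ) R₂ ×ˢ Set.Icc (-(R₁ + 1)) (R₁ + 1)
    with hBB
  have hBBm : MeasurableSet BB := Metric.isClosed_closedBall.measurableSet.prod measurableSet_Icc
  have hBBv : ((volume : Measure (ι → ℝ)).prod (volume : Measure ℝ)) BB < ⊤ := by
    rw [hBB, Measure.prod_prod]
    exact ENNReal.mul_lt_top measure_closedBall_lt_top (by simp)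
  have hG1 : Integrable (Function.uncurry fun (y : ι → ℝ) (s : ℝ) => F y * χ (y e + s))
      ((volume : Measure (ι → ℝ)).prod (volume : Measure ℝ)) := by
    have hm : Measurable (Function.uncurry fun (y : ι → ℝ) (s : ℝ) => F y * χ (y e + s)) :=
      (hFm.comp measurable_fst).mul (hχm.comp (((measurable_pi_apply e).comp measurable_fst).add
        measurable_snd))
    refine box_int _ hm (M := M * 3 * 1) (fun q => ?_) hBBm hBBv fun q hq => ?_
    · simp only [Function.uncurry]
      rw [abs_mul]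
      exact mul_le_mul (hFb _) (hχb _) (abs_nonneg _) (by positivity)
    · simp only [Function.uncurry] at hq
      have h1 := hFs q.1 fun h => hq (by rw [h, zero_mul])
      have h2 := hχ0 (q.1 e + q.2) fun h => hq (by rw [h, mul_zero])
      have h3 := (norm_le_pi_norm q.1 e).trans h1
      rw [Real.norm_eq_abs, abs_le] at h3
      refine ⟨?_, ?_, ?_⟩
      · rw [mem_closedBall_zero_iff]; linarith
      · linarith [h3.2, h2.1]
      · linarith [h3.1, h2.2]
  have hG2 : Integrable (Function.uncurry fun (y : ι → ℝ) (s : ℝ) => F (y - s • ξ) * χ (y e))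
      ((volume : Measure (ι → ℝ)).prod (volume : Measure ℝ)) := by
    have hc : Continuous fun q : (ι → ℝ) × ℝ => q.1 - q.2 • ξ := by fun_prop
    have hm : Measurable (Function.uncurry fun (y : ι → ℝ) (s : ℝ) => F (y - s • ξ) * χ (y e)) :=
      (hFm.comp hc.measurable).mul (hχm.comp ((measurable_pi_apply e).comp measurable_fst))
    refine box_int _ hm (M := M * 3 * 1) (fun q => ?_) hBBm hBBv fun q hq => ?_
    · simp only [Function.uncurry]
      rw [abs_mul]
      exact mul_le_mul (hFb _) (hχb _) (abs_nonneg _) (by positivity)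
    · simp only [Function.uncurry] at hq
      have h1 := hFs (q.1 - q.2 • ξ) fun h => hq (by rw [h, zero_mul])
      have h2 := hχ0 (q.1 e) fun h => hq (by rw [h, mul_zero])
      have h3 := (norm_le_pi_norm (q.1 - q.2 • ξ) e).trans h1
      rw [Real.norm_eq_abs, abs_le] at h3
      simp only [Pi.sub_apply, Pi.smul_apply, hξ, smul_eq_mul, mul_one] at h3
      have h4 : |q.2| ≤ R₁ + 1 := by rw [abs_le]; constructor <;> linarith [h3.1, h3.2, h2.1, h2.2]
      refine ⟨?_, (abs_le.1 h4).1, (abs_le.1 h4).2⟩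
      rw [mem_closedBall_zero_iff]
      have h5 : q.1 = (q.1 - q.2 • ξ) + q.2 • ξ := by simp
      rw [h5]
      refine (norm_add_le _ _).trans ?_
      rw [norm_smul, Real.norm_eq_abs]
      have h6 : |q.2| * ‖ξ‖ ≤ (R₁ + 1) * X := mul_le_mul_of_nonneg_right h4 hX0
      linarith
  have hFint : ∫ y, F y = 0 := by
    have s1 : ∫ y, F y = ∫ y, ∫ s, F y * χ (y e + s) := by
      refine integral_congr_ae (Filter.Eventually.of_forall fun y => ?_)
      simp only
      rw [integral_const_mul, integral_add_left_eq_self (fun s => χ s) (y e), hχ1, mul_one]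
    have s2 : ∫ y, ∫ s, F y * χ (y e + s) = ∫ s, ∫ y, F y * χ (y e + s) :=
      integral_integral_swap hG1
    have s3 : ∀ s : ℝ, ∫ y, F y * χ (y e + s) = ∫ y, F (y - s • ξ) * χ (y e) := by
      intro s
      rw [← integral_sub_right_eq_self (fun y => F y * χ (y e + s)) (s • ξ)]
      refine integral_congr_ae (Filter.Eventually.of_forall fun y => ?_)
      simp [hξ]
    have s4 : ∫ s : ℝ, ∫ y, F (y - s • ξ) * χ (y e) = ∫ y, ∫ s : ℝ, F (y - s • ξ) * χ (y e) :=
      (integral_integral_swap hG2).symm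
    rw [s1, s2]
    simp only [s3]
    rw [s4]
    refine integral_eq_zero_of_ae (Filter.Eventually.of_forall fun y => ?_)
    show ∫ s : ℝ, F (y - s • ξ) * χ (y e) = 0
    by_cases hy : Ψ y = 0
    · have : ∀ s : ℝ, F (y - s • ξ) * χ (y e) = 0 := by
        intro s
        simp only [F]
        rw [hΨs, hy, zero_mul, zero_mul]
      simp only [this, integral_zero]
    · have : ∀ s : ℝ, F (y - s • ξ) * χ (y e) = (Ψ y * χ (y e)) * Dd (y - s • ξ) := by
        intro s
        simp only [F]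
        rw [hΨs]
        ring
      simp only [this]
      rw [integral_const_mul, hline y hy, mul_zero]
  have hexp : ∫ y, F y = (∫ y, Ψ y * iA y) - (∫ y, Ψ y * iK y) - ∫ y, Ψ y * iS y := by
    have h1 : F = fun y => Ψ y * iA y - Ψ y * iK y - Ψ y * iS y := by
      funext y
      simp only [F, Dd]
      ring
    have hs1 := integral_sub (hIA.sub hIK) hIS
    have hs2 := integral_sub hIA hIK
    rw [h1, ← hs2]
    exact hs1
  rw [hFint] at hexp
  have e1 : (∫ y : ι → ℝ, Ψ y * (if ∃ a : ℝ, 0 ≤ a ∧ a ≤ t ∧ (fun j => y j - a * ξ j) ∈ K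
        then 1 else 0)) = ∫ y, Ψ y * iA y := rfl
  have e2 : (∫ y : ι → ℝ, Ψ y * (if (0 ≤ y e ∧ y e ≤ t) ∧ ∃ a : ℝ, (fun j => y j - a * ξ j) ∈ K
        then 1 else 0)) = ∫ y, Ψ y * iS y := rfl
  have e3 : (∫ y : ι → ℝ, Ψ y * (if y ∈ K then 1 else 0)) = ∫ y, Ψ y * iK y := rfl
  rw [e1, e2, e3]
  linarith

end MPb07157.EE
end
end

section

/-!
# Theorem E: volumes of Minkowski sums with boxes
-/

set_option linter.unusedSectionVars false

noncomputable section

namespace MPb07157.EE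

open MeasureTheory Finset

variable {ι : Type} [Fintype ι] [DecidableEq ι]

/-- the projection along the directions `ξ e`, `e ∈ E` -/
private def bxP (E : Finset ι) (ξ : ι → ι → ℝ) (y : ι → ℝ) : ι → ℝ :=
  fun j => y j - ∑ e ∈ E, y e * ξ e j

private def bxL (E : Finset ι) (ξ : ι → ι → ℝ) : (ι → ℝ) →ₗ[ℝ] (ι → ℝ) where
  toFun := bxP E ξ
  map_add' x y := by
    funext j
    simp only [bxP, Pi.add_apply, add_mul, Finset.sum_add_distrib]
    ring
  map_smul' c y := by
    funext j
    simp only [bxP, Pi.smul_apply, smul_eq_mul, RingHom.id_apply, mul_assoc, ← Finset.mul_sum]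
    ring

private theorem bx_coord {E : Finset ι} {ξ : ι → ι → ℝ} (h1 : ∀ e ∈ E, ξ e e = 1)
    (h0 : ∀ e ∈ E, ∀ e' ∈ E, e ≠ e' → ξ e e' = 0) (a : ι → ℝ) {e' : ι} (he : e' ∈ E) :
    ∑ e ∈ E, a e * ξ e e' = a e' := by
  rw [Finset.sum_eq_single e' (fun e hE hne => by rw [h0 e hE e' he hne, mul_zero])
    (fun h => absurd he h), h1 e' he, mul_one]

private theorem bx_mem {E : Finset ι} {ξ : ι → ι → ℝ} (h1 : ∀ e ∈ E, ξ e e = 1)
    (h0 : ∀ e ∈ E, ∀ e' ∈ E, e ≠ e' → ξ e e' = 0) (K : Set (ι → ℝ)) (y : ι → ℝ) :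
    (∃ a : ι → ℝ, (fun j => y j - ∑ e ∈ E, a e * ξ e j) ∈ K) ↔ y ∈ bxL E ξ ⁻¹' (bxL E ξ '' K) := by
  constructor
  · rintro ⟨a, ha⟩
    refine ⟨_, ha, ?_⟩
    show bxP E ξ _ = bxP E ξ y
    funext j
    have h2 : ∑ e' ∈ E, (y e' - ∑ e ∈ E, a e * ξ e e') * ξ e' j =
        ∑ e' ∈ E, y e' * ξ e' j - ∑ e' ∈ E, a e' * ξ e' j := by
      rw [← Finset.sum_sub_distrib]
      refine Finset.sum_congr rfl fun e' he' => ?_
      rw [bx_coord h1 h0 a he', sub_mul]
    simp only [bxP]
    rw [h2]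
    ring
  · rintro ⟨k, hk, hky⟩
    refine ⟨fun e => y e - k e, ?_⟩
    have h2 : (fun j => y j - ∑ e ∈ E, (y e - k e) * ξ e j) = k := by
      funext j
      have h3 : bxP E ξ k j = bxP E ξ y j := congrFun hky j
      simp only [bxP] at h3
      simp only [sub_mul, Finset.sum_sub_distrib]
      linarith
    show (fun j => y j - ∑ e ∈ E, (y e - k e) * ξ e j) ∈ K
    rw [h2]
    exact hk

private theorem bx_split {E : Finset ι} {e0 : ι} (he : e0 ∉ E) (ξ : ι → ι → ℝ) (a : ι → ℝ) (y : ι → ℝ) (j : ι) :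
    y j - ∑ e ∈ insert e0 E, a e * ξ e j = (y j - a e0 * ξ e0 j) - ∑ e ∈ E, a e * ξ e j := by
  rw [Finset.sum_insert he]
  ring

open Classical in
private theorem bx_ite {p q : Prop} (h : p ↔ q) {i : Decidable p} {i' : Decidable q} :
    (if p then (1 : ℝ) else 0) = if q then 1 else 0 := by
  by_cases hp : p
  · rw [if_pos hp, if_pos (h.1 hp)]
  · rw [if_neg hp, if_neg (fun hq => hp (h.2 hq))]

/-- `K + [0, t] ξ` -/
private def bxS (K : Set (ι → ℝ)) (x : ι → ℝ) (t : ℝ) : Set (ι → ℝ) :=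
  {z | ∃ a : ℝ, 0 ≤ a ∧ a ≤ t ∧ (fun j => z j - a * x j) ∈ K}

private theorem bxS_eq (K : Set (ι → ℝ)) (x : ι → ℝ) (t : ℝ) :
    bxS K x t = (fun p : (ι → ℝ) × ℝ => p.1 + p.2 • x) '' (K ×ˢ Set.Icc 0 t) := by
  ext z
  constructor
  · rintro ⟨a, h0, h1, h2⟩
    refine ⟨(_, a), ⟨h2, ⟨h0, h1⟩⟩, ?_⟩
    funext j
    simp
  · rintro ⟨⟨k, a⟩, ⟨hk, ha⟩, rfl⟩
    refine ⟨a, ha.1, ha.2, ?_⟩
    have : (fun j => (k + a • x) j - a * x j) = k := by
      funext j
      simp
    show (fun j => (k + a • x) j - a * x j) ∈ K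
    rw [this]
    exact hk

private theorem bxS_compact {K : Set (ι → ℝ)} (hK : IsCompact K) (x : ι → ℝ) (t : ℝ) :
    IsCompact (bxS K x t) := by
  rw [bxS_eq]
  exact (hK.prod isCompact_Icc).image (by fun_prop)

private theorem bxS_convex {K : Set (ι → ℝ)} (hK : Convex ℝ K) (x : ι → ℝ) (t : ℝ) :
    Convex ℝ (bxS K x t) := by
  rw [bxS_eq]
  refine (hK.prod (convex_Icc 0 t)).is_linear_image ⟨fun p q => ?_, fun c p => ?_⟩
  · simp only [Prod.fst_add, Prod.snd_add, add_smul]
    abel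
  · simp only [Prod.smul_fst, Prod.smul_snd, smul_add, smul_assoc]

/-- Minkowski sums with one more segment. -/
private theorem bx_cube {S : Finset ι} {e0 : ι} (he : e0 ∉ S) (ξ : ι → ι → ℝ) {t : ℝ} (ht : 0 ≤ t)
    (K : Set (ι → ℝ)) (y : ι → ℝ) :
    (∃ r, Cube r ∧ (fun j => y j - t * ∑ e ∈ insert e0 S, r e * ξ e j) ∈ K) ↔
      ∃ r, Cube r ∧ (fun j => y j - t * ∑ e ∈ S, r e * ξ e j) ∈ bxS K (ξ e0) t := by
  constructor
  · rintro ⟨r, hr, h⟩
    refine ⟨r, hr, t * r e0, mul_nonneg ht (hr e0).1, ?_, ?_⟩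
    · have := mul_le_mul_of_nonneg_left (hr e0).2 ht
      linarith
    · have e1 : (fun j => y j - t * ∑ e ∈ S, r e * ξ e j - t * r e0 * ξ e0 j) =
          fun j => y j - t * ∑ e ∈ insert e0 S, r e * ξ e j := by
        funext j
        rw [Finset.sum_insert he]
        ring
      show (fun j => y j - t * ∑ e ∈ S, r e * ξ e j - t * r e0 * ξ e0 j) ∈ K
      rw [e1]
      exact h
  · rintro ⟨r, hr, a, ha0, hat, h⟩
    obtain ⟨c, hc0, hc1, hc⟩ : ∃ c : ℝ, 0 ≤ c ∧ c ≤ 1 ∧ t * c = a := by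
      rcases ht.eq_or_lt with h0 | h0
      · exact ⟨0, le_rfl, zero_le_one, by linarith⟩
      · refine ⟨a / t, div_nonneg ha0 h0.le, (div_le_one h0).2 hat, ?_⟩
        field_simp
    refine ⟨Function.update r e0 c, fun e => ?_, ?_⟩
    · by_cases he' : e = e0
      · subst he'
        rw [Function.update_self]
        exact ⟨hc0, hc1⟩
      · rw [Function.update_of_ne he']
        exact hr e
    · have e1 : (fun j => y j - t * ∑ e ∈ insert e0 S, Function.update r e0 c e * ξ e j) =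
          fun j => y j - t * ∑ e ∈ S, r e * ξ e j - a * ξ e0 j := by
        funext j
        rw [Finset.sum_insert he, Function.update_self]
        have e2 : ∑ e ∈ S, Function.update r e0 c e * ξ e j = ∑ e ∈ S, r e * ξ e j := by
          refine Finset.sum_congr rfl fun e heS => ?_
          rw [Function.update_of_ne (show e ≠ e0 from fun h' => he (h' ▸ heS))]
        rw [e2, ← hc]
        ring
      rw [e1]
      exact h

open Classical in
/-- E-17. The mixed difference of the weighted volumes of Minkowski sums with boxes. -/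
theorem box_all (E : Finset ι) (ξ : ι → ι → ℝ) (hξ1 : ∀ e ∈ E, ξ e e = 1)
    (hξ0 : ∀ e ∈ E, ∀ e' ∈ E, e ≠ e' → ξ e e' = 0) (t : ℝ) (ht : 0 ≤ t) (K : Set (ι → ℝ))
    (hK : Convex ℝ K) (hKc : IsCompact K) (Ψ : (ι → ℝ) → ℝ) (hΨ : Measurable Ψ) (M : ℝ)
    (hM : ∀ y, |Ψ y| ≤ M)
    (hinv : ∀ e ∈ E, ∀ (y : ι → ℝ) (a : ℝ), Ψ (fun j => y j + a * ξ e j) = Ψ y) :
    ∑ S ∈ E.powerset, (-1 : ℝ) ^ (E.card + S.card) * ∫ y : ι → ℝ, Ψ y *
        (if ∃ r, Cube r ∧ (fun j => y j - t * ∑ e ∈ S, r e * ξ e j) ∈ K then 1 else 0) =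
      ∫ y : ι → ℝ, Ψ y * (if (∀ e ∈ E, 0 ≤ y e ∧ y e ≤ t) ∧
        ∃ a : ι → ℝ, (fun j => y j - ∑ e ∈ E, a e * ξ e j) ∈ K then 1 else 0) := by
  induction E using Finset.induction_on generalizing K with
  | empty =>
    rw [Finset.powerset_empty, Finset.sum_singleton, Finset.card_empty, add_zero, pow_zero, one_mul]
    refine integral_congr_ae (Filter.Eventually.of_forall fun y => ?_)
    show Ψ y * _ = Ψ y * _
    congr 1
    refine bx_ite ?_
    simp only [Finset.sum_empty, mul_zero, sub_zero, Finset.notMem_empty, false_imp_iff, implies_true,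
      true_and]
    constructor
    · rintro ⟨r, -, h⟩
      exact ⟨r, h⟩
    · rintro ⟨r, h⟩
      exact ⟨fun _ => 0, fun _ => ⟨le_rfl, zero_le_one⟩, h⟩
  | insert e0 E' he0 ih =>
    have h1' : ∀ e ∈ E', ξ e e = 1 := fun e he => hξ1 e (Finset.mem_insert_of_mem he)
    have h0' : ∀ e ∈ E', ∀ e' ∈ E', e ≠ e' → ξ e e' = 0 := fun e he e' he' =>
      hξ0 e (Finset.mem_insert_of_mem he) e' (Finset.mem_insert_of_mem he')
    have hinv' : ∀ e ∈ E', ∀ (y : ι → ℝ) (a : ℝ), Ψ (fun j => y j + a * ξ e j) = Ψ y :=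
      fun e he => hinv e (Finset.mem_insert_of_mem he)
    have IH := ih h1' h0' K hK hKc hinv'
    have IH1 := ih h1' h0' (bxS K (ξ e0) t) (bxS_convex hK _ _) (bxS_compact hKc _ _) hinv'
    -- the sum over the subsets
    have hsum : ∑ S ∈ (insert e0 E').powerset, (-1 : ℝ) ^ ((insert e0 E').card + S.card) *
        ∫ y : ι → ℝ, Ψ y *
        (if ∃ r, Cube r ∧ (fun j => y j - t * ∑ e ∈ S, r e * ξ e j) ∈ K then 1 else 0) =
        (∑ S ∈ E'.powerset, (-1 : ℝ) ^ (E'.card + S.card) * ∫ y : ι → ℝ, Ψ y *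
        (if ∃ r, Cube r ∧ (fun j => y j - t * ∑ e ∈ S, r e * ξ e j) ∈ bxS K (ξ e0) t then 1 else 0)) -
        ∑ S ∈ E'.powerset, (-1 : ℝ) ^ (E'.card + S.card) * ∫ y : ι → ℝ, Ψ y *
        (if ∃ r, Cube r ∧ (fun j => y j - t * ∑ e ∈ S, r e * ξ e j) ∈ K then 1 else 0) := by
      rw [Finset.sum_powerset_insert he0, Finset.card_insert_of_notMem he0, ← Finset.sum_add_distrib,
        ← Finset.sum_sub_distrib]
      refine Finset.sum_congr rfl fun S hS => ?_
      have heS : e0 ∉ S := fun h => he0 (Finset.mem_powerset.1 hS h)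
      rw [Finset.card_insert_of_notMem heS]
      have e1 : (∫ y : ι → ℝ, Ψ y * (if ∃ r, Cube r ∧
          (fun j => y j - t * ∑ e ∈ insert e0 S, r e * ξ e j) ∈ K then 1 else 0)) =
          ∫ y : ι → ℝ, Ψ y * (if ∃ r, Cube r ∧
          (fun j => y j - t * ∑ e ∈ S, r e * ξ e j) ∈ bxS K (ξ e0) t then 1 else 0) := by
        refine integral_congr_ae (Filter.Eventually.of_forall fun y => ?_)
        show Ψ y * _ = Ψ y * _
        congr 1
        exact bx_ite (bx_cube heS ξ ht K y)
      rw [e1, show E'.card + 1 + (S.card + 1) = E'.card + S.card + 2 by ring,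
        show E'.card + 1 + S.card = E'.card + S.card + 1 by ring]
      ring
    rw [hsum, IH, IH1]
    -- the weight
    set Ψ' : (ι → ℝ) → ℝ := fun y => Ψ y * (if ∀ e ∈ E', 0 ≤ y e ∧ y e ≤ t then 1 else 0) with hΨ'
    set K' : Set (ι → ℝ) := bxL E' ξ ⁻¹' (bxL E' ξ '' K) with hK'
    have hLc : Continuous (bxL E' ξ) := LinearMap.continuous_of_finiteDimensional _
    have hK'c : IsClosed K' := (hKc.image hLc).isClosed.preimage hLc
    have hK'x : Convex ℝ K' := (hK.linear_image (bxL E' ξ)).linear_preimage (bxL E' ξ)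
    have hset : MeasurableSet {y : ι → ℝ | ∀ e ∈ E', 0 ≤ y e ∧ y e ≤ t} := by
      have : {y : ι → ℝ | ∀ e ∈ E', 0 ≤ y e ∧ y e ≤ t} = ⋂ e ∈ E', {y | 0 ≤ y e ∧ y e ≤ t} := by
        ext y; simp
      rw [this]
      refine Finset.measurableSet_biInter _ fun e _ => ?_
      exact (measurableSet_le measurable_const (measurable_pi_apply e)).inter
        (measurableSet_le (measurable_pi_apply e) measurable_const)
    have hΨm : Measurable Ψ' := hΨ.mul (Measurable.ite hset measurable_const measurable_const)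
    have hΨM : ∀ y, |Ψ' y| ≤ M := by
      intro y
      have h0 : 0 ≤ M := (abs_nonneg _).trans (hM y)
      simp only [hΨ']
      split_ifs
      · rw [mul_one]; exact hM y
      · rw [mul_zero, abs_zero]; exact h0
    have hxi : ∀ e ∈ E', ξ e0 e = 0 := fun e he =>
      hξ0 e0 (Finset.mem_insert_self _ _) e (Finset.mem_insert_of_mem he) (fun h => he0 (h ▸ he))
    have hΨi : ∀ (y : ι → ℝ) (a : ℝ), Ψ' (fun j => y j + a * ξ e0 j) = Ψ' y := by
      intro y a
      simp only [hΨ']
      rw [hinv e0 (Finset.mem_insert_self _ _) y a]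
      congr 1
      refine bx_ite ?_
      refine forall₂_congr fun e he => ?_
      rw [hxi e he, mul_zero, add_zero]
    have hbd : Bornology.IsBounded {y | y ∈ K' ∧ Ψ' y ≠ 0} := by
      obtain ⟨R, hR⟩ := hKc.isBounded.exists_norm_le
      refine (Metric.isBounded_closedBall (x := (0 : ι → ℝ))
        (r := R + ∑ e ∈ E', (t + R) * ‖ξ e‖)).subset ?_
      rintro y ⟨hy1, hy2⟩
      rw [mem_closedBall_zero_iff]
      obtain ⟨a, ha⟩ := (bx_mem h1' h0' K y).2 hy1
      have hcube : ∀ e ∈ E', 0 ≤ y e ∧ y e ≤ t := by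
        by_contra hcon
        apply hy2
        simp only [hΨ']
        rw [if_neg hcon, mul_zero]
      set k : ι → ℝ := fun j => y j - ∑ e ∈ E', a e * ξ e j with hk
      have hkR : ‖k‖ ≤ R := hR k ha
      have hyk : y = k + ∑ e ∈ E', a e • ξ e := by
        funext j
        simp [hk, Finset.sum_apply]
      have ha' : ∀ e ∈ E', |a e| ≤ t + R := by
        intro e he
        have h2 : k e = y e - a e := by
          simp only [hk]
          rw [bx_coord h1' h0' a he]
        have h3 : |k e| ≤ R := (norm_le_pi_norm k e).trans hkR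
        have h4 := hcube e he
        rw [abs_le] at h3 ⊢
        constructor <;> linarith
      have h5 : ‖∑ e ∈ E', a e • ξ e‖ ≤ ∑ e ∈ E', (t + R) * ‖ξ e‖ := by
        refine (norm_sum_le _ _).trans (Finset.sum_le_sum fun e he => ?_)
        rw [norm_smul, Real.norm_eq_abs]
        exact mul_le_mul_of_nonneg_right (ha' e he) (norm_nonneg _)
      rw [hyk]
      exact (norm_add_le _ _).trans (add_le_add hkR h5)
    have step := box_step K' hK'x hK'c e0 (ξ e0) (hξ1 e0 (Finset.mem_insert_self _ _)) t ht Ψ' hΨm M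
      hΨM hΨi hbd
    have f1 : (∫ y : ι → ℝ, Ψ y * (if (∀ e ∈ E', 0 ≤ y e ∧ y e ≤ t) ∧
        ∃ a : ι → ℝ, (fun j => y j - ∑ e ∈ E', a e * ξ e j) ∈ bxS K (ξ e0) t then 1 else 0)) =
        ∫ y : ι → ℝ, Ψ' y * (if ∃ a : ℝ, 0 ≤ a ∧ a ≤ t ∧ (fun j => y j - a * ξ e0 j) ∈ K'
        then 1 else 0) := by
      refine integral_congr_ae (Filter.Eventually.of_forall fun y => ?_)
      show Ψ y * _ = Ψ y * _ * _
      rw [mul_assoc]
      congr 1
      have h2 : (∃ a : ι → ℝ, (fun j => y j - ∑ e ∈ E', a e * ξ e j) ∈ bxS K (ξ e0) t) ↔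
          ∃ a : ℝ, 0 ≤ a ∧ a ≤ t ∧ (fun j => y j - a * ξ e0 j) ∈ K' := by
        constructor
        · rintro ⟨a, b, hb0, hb1, h⟩
          refine ⟨b, hb0, hb1, (bx_mem h1' h0' K _).1 ⟨a, ?_⟩⟩
          have e1 : (fun j => y j - b * ξ e0 j - ∑ e ∈ E', a e * ξ e j) =
              fun j => y j - ∑ e ∈ E', a e * ξ e j - b * ξ e0 j := by
            funext j; ring
          rw [e1]
          exact h
        · rintro ⟨b, hb0, hb1, h⟩
          obtain ⟨a, ha⟩ := (bx_mem h1' h0' K _).2 h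
          refine ⟨a, b, hb0, hb1, ?_⟩
          have e1 : (fun j => y j - ∑ e ∈ E', a e * ξ e j - b * ξ e0 j) =
              fun j => y j - b * ξ e0 j - ∑ e ∈ E', a e * ξ e j := by
            funext j; ring
          show (fun j => y j - ∑ e ∈ E', a e * ξ e j - b * ξ e0 j) ∈ K
          rw [e1]
          exact ha
      by_cases hc : ∀ e ∈ E', 0 ≤ y e ∧ y e ≤ t
      · rw [if_pos hc, one_mul]
        exact bx_ite ((and_iff_right hc).trans h2)
      · rw [if_neg hc, zero_mul, if_neg (fun h => hc h.1)]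
    have f2 : (∫ y : ι → ℝ, Ψ y * (if (∀ e ∈ E', 0 ≤ y e ∧ y e ≤ t) ∧
        ∃ a : ι → ℝ, (fun j => y j - ∑ e ∈ E', a e * ξ e j) ∈ K then 1 else 0)) =
        ∫ y : ι → ℝ, Ψ' y * (if y ∈ K' then 1 else 0) := by
      refine integral_congr_ae (Filter.Eventually.of_forall fun y => ?_)
      show Ψ y * _ = Ψ y * _ * _
      rw [mul_assoc]
      congr 1
      by_cases hc : ∀ e ∈ E', 0 ≤ y e ∧ y e ≤ t
      · rw [if_pos hc, one_mul]
        exact bx_ite ((and_iff_right hc).trans (bx_mem h1' h0' K y))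
      · rw [if_neg hc, zero_mul, if_neg (fun h => hc h.1)]
    have f3 : (∫ y : ι → ℝ, Ψ y * (if (∀ e ∈ insert e0 E', 0 ≤ y e ∧ y e ≤ t) ∧
        ∃ a : ι → ℝ, (fun j => y j - ∑ e ∈ insert e0 E', a e * ξ e j) ∈ K then 1 else 0)) =
        ∫ y : ι → ℝ, Ψ' y * (if (0 ≤ y e0 ∧ y e0 ≤ t) ∧
          ∃ a : ℝ, (fun j => y j - a * ξ e0 j) ∈ K' then 1 else 0) := by
      refine integral_congr_ae (Filter.Eventually.of_forall fun y => ?_)
      show Ψ y * _ = Ψ y * _ * _
      rw [mul_assoc]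
      congr 1
      have h2 : (∃ a : ι → ℝ, (fun j => y j - ∑ e ∈ insert e0 E', a e * ξ e j) ∈ K) ↔
          ∃ a : ℝ, (fun j => y j - a * ξ e0 j) ∈ K' := by
        constructor
        · rintro ⟨a, h⟩
          refine ⟨a e0, (bx_mem h1' h0' K _).1 ⟨a, ?_⟩⟩
          have e1 : (fun j => y j - a e0 * ξ e0 j - ∑ e ∈ E', a e * ξ e j) =
              fun j => y j - ∑ e ∈ insert e0 E', a e * ξ e j := by
            funext j; rw [bx_split he0]
          rw [e1]
          exact h
        · rintro ⟨b, h⟩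
          obtain ⟨a, ha⟩ := (bx_mem h1' h0' K _).2 h
          refine ⟨Function.update a e0 b, ?_⟩
          have e1 : (fun j => y j - ∑ e ∈ insert e0 E', Function.update a e0 b e * ξ e j) =
              fun j => y j - b * ξ e0 j - ∑ e ∈ E', a e * ξ e j := by
            funext j
            rw [bx_split he0, Function.update_self]
            congr 1
            refine Finset.sum_congr rfl fun e he => ?_
            rw [Function.update_of_ne (show e ≠ e0 from fun h' => he0 (h' ▸ he))]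
          rw [e1]
          exact ha
      by_cases hc : ∀ e ∈ E', 0 ≤ y e ∧ y e ≤ t
      · rw [if_pos hc, one_mul]
        refine bx_ite (and_congr ?_ h2)
        rw [Finset.forall_mem_insert]
        exact and_iff_left hc
      · rw [if_neg hc, zero_mul, if_neg (fun h => hc fun e he => h.1 e (Finset.mem_insert_of_mem he))]
    rw [f1, f2, f3]
    exact step

end MPb07157.EE
end
end

section

/-!
# Theorem E: positivity for fixed parameters
-/

noncomputable section

namespace MPb07157.EE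

open MeasureTheory Finset

variable {B ι : Type} [Fintype B] [DecidableEq B] [Fintype ι] [DecidableEq ι]

private theorem br_lin (u : B → ι → ℝ) (p : ι → ι) (S : Finset ι) (v : B)
    (hv : ∀ e ∈ S, u v (p e) = u v e) (a : ι → ℝ) (y : ι → ℝ) :
    lin u v (fun j => y j - ∑ e ∈ S, a e * xi p e j) = lin u v y := by
  unfold lin xi
  have h1 : ∀ j, u v j * (y j - ∑ e ∈ S, a e * ((if e = j then (1 : ℝ) else 0) - (if p e = j then 1 else 0))) =
      u v j * y j - ∑ e ∈ S, ((if e = j then a e * u v j else 0) - (if p e = j then a e * u v j else 0)) := by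
    intro j
    rw [mul_sub, Finset.mul_sum]
    congr 1
    refine Finset.sum_congr rfl fun e _ => ?_
    split_ifs <;> ring
  rw [Finset.sum_congr rfl fun j _ => h1 j, Finset.sum_sub_distrib, Finset.sum_comm]
  have h2 : ∑ e ∈ S, ∑ j, ((if e = j then a e * u v j else 0) - (if p e = j then a e * u v j else 0)) = 0 := by
    refine Finset.sum_eq_zero fun e he => ?_
    rw [Finset.sum_sub_distrib]
    simp [hv e he]
  rw [h2, sub_zero]

private theorem br_mul (P Q : Prop) (a : ℝ) [Decidable P] [Decidable Q] (h : a ≠ 0 → (P ↔ Q)) :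
    a * (if P then (1 : ℝ) else 0) = a * (if Q then (1 : ℝ) else 0) := by
  by_cases h0 : a = 0
  · rw [h0, zero_mul, zero_mul]
  · have h1 := h h0
    by_cases hP : P
    · rw [if_pos hP, if_pos (h1.1 hP)]
    · rw [if_neg hP, if_neg fun hq => hP (h1.2 hq)]

open Classical in
/-- E-18. -/
theorem Br_eq (u : B → ι → ℝ) (hu : ∀ v j, u v j = 0 ∨ 1 ≤ u v j) (co : ι → B)
    (hco : ∀ j i, u (co j) i = if i = j then 1 else 0) (p : ι → ι) (t : ℝ) (ht : 0 ≤ t)
    (E : Finset ι) (hp : ∀ e ∈ E, p e ∉ E) {φ : B → ℝ → ℝ} {lo m hi : B → ℝ}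
    (hφ : ∀ v, IsBump (φ v) (lo v) (m v) (hi v)) (ρ : Finset B) (hcoρ : ∀ j, co j ∉ ρ)
    (hρE : ∀ v ∈ ρ, ∀ e ∈ E, u v (p e) = u v e) (hρpos : ∀ j, ∃ v ∈ ρ, 1 ≤ u v j) (c : B → ℝ) :
    Br u p t E φ ρ c = ∫ y : ι → ℝ, (∏ v ∈ ρ, φ v (lin u v y)) *
      (if (∀ e ∈ E, 0 ≤ y e ∧ y e ≤ t) ∧ ∃ a : ι → ℝ, ∀ v, v ∉ ρ →
        c v ≤ lin u v (fun j => y j - ∑ e ∈ E, a e * xi p e j) then 1 else 0) := by
  set Ψ : (ι → ℝ) → ℝ := fun y => ∏ v ∈ ρ, φ v (lin u v y) with hΨ
  have hlinc : ∀ v, Continuous fun y : ι → ℝ => lin u v y := fun v => by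
    unfold lin
    exact continuous_finsetSum _ fun j _ => continuous_const.mul (continuous_apply j)
  have hφc : ∀ v, Continuous (φ v) := fun v => ((hφ v).smooth 0).continuous
  have hΨm : Measurable Ψ :=
    (continuous_finsetProd _ fun v _ => (hφc v).comp (hlinc v)).measurable
  have hbd : ∀ v, ∃ C : ℝ, ∀ s, |φ v s| ≤ C := fun v => by
    have h1 := (hφ v).hasCompactSupport_iter 0
    rw [iteratedDeriv_zero] at h1
    obtain ⟨C, hC⟩ := (hφc v).bounded_above_of_compact_support h1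
    exact ⟨C, hC⟩
  choose C hC using hbd
  have hM : ∀ y, |Ψ y| ≤ ∏ v ∈ ρ, C v := fun y => by
    rw [hΨ, Finset.abs_prod]
    exact Finset.prod_le_prod (fun v _ => abs_nonneg _) fun v _ => hC v _
  have hinv : ∀ (S : Finset ι), S ⊆ E → ∀ (a y : ι → ℝ), Ψ (fun j => y j - ∑ e ∈ S, a e * xi p e j) = Ψ y := by
    intro S hS a y
    rw [hΨ]
    refine Finset.prod_congr rfl fun v hv => ?_
    rw [br_lin u p S v (fun e he => hρE v hv e (hS he)) a y]
  set U : ℝ := ∑ v, (|hi v| + ∑ i, |u v i| * |c (co i)|) with hU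
  set K : Set (ι → ℝ) := {y | ∀ v, v ∉ ρ → c v ≤ lin u v y} with hK
  set K' : Set (ι → ℝ) := K ∩ Set.Icc (fun j => c (co j)) (fun _ => U) with hK'
  have hco' : ∀ j (y : ι → ℝ), lin u (co j) y = y j := fun j y => by
    unfold lin
    simp [hco]
  have hKK : ∀ z : ι → ℝ, Ψ z ≠ 0 → (z ∈ K ↔ z ∈ K') := by
    intro z hz
    refine ⟨fun h => ⟨h, fun j => ?_, fun j => ?_⟩, fun h => h.1⟩
    · have h1 := h (co j) (hcoρ j)
      rwa [hco'] at h1
    · show z j ≤ U
      obtain ⟨v, hv, huv⟩ := hρpos j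
      have h2 : φ v (lin u v z) ≠ 0 := Finset.prod_ne_zero_iff.1 hz v hv
      have h3 : lin u v z ≤ hi v := by
        by_contra h4
        exact h2 ((hφ v).supp _ (Or.inr (not_le.1 h4)))
      have hu0 : ∀ i, 0 ≤ u v i := fun i => by
        rcases hu v i with h5 | h5 <;> linarith
      have h6 : ∀ i, -(|u v i| * |c (co i)|) ≤ u v i * z i := by
        intro i
        have h7 : c (co i) ≤ z i := by
          have h1 := h (co i) (hcoρ i)
          rwa [hco'] at h1
        have h8 := mul_le_mul_of_nonneg_left h7 (hu0 i)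
        have h9 : -(|u v i| * |c (co i)|) ≤ u v i * c (co i) := by
          rw [← abs_mul]; exact neg_abs_le _
        linarith
      have h10 : z j - (∑ i, |u v i| * |c (co i)|) ≤ lin u v z := by
        unfold lin
        rw [← Finset.add_sum_erase _ _ (Finset.mem_univ j), ← Finset.add_sum_erase _ (fun i => u v i * z i) (Finset.mem_univ j)]
        have h11 : -(∑ i ∈ Finset.univ.erase j, |u v i| * |c (co i)|) ≤ ∑ i ∈ Finset.univ.erase j, u v i * z i := by
          rw [← Finset.sum_neg_distrib]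
          exact Finset.sum_le_sum fun i _ => h6 i
        have h12 : z j - |u v j| * |c (co j)| ≤ u v j * z j := by
          rcases le_or_gt 0 (z j) with h13 | h13
          · have h14 : z j ≤ u v j * z j := by nlinarith
            have h15 : 0 ≤ |u v j| * |c (co j)| := by positivity
            linarith
          · have h14 := h6 j
            linarith
        linarith
      have h16 : |hi v| + ∑ i, |u v i| * |c (co i)| ≤ U := by
        rw [hU]
        exact Finset.single_le_sum (f := fun v => |hi v| + ∑ i, |u v i| * |c (co i)|)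
          (fun w _ => by positivity) (Finset.mem_univ v)
      have h17 := le_abs_self (hi v)
      linarith
  have hKcl : IsClosed K := by
    have : K = ⋂ v, {y | v ∉ ρ → c v ≤ lin u v y} := by
      ext y; simp [hK]
    rw [this]
    refine isClosed_iInter fun v => ?_
    by_cases hv : v ∈ ρ
    · have : {y : ι → ℝ | v ∉ ρ → c v ≤ lin u v y} = Set.univ := by
        ext y; simp [hv]
      rw [this]; exact isClosed_univ
    · have : {y : ι → ℝ | v ∉ ρ → c v ≤ lin u v y} = {y | c v ≤ lin u v y} := by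
        ext y; simp [hv]
      rw [this]; exact isClosed_le continuous_const (hlinc v)
  have hKcv : Convex ℝ K := by
    intro x hx y hy a b ha hb hab v hv
    have h1 : lin u v (a • x + b • y) = a * lin u v x + b * lin u v y := by
      unfold lin
      rw [Finset.mul_sum, Finset.mul_sum, ← Finset.sum_add_distrib]
      refine Finset.sum_congr rfl fun j _ => ?_
      simp only [Pi.add_apply, Pi.smul_apply, smul_eq_mul]
      ring
    rw [h1]
    have h2 := mul_le_mul_of_nonneg_left (hx v hv) ha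
    have h3 := mul_le_mul_of_nonneg_left (hy v hv) hb
    calc c v = a * c v + b * c v := by rw [← add_mul, hab, one_mul]
      _ ≤ _ := by linarith
  have hK'cpt : IsCompact K' := isCompact_Icc.inter_left hKcl
  have hK'cv : Convex ℝ K' := hKcv.inter (convex_Icc _ _)
  have key := box_all E (xi p) (fun e he => by
      unfold xi
      have h1 : p e ≠ e := fun h => hp e he (by rw [h]; exact he)
      rw [if_pos rfl, if_neg h1, sub_zero])
    (fun e he e' he' hne => by
      unfold xi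
      have h1 : p e ≠ e' := fun h => hp e he (by rw [h]; exact he')
      rw [if_neg hne, if_neg h1, sub_zero]) t ht K' hK'cv hK'cpt Ψ hΨm _ hM
    (fun e he y a => by
      have h1 := hinv {e} (Finset.singleton_subset_iff.2 he) (fun _ => -a) y
      simp only [Finset.sum_singleton, neg_mul, sub_neg_eq_add] at h1
      exact h1)
  have e1 : Br u p t E φ ρ c = ∑ S ∈ E.powerset, (-1 : ℝ) ^ (E.card + S.card) * ∫ y : ι → ℝ, Ψ y *
        (if ∃ r, Cube r ∧ (fun j => y j - t * ∑ e ∈ S, r e * xi p e j) ∈ K' then 1 else 0) := by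
    unfold Br
    refine Finset.sum_congr rfl fun S hS => ?_
    congr 1
    refine integral_congr_ae (Filter.Eventually.of_forall fun y => ?_)
    refine br_mul _ _ _ fun h0 => ?_
    have h1 : ∀ r : ι → ℝ, Ψ (fun j => y j - t * ∑ e ∈ S, r e * xi p e j) ≠ 0 := fun r => by
      have h2 := hinv S (Finset.mem_powerset.1 hS) (fun e => t * r e) y
      simp only [mul_assoc, ← Finset.mul_sum] at h2
      rw [h2]; exact h0
    constructor
    · rintro ⟨r, hr, h2⟩
      exact ⟨r, hr, (hKK _ (h1 r)).1 h2⟩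
    · rintro ⟨r, hr, h2⟩
      exact ⟨r, hr, (hKK _ (h1 r)).2 h2⟩
  rw [e1, key]
  refine integral_congr_ae (Filter.Eventually.of_forall fun y => ?_)
  refine br_mul _ _ _ fun h0 => ?_
  have h1 : ∀ a : ι → ℝ, Ψ (fun j => y j - ∑ e ∈ E, a e * xi p e j) ≠ 0 := fun a => by
    rw [hinv E subset_rfl a y]; exact h0
  constructor
  · rintro ⟨h2, a, h3⟩
    exact ⟨h2, a, fun v hv => ((hKK _ (h1 a)).2 h3) v hv⟩
  · rintro ⟨h2, a, h3⟩
    exact ⟨h2, a, (hKK _ (h1 a)).1 h3⟩

end MPb07157.EE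
end
end
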