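import Pool.Agent.Lib.MP_b07157_ag.E.Defs

section

/-!
# Theorem E: Fubini type lemmas
-/

noncomputable section

namespace MPb07157.EE

open MeasureTheory Finset

variable {B : Type} [Fintype B] [DecidableEq B]

private lemma fub_integrable (F : (B → ℝ) → ℝ) (hF : Measurable F) (M : ℝ) (hM : ∀ c, |F c| ≤ M)
    (ψ : B → ℝ → ℝ) (hψ : ∀ v, Continuous (ψ v)) (hψc : ∀ v, HasCompactSupport (ψ v)) :
    Integrable fun c : B → ℝ => F c * ∏ w, ψ w (c w) := by
  have h1 : Integrable (fun c : B → ℝ => ∏ w, ψ w (c w)) :=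
    Integrable.fintype_prod (f := fun w => ψ w) fun w =>
      (hψ w).integrable_of_hasCompactSupport (hψc w)
  exact h1.bdd_mul hF.aestronglyMeasurable (Filter.Eventually.of_forall fun c => by
    rw [Real.norm_eq_abs]
    exact hM c)

/-- E-6. A function which does not depend on `c v` has integral zero against a product of
functions whose `v`-th factor has integral zero. -/
theorem int_indep (F : (B → ℝ) → ℝ) (hF : Measurable F) (M : ℝ) (hM : ∀ c, |F c| ≤ M)
    (ψ : B → ℝ → ℝ) (hψ : ∀ v, Continuous (ψ v)) (hψc : ∀ v, HasCompactSupport (ψ v)) (v : B)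
    (hv : ∫ s, ψ v s = 0) (hFv : ∀ c s, F (Function.update c v s) = F c) :
    ∫ c : B → ℝ, F c * ∏ w, ψ w (c w) = 0 := by
  classical
  have hint := fub_integrable F hF M hM ψ hψ hψc
  obtain ⟨P, hP⟩ : ∃ P : B → Prop, ∀ w, P w ↔ w = v := ⟨fun w => w = v, fun w => Iff.rfl⟩
  have hPv : P v := (hP v).2 rfl
  let e := MeasurableEquiv.piEquivPiSubtypeProd (fun _ : B => ℝ) P
  have he : MeasurePreserving e := volume_preserving_piEquivPiSubtypeProd (fun _ : B => ℝ) P
  have h1 : ∫ c : B → ℝ, F c * ∏ w, ψ w (c w) =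
      ∫ z, F (e.symm z) * ∏ w, ψ w (e.symm z w) := by
    have h2 := (he.symm e).integral_comp' (g := fun c : B → ℝ => F c * ∏ w, ψ w (c w))
    exact h2.symm
  have hint2 : Integrable (fun z => F (e.symm z) * ∏ w, ψ w (e.symm z w)) := by
    have h2 := (he.symm e).integrable_comp_emb e.symm.measurableEmbedding
      (g := fun c : B → ℝ => F c * ∏ w, ψ w (c w))
    exact h2.2 hint
  have hsv : ∀ (x : {w // P w} → ℝ) (z : {w // ¬ P w} → ℝ), e.symm (x, z) v = x ⟨v, hPv⟩ := by
    intro x z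
    show (if h : P v then x ⟨v, h⟩ else z ⟨v, h⟩) = x ⟨v, hPv⟩
    rw [dif_pos hPv]
  have hsw : ∀ (x : {w // P w} → ℝ) (z : {w // ¬ P w} → ℝ) (w : B) (hw : ¬ P w),
      e.symm (x, z) w = z ⟨w, hw⟩ := by
    intro x z w hw
    show (if h : P w then x ⟨w, h⟩ else z ⟨w, h⟩) = z ⟨w, hw⟩
    rw [dif_neg hw]
  have hfac : ∀ (x : {w // P w} → ℝ) (z : {w // ¬ P w} → ℝ),
      F (e.symm (x, z)) * ∏ w, ψ w (e.symm (x, z) w) =
      (F (e.symm (0, z)) * ∏ w ∈ Finset.univ.erase v, ψ w (e.symm (0, z) w)) *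
        ψ v (x ⟨v, hPv⟩) := by
    intro x z
    have h2 : e.symm (x, z) = Function.update (e.symm (0, z)) v (x ⟨v, hPv⟩) := by
      funext w
      by_cases hw : P w
      · have hw' : w = v := (hP w).1 hw
        subst hw'
        rw [hsv, Function.update_self]
      · rw [hsw _ _ _ hw, Function.update_of_ne (fun h => hw ((hP w).2 h)), hsw _ _ _ hw]
    have h3 : F (e.symm (x, z)) = F (e.symm (0, z)) := by rw [h2, hFv]
    rw [h3, ← Finset.mul_prod_erase Finset.univ _ (Finset.mem_univ v), hsv]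
    have h4 : ∏ w ∈ Finset.univ.erase v, ψ w (e.symm (x, z) w) =
        ∏ w ∈ Finset.univ.erase v, ψ w (e.symm (0, z) w) := by
      refine Finset.prod_congr rfl fun w hw => ?_
      have hw' : ¬ P w := fun h => Finset.ne_of_mem_erase hw ((hP w).1 h)
      rw [hsw _ _ _ hw', hsw _ _ _ hw']
    rw [h4]
    ring
  have hzero : ∫ x : {w // P w} → ℝ, ψ v (x ⟨v, hPv⟩) = 0 := by
    have hsub : Subsingleton {w // P w} := ⟨fun a b => Subtype.ext
      (((hP a.1).1 a.2).trans ((hP b.1).1 b.2).symm)⟩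
    have h2 := integral_fintype_prod_volume_eq_prod (fun (_ : {w // P w}) (s : ℝ) => ψ v s)
    have h3 : (fun x : {w // P w} → ℝ => ψ v (x ⟨v, hPv⟩)) = fun x => ∏ i, ψ v (x i) := by
      funext x
      exact (Fintype.prod_subsingleton (fun i => ψ v (x i)) ⟨v, hPv⟩).symm
    rw [h3, h2]
    exact Finset.prod_eq_zero (Finset.mem_univ ⟨v, hPv⟩) hv
  have h4 : ∫ z, F (e.symm z) * ∏ w, ψ w (e.symm z w) =
      ∫ z, ∫ x, F (e.symm (x, z)) * ∏ w, ψ w (e.symm (x, z) w) := integral_prod_symm _ hint2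
  have h5 : ∀ z : {w // ¬ P w} → ℝ,
      ∫ x, F (e.symm (x, z)) * ∏ w, ψ w (e.symm (x, z) w) = 0 := by
    intro z
    simp_rw [hfac]
    rw [integral_const_mul, hzero, mul_zero]
  rw [h1, h4]
  simp_rw [h5]
  exact integral_zero _ _

/-- E-7. The same under the vanishing of mixed differences. -/
theorem int_mixed (F : (B → ℝ) → ℝ) (hF : Measurable F) (M : ℝ) (hM : ∀ c, |F c| ≤ M)
    (ψ : B → ℝ → ℝ) (hψ : ∀ v, Continuous (ψ v)) (hψc : ∀ v, HasCompactSupport (ψ v))
    (lo hi : B → ℝ) (hsupp : ∀ v s, s < lo v ∨ hi v < s → ψ v s = 0) (c' : B → ℝ) (W : Finset B)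
    (hW : ∀ v ∈ W, ∫ s, ψ v s = 0)
    (hmix : ∀ c : B → ℝ, (∀ v, lo v ≤ c v ∧ c v ≤ hi v) →
      ∑ I ∈ W.powerset, (-1 : ℝ) ^ I.card * F (fun v => if v ∈ I then c' v else c v) = 0) :
    ∫ c : B → ℝ, F c * ∏ v, ψ v (c v) = 0 := by
  classical
  have hmeas : ∀ I : Finset B, Measurable fun c : B → ℝ => F (fun v => if v ∈ I then c' v else c v) := by
    intro I
    refine hF.comp (measurable_pi_lambda _ fun v => ?_)
    by_cases hv : v ∈ I
    · simp only [if_pos hv]
      exact measurable_const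
    · simp only [if_neg hv]
      exact measurable_pi_apply v
  have hint : ∀ I : Finset B, Integrable fun c : B → ℝ =>
      (-1 : ℝ) ^ I.card * (F (fun v => if v ∈ I then c' v else c v) * ∏ v, ψ v (c v)) :=
    fun I => (fub_integrable _ (hmeas I) M (fun c => hM _) ψ hψ hψc).const_mul _
  have hsum : ∀ c : B → ℝ, ∑ I ∈ W.powerset, (-1 : ℝ) ^ I.card *
      (F (fun v => if v ∈ I then c' v else c v) * ∏ v, ψ v (c v)) = 0 := by
    intro c
    by_cases hc : ∀ v, lo v ≤ c v ∧ c v ≤ hi v
    · have h1 := hmix c hc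
      have h2 : ∑ I ∈ W.powerset, (-1 : ℝ) ^ I.card *
          (F (fun v => if v ∈ I then c' v else c v) * ∏ v, ψ v (c v)) =
          (∑ I ∈ W.powerset, (-1 : ℝ) ^ I.card * F (fun v => if v ∈ I then c' v else c v)) *
            ∏ v, ψ v (c v) := by
        rw [Finset.sum_mul]
        exact Finset.sum_congr rfl fun I _ => by ring
      rw [h2, h1, zero_mul]
    · push Not at hc
      obtain ⟨v, hv⟩ := hc
      have h0 : ψ v (c v) = 0 := by
        apply hsupp
        rcases lt_or_ge (c v) (lo v) with h | h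
        · exact Or.inl h
        · exact Or.inr (hv h)
      have h1 : ∏ v, ψ v (c v) = 0 := Finset.prod_eq_zero (Finset.mem_univ v) h0
      simp [h1]
  have h0 : ∑ I ∈ W.powerset, ∫ c : B → ℝ, (-1 : ℝ) ^ I.card *
      (F (fun v => if v ∈ I then c' v else c v) * ∏ v, ψ v (c v)) = 0 := by
    rw [← integral_finsetSum _ fun I _ => hint I]
    simp_rw [hsum]
    exact integral_zero _ _
  rw [Finset.sum_eq_single ∅] at h0
  · simpa using h0
  · intro I hI hne
    obtain ⟨v, hv⟩ := Finset.nonempty_iff_ne_empty.2 hne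
    have hvW : v ∈ W := Finset.mem_powerset.1 hI hv
    rw [integral_const_mul, int_indep _ (hmeas I) M (fun c => hM _) ψ hψ hψc v (hW v hvW),
      mul_zero]
    intro c s
    congr 1
    funext w
    by_cases hw : w ∈ I
    · rw [if_pos hw, if_pos hw]
    · rw [if_neg hw, if_neg hw, Function.update_of_ne (fun h : w = v => hw (by rw [h]; exact hv))]
  · intro h
    exact absurd (Finset.empty_mem_powerset W) h

end MPb07157.EE
end
end

section

/-!
# Theorem E: measurability
-/

noncomputable section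

namespace MPb07157.EE

open MeasureTheory Finset

variable {B ι : Type} [Fintype B] [Fintype ι] [DecidableEq ι]

/-- E-4a. -/
theorem isClosed_isIn (u : B → ι → ℝ) (p : ι → ι) (t : ℝ) (S : Finset ι) :
    IsClosed {x : (ι → ℝ) × (B → ℝ) | IsIn u p t S x.2 x.1} := by
  let C : Set (Set.Icc (0 : ι → ℝ) 1 × ((ι → ℝ) × (B → ℝ))) :=
    {z | ∀ v, z.2.2 v ≤ lin u v (pt p t S z.2.1 z.1)}
  have hC : IsClosed C := by
    have h1 : C = ⋂ v, {z | z.2.2 v ≤ lin u v (pt p t S z.2.1 z.1)} := by
      ext z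
      simp only [C, Set.mem_ofPred_eq, Set.mem_iInter]
    rw [h1]
    refine isClosed_iInter fun v => isClosed_le ?_ ?_
    · exact (continuous_apply v).comp (continuous_snd.comp continuous_snd)
    · have hr : ∀ e : ι, Continuous fun z : Set.Icc (0 : ι → ℝ) 1 × ((ι → ℝ) × (B → ℝ)) =>
          (z.1 : ι → ℝ) e := fun e =>
        (continuous_apply e).comp (continuous_subtype_val.comp continuous_fst)
      have hy : ∀ e : ι, Continuous fun z : Set.Icc (0 : ι → ℝ) 1 × ((ι → ℝ) × (B → ℝ)) =>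
          z.2.1 e := fun e => (continuous_apply e).comp (continuous_fst.comp continuous_snd)
      unfold lin pt sh
      refine continuous_finsetSum _ fun j _ => continuous_const.mul ((hy j).sub
        (continuous_const.mul (continuous_finsetSum _ fun e _ => ?_)))
      refine Continuous.add ?_ ?_
      · by_cases h : e = j
        · simp only [if_pos h]
          exact hr e
        · simp only [if_neg h]
          exact continuous_const
      · by_cases h : p e = j
        · simp only [if_pos h]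
          exact continuous_const.sub (hr e)
        · simp only [if_neg h]
          exact continuous_const
  have h2 : {x : (ι → ℝ) × (B → ℝ) | IsIn u p t S x.2 x.1} = Prod.snd '' C := by
    ext x
    constructor
    · rintro ⟨r, hr, h⟩
      exact ⟨(⟨r, fun e => (hr e).1, fun e => (hr e).2⟩, x), h, rfl⟩
    · rintro ⟨⟨r, y⟩, h, rfl⟩
      exact ⟨r, fun e => ⟨r.2.1 e, r.2.2 e⟩, h⟩
  rw [h2]
  exact isClosedMap_snd_of_compactSpace C hC

/-- E-4b. -/
theorem measurable_th (u : B → ι → ℝ) (p : ι → ι) (t : ℝ) (E : Finset ι) :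
    Measurable (fun x : (ι → ℝ) × (B → ℝ) => th u p t E x.1 x.2) := by
  unfold th
  refine Finset.measurable_fun_sum _ fun S _ => measurable_const.mul ?_
  exact Measurable.ite (isClosed_isIn u p t S).measurableSet measurable_const measurable_const

/-- E-4c. -/
theorem measurable_th_right (u : B → ι → ℝ) (p : ι → ι) (t : ℝ) (E : Finset ι) (y : ι → ℝ) :
    Measurable (fun c : B → ℝ => th u p t E y c) :=
  (measurable_th u p t E).comp measurable_prodMk_left

/-- E-4d. -/
theorem abs_th_le (u : B → ι → ℝ) (p : ι → ι) (t : ℝ) (E : Finset ι) (y : ι → ℝ) (c : B → ℝ) :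
    |th u p t E y c| ≤ 2 ^ E.card := by
  classical
  unfold th
  refine (Finset.abs_sum_le_sum_abs _ _).trans ?_
  have h : ∀ S ∈ E.powerset, |(-1 : ℝ) ^ (E.card + S.card) *
      (if IsIn u p t S c y then 1 else 0)| ≤ 1 := by
    intro S _
    rw [abs_mul, abs_pow, abs_neg, abs_one, one_pow, one_mul]
    split_ifs <;> simp
  refine (Finset.sum_le_sum h).trans (le_of_eq ?_)
  rw [Finset.sum_const, Finset.card_powerset, nsmul_eq_mul, mul_one]
  push_cast
  rfl

end MPb07157.EE
end
end
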