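import Pool.Agent.Lib.MP_b07157_ag.E.Defs
import Pool.Agent.Lib.MP_b07157_ag.E.Meas
import Pool.Agent.Lib.MP_b07157_ag.E.Bump

section

/-!
# Theorem E: Euler characteristic of compact convex sets
-/

noncomputable section

namespace MPb07157.EE

open MeasureTheory Finset

/-- E-1. A linear relation between indicator functions of compact intervals implies that the sum
of the coefficients vanishes. -/
theorem eulerOne {τ : Type} (T : Finset τ) (p q : τ → ℝ) (hpq : ∀ i ∈ T, p i ≤ q i) (a : τ → ℝ)
    (h : ∀ s : ℝ, ∑ i ∈ T, (if p i ≤ s ∧ s ≤ q i then a i else 0) = 0) : ∑ i ∈ T, a i = 0 := by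
  classical
  have key : ∀ s : ℝ, ∑ i ∈ T, (if q i = s then a i else 0) = 0 := by
    intro s
    have h1 : ∀ᶠ y in nhdsWithin s (Set.Ioi s), ∀ i ∈ T, (s < p i → y < p i) ∧ (s < q i → y < q i) := by
      rw [Filter.eventually_all_finset]
      intro i _
      refine Filter.Eventually.and ?_ ?_
      · by_cases hp : s < p i
        · filter_upwards [mem_nhdsWithin_of_mem_nhds (Iio_mem_nhds hp)] with y hy _ using hy
        · exact Filter.Eventually.of_forall fun y hy => absurd hy hp
      · by_cases hp : s < q i
        · filter_upwards [mem_nhdsWithin_of_mem_nhds (Iio_mem_nhds hp)] with y hy _ using hy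
        · exact Filter.Eventually.of_forall fun y hy => absurd hy hp
    obtain ⟨y, hy, hsy⟩ := (h1.and self_mem_nhdsWithin).exists
    have hsy' : s < y := hsy
    have h2 : ∀ i ∈ T, (if q i = s then a i else 0) =
        (if p i ≤ s ∧ s ≤ q i then a i else 0) - (if p i ≤ y ∧ y ≤ q i then a i else 0) := by
      intro i hi
      obtain ⟨hy1, hy2⟩ := hy i hi
      have hpq' := hpq i hi
      have e1 : (p i ≤ y ∧ y ≤ q i) ↔ (p i ≤ s ∧ s < q i) := by
        constructor
        · rintro ⟨u, v⟩
          refine ⟨?_, lt_of_lt_of_le hsy' v⟩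
          by_contra hc
          exact absurd (hy1 (not_le.1 hc)) (not_lt.2 u)
        · rintro ⟨u, v⟩
          exact ⟨u.trans hsy'.le, (hy2 v).le⟩
      simp only [e1]
      by_cases hq : q i = s
      · have a1 : p i ≤ s ∧ s ≤ q i := ⟨by rw [← hq]; exact hpq', hq.ge⟩
        have a2 : ¬ (p i ≤ s ∧ s < q i) := fun hc => absurd hq hc.2.ne'
        rw [if_pos hq, if_pos a1, if_neg a2, sub_zero]
      · by_cases hc : p i ≤ s ∧ s ≤ q i
        · have a2 : p i ≤ s ∧ s < q i := ⟨hc.1, lt_of_le_of_ne hc.2 (Ne.symm hq)⟩
          rw [if_neg hq, if_pos hc, if_pos a2, sub_self]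
        · have a2 : ¬ (p i ≤ s ∧ s < q i) := fun h' => hc ⟨h'.1, h'.2.le⟩
          rw [if_neg hq, if_neg hc, if_neg a2, sub_self]
    rw [Finset.sum_congr rfl h2, Finset.sum_sub_distrib, h s, h y, sub_zero]
  calc ∑ i ∈ T, a i = ∑ i ∈ T, ∑ s ∈ T.image q, (if q i = s then a i else 0) := by
        refine Finset.sum_congr rfl fun i hi => ?_
        rw [Finset.sum_ite_eq, if_pos (Finset.mem_image_of_mem q hi)]
    _ = ∑ s ∈ T.image q, ∑ i ∈ T, (if q i = s then a i else 0) := Finset.sum_comm
    _ = 0 := Finset.sum_eq_zero fun s _ => key s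

end MPb07157.EE
end
end

section

/-!
# Theorem E: cancellation at infinity
-/

noncomputable section

namespace MPb07157.EE

open MeasureTheory Finset

variable {B ι : Type} [Fintype ι] [DecidableEq ι]

/-- E-9. The finite differences vanish where the constraints involving the coordinate `j`, an end
point of an edge `e`, are far from being tight. -/
theorem th_eq_zero_of_large (u : B → ι → ℝ) (hu : ∀ v j, 0 ≤ u v j) (p : ι → ι) (t : ℝ)
    (ht : 0 ≤ t) (E : Finset ι) (y : ι → ℝ) (c : B → ℝ) (e : ι) (he : e ∈ E) (j : ι)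
    (hj : j = e ∨ j = p e) (hpe : p e ≠ e)
    (hbig : ∀ S ⊆ E, ∀ r, Cube r → (∀ v, c v ≤ lin u v (pt p t S y r)) →
      ∀ v, 0 < u v j → c v + t * u v j ≤ lin u v (pt p t S y r)) : th u p t E y c = 0 := by
  classical
  have hu' : ∀ v j, 0 ≤ u v j := hu
  -- the two indicator functions agree
  have key : ∀ S ⊆ E.erase e, (IsIn u p t S c y ↔ IsIn u p t (insert e S) c y) := by
    intro S hS
    have heS : e ∉ S := fun h => by
      have := hS h
      simp at this
    have hSE : S ⊆ E := hS.trans (Finset.erase_subset _ _)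
    have hins : ∀ (r : ι → ℝ) (i : ι), sh p t (insert e S) r i =
        t * ((if e = i then r e else 0) + (if p e = i then 1 - r e else 0)) + sh p t S r i := by
      intro r i
      unfold sh
      rw [Finset.sum_insert heS, mul_add]
    constructor
    · rintro ⟨r, hr, hrv⟩
      set r' : ι → ℝ := Function.update r e (if j = e then 1 else 0) with hr'
      have hr'e : r' e = if j = e then 1 else 0 := by rw [hr', Function.update_self]
      have hsh : ∀ i, sh p t S r' i = sh p t S r i := by
        intro i
        unfold sh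
        congr 1
        refine Finset.sum_congr rfl fun e' he' => ?_
        have hne : e' ≠ e := fun h => heS (h ▸ he')
        have : r' e' = r e' := by rw [hr', Function.update_of_ne hne]
        rw [this]
      have hext : ∀ i, ((if e = i then r' e else 0) + (if p e = i then 1 - r' e else 0) : ℝ) =
          if j = i then 1 else 0 := by
        intro i
        rw [hr'e]
        rcases hj with h | h
        · subst h
          by_cases h1 : j = i
          · subst h1
            simp
          · simp [h1]
        · have hje : j ≠ e := fun h1 => hpe (by rw [← h, h1])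
          rw [if_neg hje, ← h]
          by_cases h1 : j = i
          · subst h1
            simp
          · simp [h1]
      refine ⟨r', fun e' => ?_, fun v => ?_⟩
      · by_cases h1 : e' = e
        · subst h1
          rw [hr'e]
          split_ifs <;> norm_num
        · have : r' e' = r e' := by rw [hr', Function.update_of_ne h1]
          rw [this]
          exact hr e'
      · have h1 : lin u v (pt p t (insert e S) y r') = lin u v (pt p t S y r) - t * u v j := by
          unfold lin pt
          have h2 : ∀ i, u v i * (y i - sh p t (insert e S) r' i) =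
              u v i * (y i - sh p t S r i) - (if j = i then t * u v i else 0) := by
            intro i
            rw [hins, hext, hsh]
            split_ifs <;> ring
          simp_rw [h2]
          rw [Finset.sum_sub_distrib, Finset.sum_ite_eq]
          simp
        rw [h1]
        rcases (hu v j).eq_or_lt with h2 | h2
        · rw [← h2, mul_zero, sub_zero]
          exact hrv v
        · have h3 := hbig S hSE r hr hrv v h2
          linarith
    · rintro ⟨r, hr, hrv⟩
      refine ⟨r, hr, fun v => (hrv v).trans ?_⟩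
      unfold lin pt
      refine Finset.sum_le_sum fun i _ => mul_le_mul_of_nonneg_left ?_ (hu v i)
      have h1 : 0 ≤ (if e = i then r e else 0) + (if p e = i then 1 - r e else 0) := by
        have := hr e
        split_ifs <;> linarith [this.1, this.2]
      rw [hins]
      have h2 := mul_nonneg ht h1
      linarith
  have hE : E = insert e (E.erase e) := (Finset.insert_erase he).symm
  unfold th
  conv_lhs => rw [hE]
  rw [Finset.sum_powerset_insert (Finset.notMem_erase e E), ← Finset.sum_add_distrib]
  refine Finset.sum_eq_zero fun S hS => ?_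
  rw [Finset.mem_powerset] at hS
  have heS : e ∉ S := fun h => by
    have := hS h
    simp at this
  rw [Finset.card_insert_of_notMem heS]
  have h1 := key S hS
  by_cases h2 : IsIn u p t S c y
  · rw [if_pos h2, if_pos (h1.1 h2), ← add_assoc, pow_succ]
    ring
  · rw [if_neg h2, if_neg (fun h => h2 (h1.2 h))]
    ring

end MPb07157.EE
end
end

section

/-!
# Theorem E: Euler characteristic of compact convex sets, all dimensions
-/

noncomputable section

namespace MPb07157.EE

open MeasureTheory Finset

private theorem eul2_cons_mem_iff {m : ℕ} (K : Set (Fin (m + 1) → ℝ)) (s : ℝ) :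
    {x : Fin m → ℝ | (Fin.cons s x : Fin (m + 1) → ℝ) ∈ K}.Nonempty ↔
      s ∈ (fun y : Fin (m + 1) → ℝ => y 0) '' K := by
  constructor
  · rintro ⟨x, hx⟩
    exact ⟨_, hx, Fin.cons_zero _ _⟩
  · rintro ⟨y, hy, rfl⟩
    exact ⟨Fin.tail y, by simpa [Fin.cons_self_tail] using hy⟩

private theorem eul2_slice_convex {m : ℕ} {K : Set (Fin (m + 1) → ℝ)} (hK : Convex ℝ K) (s : ℝ) :
    Convex ℝ {x : Fin m → ℝ | (Fin.cons s x : Fin (m + 1) → ℝ) ∈ K} := by
  intro x hx y hy a b ha hb hab
  have h := hK hx hy ha hb hab
  show (Fin.cons s (a • x + b • y) : Fin (m + 1) → ℝ) ∈ K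
  have e : (Fin.cons s (a • x + b • y) : Fin (m + 1) → ℝ) =
      a • (Fin.cons s x : Fin (m + 1) → ℝ) + b • (Fin.cons s y : Fin (m + 1) → ℝ) := by
    funext i
    refine Fin.cases ?_ (fun j => ?_) i
    · simp only [Fin.cons_zero, Pi.add_apply, Pi.smul_apply, smul_eq_mul]
      rw [← add_mul, hab, one_mul]
    · simp only [Fin.cons_succ, Pi.add_apply, Pi.smul_apply, smul_eq_mul]
  rw [e]
  exact h

private theorem eul2_slice_compact {m : ℕ} {K : Set (Fin (m + 1) → ℝ)} (hK : IsCompact K) (s : ℝ) :
    IsCompact {x : Fin m → ℝ | (Fin.cons s x : Fin (m + 1) → ℝ) ∈ K} := by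
  have h1 : IsCompact (K ∩ {y : Fin (m + 1) → ℝ | y 0 = s}) :=
    hK.inter_right (isClosed_eq (continuous_apply 0) continuous_const)
  have h2 : {x : Fin m → ℝ | (Fin.cons s x : Fin (m + 1) → ℝ) ∈ K} =
      (fun y : Fin (m + 1) → ℝ => Fin.tail y) '' (K ∩ {y : Fin (m + 1) → ℝ | y 0 = s}) := by
    ext x
    constructor
    · intro hx
      exact ⟨Fin.cons s x, ⟨hx, Fin.cons_zero _ _⟩, Fin.tail_cons _ _⟩
    · rintro ⟨y, ⟨hy, hs⟩, rfl⟩
      have hs' : y 0 = s := hs
      show (Fin.cons s (Fin.tail y) : Fin (m + 1) → ℝ) ∈ K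
      rw [← hs', Fin.cons_self_tail]
      exact hy
  rw [h2]
  refine h1.image ?_
  exact continuous_pi fun i => continuous_apply (Fin.succ i)

open Classical in
/-- E-2. A linear relation between indicator functions of compact convex sets gives a relation
between the coefficients of the nonempty ones. -/
theorem eulerFin {m : ℕ} {τ : Type} (T : Finset τ) (K : τ → Set (Fin m → ℝ))
    (hK : ∀ i ∈ T, Convex ℝ (K i)) (hKc : ∀ i ∈ T, IsCompact (K i)) (a : τ → ℝ)
    (h : ∀ x, ∑ i ∈ T, (if x ∈ K i then a i else 0) = 0) :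
    ∑ i ∈ T, (if (K i).Nonempty then a i else 0) = 0 := by
  induction m with
  | zero =>
    refine Eq.trans ?_ (h default)
    refine Finset.sum_congr rfl fun i _ => ?_
    have e : (K i).Nonempty ↔ (default : Fin 0 → ℝ) ∈ K i := by
      constructor
      · rintro ⟨x, hx⟩
        rwa [Subsingleton.elim default x]
      · intro hx
        exact ⟨_, hx⟩
    simp only [e]
  | succ m ih =>
    have hs : ∀ s : ℝ, ∑ i ∈ T,
        (if ({x : Fin m → ℝ | (Fin.cons s x : Fin (m + 1) → ℝ) ∈ K i}).Nonempty then a i else 0) = 0 :=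
      fun s => ih (fun i => {x : Fin m → ℝ | (Fin.cons s x : Fin (m + 1) → ℝ) ∈ K i})
        (fun i hi => eul2_slice_convex (hK i hi) s) (fun i hi => eul2_slice_compact (hKc i hi) s)
        (fun x => h (Fin.cons s x))
    have hI : ∀ i ∈ T, (K i).Nonempty → (fun y : Fin (m + 1) → ℝ => y 0) '' K i =
        Set.Icc (sInf ((fun y : Fin (m + 1) → ℝ => y 0) '' K i))
          (sSup ((fun y : Fin (m + 1) → ℝ => y 0) '' K i)) := by
      intro i hi hn
      refine eq_Icc_of_connected_compact ?_ ((hKc i hi).image (continuous_apply 0))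
      exact ⟨hn.image _, ((hK i hi).isPreconnected).image _ (continuous_apply 0).continuousOn⟩
    have key := eulerOne (T.filter fun i => (K i).Nonempty)
      (fun i => sInf ((fun y : Fin (m + 1) → ℝ => y 0) '' K i))
      (fun i => sSup ((fun y : Fin (m + 1) → ℝ => y 0) '' K i)) ?_ a ?_
    · rw [← Finset.sum_filter]
      exact key
    · intro i hi
      obtain ⟨hi, hn⟩ := Finset.mem_filter.mp hi
      have h1 : ((fun y : Fin (m + 1) → ℝ => y 0) '' K i).Nonempty := hn.image _
      rw [hI i hi hn] at h1
      exact Set.nonempty_Icc.mp h1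
    · intro s
      rw [Finset.sum_filter]
      refine Eq.trans ?_ (hs s)
      refine Finset.sum_congr rfl fun i hi => ?_
      by_cases hn : (K i).Nonempty
      · rw [if_pos hn]
        have e1 := eul2_cons_mem_iff (K i) s
        rw [hI i hi hn, Set.mem_Icc] at e1
        by_cases h1 : sInf ((fun y : Fin (m + 1) → ℝ => y 0) '' K i) ≤ s ∧
            s ≤ sSup ((fun y : Fin (m + 1) → ℝ => y 0) '' K i)
        · rw [if_pos h1, if_pos (e1.mpr h1)]
        · rw [if_neg h1, if_neg fun h2 => h1 (e1.mp h2)]
      · rw [if_neg hn, if_neg]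
        rintro ⟨x, hx⟩
        exact hn ⟨_, hx⟩

open Classical in
/-- E-2'. The same for an arbitrary finite index type. -/
theorem eulerAll {ι : Type} [Fintype ι] {τ : Type} (T : Finset τ) (K : τ → Set (ι → ℝ))
    (hK : ∀ i ∈ T, Convex ℝ (K i)) (hKc : ∀ i ∈ T, IsCompact (K i)) (a : τ → ℝ)
    (h : ∀ x, ∑ i ∈ T, (if x ∈ K i then a i else 0) = 0) :
    ∑ i ∈ T, (if (K i).Nonempty then a i else 0) = 0 := by
  obtain ⟨m, ⟨e⟩⟩ := Finite.exists_equiv_fin ι
  have key := eulerFin T (fun i => {x : Fin m → ℝ | (fun j => x (e j)) ∈ K i}) ?_ ?_ a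
    (fun x => h fun j => x (e j))
  · refine Eq.trans ?_ key
    refine Finset.sum_congr rfl fun i _ => ?_
    have e1 : (K i).Nonempty ↔ ({x : Fin m → ℝ | (fun j => x (e j)) ∈ K i}).Nonempty := by
      constructor
      · rintro ⟨x, hx⟩
        refine ⟨fun j => x (e.symm j), ?_⟩
        show (fun j => x (e.symm (e j))) ∈ K i
        simpa using hx
      · rintro ⟨x, hx⟩
        exact ⟨_, hx⟩
    simp only [e1]
  · intro i hi x hx y hy α β hα hβ hαβ
    exact hK i hi hx hy hα hβ hαβ
  · intro i hi
    have e2 : {x : Fin m → ℝ | (fun j => x (e j)) ∈ K i} =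
        (fun (y : ι → ℝ) (j : Fin m) => y (e.symm j)) '' K i := by
      ext x
      constructor
      · intro hx
        refine ⟨_, hx, ?_⟩
        funext j
        simp
      · rintro ⟨y, hy, rfl⟩
        show (fun j => y (e.symm (e j))) ∈ K i
        simpa using hy
    rw [e2]
    exact (hKc i hi).image (by fun_prop)

end MPb07157.EE
end
end

section

/-!
# Theorem E: vanishing of mixed differences
-/

noncomputable section

set_option linter.unusedSectionVars false

namespace MPb07157.EE

open MeasureTheory Finset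

variable {B ι : Type} [Fintype B] [DecidableEq B] [Fintype ι] [DecidableEq ι]

private theorem mixed_sh_aff (p : ι → ι) (t : ℝ) (S : Finset ι) {a b : ℝ} (hab : a + b = 1)
    (r r' : ι → ℝ) (j : ι) : sh p t S (a • r + b • r') j = a * sh p t S r j + b * sh p t S r' j := by
  unfold sh
  have h : ∀ e, ((if e = j then (a • r + b • r') e else 0) +
      (if p e = j then 1 - (a • r + b • r') e else 0)) =
      a * ((if e = j then r e else 0) + (if p e = j then 1 - r e else 0)) +
      b * ((if e = j then r' e else 0) + (if p e = j then 1 - r' e else 0)) := by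
    intro e
    simp only [Pi.add_apply, Pi.smul_apply, smul_eq_mul]
    have h1 : (1 : ℝ) = a + b := hab.symm
    by_cases h2 : e = j
    · by_cases h3 : p e = j
      · simp only [if_pos h2, if_pos h3]
        linear_combination h1
      · simp only [if_pos h2, if_neg h3]
        ring
    · by_cases h3 : p e = j
      · simp only [if_neg h2, if_pos h3]
        linear_combination h1
      · simp only [if_neg h2, if_neg h3]
        ring
  simp only [h]
  rw [Finset.sum_add_distrib, ← Finset.mul_sum, ← Finset.mul_sum]
  ring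

private theorem mixed_lin_aff (u : B → ι → ℝ) (p : ι → ι) (t : ℝ) (S : Finset ι) (y : ι → ℝ)
    {a b : ℝ} (hab : a + b = 1) (r r' : ι → ℝ) (v : B) :
    lin u v (pt p t S y (a • r + b • r')) =
      a * lin u v (pt p t S y r) + b * lin u v (pt p t S y r') := by
  unfold lin pt
  rw [Finset.mul_sum, Finset.mul_sum, ← Finset.sum_add_distrib]
  refine Finset.sum_congr rfl fun j _ => ?_
  rw [mixed_sh_aff p t S hab]
  linear_combination (-(u v j * y j)) * hab

private theorem mixed_cont (u : B → ι → ℝ) (p : ι → ι) (t : ℝ) (S : Finset ι) (y : ι → ℝ) (v : B) :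
    Continuous fun r => lin u v (pt p t S y r) := by
  unfold lin pt sh
  refine continuous_finsetSum _ fun j _ => continuous_const.mul (continuous_const.sub
    (continuous_const.mul (continuous_finsetSum _ fun e _ => Continuous.add ?_ ?_)))
  · by_cases h : e = j
    · simp only [h, if_true]
      exact continuous_apply j
    · simp only [h, if_false]
      exact continuous_const
  · by_cases h : p e = j
    · simp only [h, if_true]
      exact continuous_const.sub (continuous_apply e)
    · simp only [h, if_false]
      exact continuous_const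

private theorem mixed_convex (u : B → ι → ℝ) (p : ι → ι) (t : ℝ) (S : Finset ι) (y : ι → ℝ)
    (c : B → ℝ) : Convex ℝ {r : ι → ℝ | Cube r ∧ ∀ v, c v ≤ lin u v (pt p t S y r)} := by
  rintro r ⟨hr1, hr2⟩ r' ⟨hr1', hr2'⟩ a b ha hb hab
  refine ⟨fun e => ⟨?_, ?_⟩, fun v => ?_⟩
  · simp only [Pi.add_apply, Pi.smul_apply, smul_eq_mul]
    exact add_nonneg (mul_nonneg ha (hr1 e).1) (mul_nonneg hb (hr1' e).1)
  · simp only [Pi.add_apply, Pi.smul_apply, smul_eq_mul]
    have h1 := mul_le_mul_of_nonneg_left (hr1 e).2 ha
    have h2 := mul_le_mul_of_nonneg_left (hr1' e).2 hb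
    linarith
  · rw [mixed_lin_aff u p t S y hab]
    have h1 := mul_le_mul_of_nonneg_left (hr2 v) ha
    have h2 := mul_le_mul_of_nonneg_left (hr2' v) hb
    have h3 : c v = a * c v + b * c v := by rw [← add_mul, hab, one_mul]
    linarith

private theorem mixed_compact (u : B → ι → ℝ) (p : ι → ι) (t : ℝ) (S : Finset ι) (y : ι → ℝ)
    (c : B → ℝ) : IsCompact {r : ι → ℝ | Cube r ∧ ∀ v, c v ≤ lin u v (pt p t S y r)} := by
  have h1 : IsCompact (Set.Icc (0 : ι → ℝ) 1) := isCompact_Icc
  refine h1.of_isClosed_subset ?_ ?_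
  · have e1 : {r : ι → ℝ | Cube r ∧ ∀ v, c v ≤ lin u v (pt p t S y r)} =
        (⋂ e, {r : ι → ℝ | 0 ≤ r e ∧ r e ≤ 1}) ∩ ⋂ v, {r | c v ≤ lin u v (pt p t S y r)} := by
      ext r
      simp only [Set.mem_ofPred_eq, Set.mem_inter_iff, Set.mem_iInter]
      rfl
    rw [e1]
    refine IsClosed.inter (isClosed_iInter fun e => ?_) (isClosed_iInter fun v => ?_)
    · exact (isClosed_le continuous_const (continuous_apply e)).inter
        (isClosed_le (continuous_apply e) continuous_const)
    · exact isClosed_le continuous_const (mixed_cont u p t S y v)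
  · rintro r ⟨hr, -⟩
    exact ⟨fun e => (hr e).1, fun e => (hr e).2⟩

open Classical in
/-- cancellation in pairs -/
private theorem mixed_pair (W : Finset B) {v₀ : B} (hv₀ : v₀ ∈ W) (Q : Finset B → Prop)
    (hQ : ∀ I, v₀ ∉ I → (Q (insert v₀ I) ↔ Q I)) :
    ∑ I ∈ W.powerset, (if Q I then (-1 : ℝ) ^ I.card else 0) = 0 := by
  rw [← Finset.insert_erase hv₀, Finset.sum_powerset_insert (Finset.notMem_erase v₀ W),
    ← Finset.sum_add_distrib]
  refine Finset.sum_eq_zero fun I hI => ?_
  have h1 : v₀ ∉ I := fun h => Finset.notMem_erase v₀ W (Finset.mem_powerset.1 hI h)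
  rw [Finset.card_insert_of_notMem h1, pow_succ]
  by_cases h2 : Q I
  · rw [if_pos h2, if_pos ((hQ I h1).2 h2)]
    ring
  · rw [if_neg h2, if_neg (fun h => h2 ((hQ I h1).1 h)), add_zero]

open Classical in
/-- E-3. Mixed differences in the variables `c v`, `v ∈ W`, of the indicator function of `IsIn`
vanish if not all `v ∈ W` can be tight. -/
theorem mixed (u : B → ι → ℝ) (p : ι → ι) (t : ℝ) (S : Finset ι) (y : ι → ℝ) (W : Finset B)
    (lo hi c c' : B → ℝ) (hc : ∀ v, lo v ≤ c v ∧ c v ≤ hi v) (hc' : ∀ v, lo v ≤ c' v ∧ c' v ≤ hi v)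
    (hem : ∀ r, Cube r → (∀ v, lo v ≤ lin u v (pt p t S y r)) →
      ∃ v ∈ W, hi v < lin u v (pt p t S y r)) :
    ∑ I ∈ W.powerset, (-1 : ℝ) ^ I.card *
      (if IsIn u p t S (fun v => if v ∈ I then c' v else c v) y then 1 else 0) = 0 := by
  set K : Finset B → Set (ι → ℝ) := fun I =>
    {r : ι → ℝ | Cube r ∧ ∀ v, (if v ∈ I then c' v else c v) ≤ lin u v (pt p t S y r)} with hK
  have key := eulerAll W.powerset K (fun I _ => mixed_convex u p t S y _)
    (fun I _ => mixed_compact u p t S y _) (fun I => (-1 : ℝ) ^ I.card) ?_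
  · refine (Finset.sum_congr rfl fun I _ => ?_).trans key
    have h1 : IsIn u p t S (fun v => if v ∈ I then c' v else c v) y ↔ (K I).Nonempty := Iff.rfl
    by_cases h2 : (K I).Nonempty
    · rw [if_pos (h1.2 h2), if_pos h2, mul_one]
    · rw [if_neg (fun h => h2 (h1.1 h)), if_neg h2, mul_zero]
  · intro r
    have hmem : ∀ I, r ∈ K I ↔
        Cube r ∧ ∀ v, (if v ∈ I then c' v else c v) ≤ lin u v (pt p t S y r) := fun I => Iff.rfl
    by_cases hr : Cube r
    · by_cases hA : ∃ v₀ ∈ W, (c v₀ ≤ lin u v₀ (pt p t S y r) ↔ c' v₀ ≤ lin u v₀ (pt p t S y r))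
      · obtain ⟨v₀, hv₀, hiff⟩ := hA
        refine mixed_pair W hv₀ (fun I => r ∈ K I) fun I hI => ?_
        rw [hmem, hmem]
        refine and_congr_right fun _ => ⟨fun h v => ?_, fun h v => ?_⟩
        · by_cases hv : v = v₀
          · subst hv
            have h1 := h v
            rw [if_pos (Finset.mem_insert_self v I)] at h1
            rw [if_neg hI]
            exact hiff.2 h1
          · have h1 := h v
            by_cases hvI : v ∈ I
            · rw [if_pos (Finset.mem_insert_of_mem hvI)] at h1
              rw [if_pos hvI]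
              exact h1
            · rw [if_neg (fun h => by
                rcases Finset.mem_insert.1 h with h | h
                · exact hv h
                · exact hvI h)] at h1
              rw [if_neg hvI]
              exact h1
        · by_cases hv : v = v₀
          · subst hv
            have h1 := h v
            rw [if_neg hI] at h1
            rw [if_pos (Finset.mem_insert_self v I)]
            exact hiff.1 h1
          · have h1 := h v
            by_cases hvI : v ∈ I
            · rw [if_pos hvI] at h1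
              rw [if_pos (Finset.mem_insert_of_mem hvI)]
              exact h1
            · rw [if_neg hvI] at h1
              rw [if_neg (fun h => by
                rcases Finset.mem_insert.1 h with h | h
                · exact hv h
                · exact hvI h)]
              exact h1
      · push Not at hA
        refine Finset.sum_eq_zero fun I hI => ?_
        rw [Finset.mem_powerset] at hI
        rw [if_neg]
        intro hrK
        rw [hmem] at hrK
        -- all `v ∈ W` are tight
        have h1 : ∀ v ∈ W, (c v ≤ lin u v (pt p t S y r) ∧ lin u v (pt p t S y r) < c' v) ∨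
            (lin u v (pt p t S y r) < c v ∧ c' v ≤ lin u v (pt p t S y r)) := by
          intro v hv
          rcases le_or_gt (c v) (lin u v (pt p t S y r)) with h | h
          · left
            refine ⟨h, lt_of_not_ge fun h' => ?_⟩
            rcases hA v hv with h2 | h2
            · exact absurd h' (not_le.2 h2.2)
            · exact absurd h (not_le.2 h2.1)
          · right
            refine ⟨h, le_of_not_gt fun h' => ?_⟩
            rcases hA v hv with h2 | h2
            · exact absurd h2.1 (not_le.2 h)
            · exact absurd h2.2 (not_le.2 h')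
        have h2 : ∀ v, lo v ≤ lin u v (pt p t S y r) := by
          intro v
          by_cases hv : v ∈ W
          · rcases h1 v hv with h | h
            · exact (hc v).1.trans h.1
            · exact (hc' v).1.trans h.2
          · have h3 := hrK.2 v
            rw [if_neg (fun h => hv (hI h))] at h3
            exact (hc v).1.trans h3
        obtain ⟨v, hv, hlt⟩ := hem r hr h2
        rcases h1 v hv with h | h
        · exact absurd (h.2.trans_le (hc' v).2) (not_lt.2 hlt.le)
        · exact absurd (h.1.trans_le (hc v).2) (not_lt.2 hlt.le)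
    · refine Finset.sum_eq_zero fun I _ => ?_
      rw [if_neg (fun h => hr ((hmem I).1 h).1)]

end MPb07157.EE
end
end

section

/-!
# Theorem E: pointwise vanishing
-/

noncomputable section

namespace MPb07157.EE

open MeasureTheory Finset

variable {B ι : Type} [Fintype B] [DecidableEq B] [Fintype ι] [DecidableEq ι]

/-- E-8. `Th` vanishes at `y` if the constraints in `W`, which are differentiated, cannot be
simultaneously tight. -/
theorem Th_eq_zero (u : B → ι → ℝ) (p : ι → ι) (t : ℝ) (E : Finset ι) {φ : B → ℝ → ℝ}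
    {lo m hi : B → ℝ} (hφ : ∀ v, IsBump (φ v) (lo v) (m v) (hi v)) (W : Finset B) (κ : B → ℕ)
    (hκ : ∀ v ∈ W, 1 ≤ κ v) (y : ι → ℝ)
    (hem : ∀ S ⊆ E, ∀ r, Cube r → (∀ v, lo v ≤ lin u v (pt p t S y r)) →
      ∃ v ∈ W, hi v < lin u v (pt p t S y r)) : Th u p t E φ κ y = 0 := by
  unfold Th
  apply int_mixed (fun c => th u p t E y c) (measurable_th_right u p t E y) (2 ^ E.card)
    (fun c => abs_th_le u p t E y c) (fun v => iteratedDeriv (κ v) (φ v))
    (fun v => (hφ v).continuous_iter _) (fun v => (hφ v).hasCompactSupport_iter _) lo hi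
    (fun v s hs => (hφ v).iter_eq_zero _ s hs) lo W
    (fun v hv => (hφ v).integral_iter _ (hκ v hv))
  intro c hc
  unfold th
  simp only [Finset.mul_sum]
  rw [Finset.sum_comm]
  apply Finset.sum_eq_zero
  intro S hS
  have h := mixed u p t S y W lo hi c lo hc
    (fun v => ⟨le_rfl, ((hφ v).lt1.trans (hφ v).lt2).le⟩) (hem S (Finset.mem_powerset.mp hS))
  rw [Finset.sum_congr rfl fun I _ => mul_left_comm _ _ _, ← Finset.mul_sum, h, mul_zero]

end MPb07157.EE
end
end

section

/-!
# Theorem E: bounded support
-/

noncomputable section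

namespace MPb07157.EE

open MeasureTheory Finset

variable {B ι : Type} [Fintype B] [DecidableEq B] [Fintype ι] [DecidableEq ι]

private theorem supp_sh {p : ι → ι} {t : ℝ} (ht : 0 ≤ t) {E S : Finset ι} (hS : S ⊆ E) {r : ι → ℝ}
    (hr : Cube r) (j : ι) : 0 ≤ sh p t S r j ∧ sh p t S r j ≤ 2 * t * E.card := by
  have h1 : ∀ e, 0 ≤ ((if e = j then r e else 0) + (if p e = j then 1 - r e else 0)) ∧
      ((if e = j then r e else 0) + (if p e = j then 1 - r e else 0)) ≤ 2 := by
    intro e
    have h2 := hr e
    split_ifs <;> constructor <;> linarith [h2.1, h2.2]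
  unfold sh
  constructor
  · exact mul_nonneg ht (Finset.sum_nonneg fun e _ => (h1 e).1)
  · have h3 : ∑ e ∈ S, ((if e = j then r e else 0) + (if p e = j then 1 - r e else 0)) ≤
        2 * E.card := by
      calc _ ≤ ∑ e ∈ S, (2 : ℝ) := Finset.sum_le_sum fun e _ => (h1 e).2
        _ = S.card * 2 := by rw [Finset.sum_const, nsmul_eq_mul]
        _ ≤ 2 * E.card := by
          have : (S.card : ℝ) ≤ E.card := by exact_mod_cast Finset.card_le_card hS
          linarith
    calc _ ≤ t * (2 * E.card) := mul_le_mul_of_nonneg_left h3 ht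
      _ = 2 * t * E.card := by ring

private theorem supp_co {u : B → ι → ℝ} {co : ι → B}
    (hco : ∀ j i, u (co j) i = if i = j then 1 else 0) (z : ι → ℝ) (j : ι) :
    lin u (co j) z = z j := by
  unfold lin
  simp [hco]

private theorem supp_low {u : B → ι → ℝ} (hu : ∀ v j, 0 ≤ u v j) {l : ι → ℝ} {z : ι → ℝ}
    (hz : ∀ i, l i ≤ z i) (v : B) (j : ι) :
    u v j * z j - ∑ i, u v i * |l i| ≤ lin u v z := by
  have h1 : ∀ i, (if i = j then u v j * z j else 0) - u v i * |l i| ≤ u v i * z i := by
    intro i
    have h2 : -|l i| ≤ z i := (neg_abs_le (l i)).trans (hz i)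
    have h3 := mul_le_mul_of_nonneg_left h2 (hu v i)
    have h4 : 0 ≤ u v i * |l i| := mul_nonneg (hu v i) (abs_nonneg _)
    split_ifs with h
    · subst h
      linarith
    · linarith
  have h2 := Finset.sum_le_sum (s := Finset.univ) fun i _ => h1 i
  rw [Finset.sum_sub_distrib, Finset.sum_ite_eq'] at h2
  simpa [lin] using h2

/-- E-10. `Th` has bounded support if every coordinate is covered by `σ` or is an end point of an
edge. -/
theorem Th_support (u : B → ι → ℝ) (hu : ∀ v j, u v j = 0 ∨ 1 ≤ u v j) (co : ι → B)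
    (hco : ∀ j i, u (co j) i = if i = j then 1 else 0) (p : ι → ι) (t : ℝ) (ht : 0 ≤ t)
    (E : Finset ι) (hp : ∀ e ∈ E, p e ≠ e) {φ : B → ℝ → ℝ} {lo m hi : B → ℝ}
    (hφ : ∀ v, IsBump (φ v) (lo v) (m v) (hi v)) (σ : Finset B)
    (hcov : ∀ j, (∃ v ∈ σ, 1 ≤ u v j) ∨ ∃ e ∈ E, j = e ∨ j = p e) :
    ∃ T : ℝ, ∀ κ : B → ℕ, (∀ v ∈ σ, 1 ≤ κ v) → ∀ y : ι → ℝ, (∃ j, T < |y j|) →
      Th u p t E φ κ y = 0 := by
  have hu0 : ∀ v j, 0 ≤ u v j := fun v j => by
    rcases hu v j with h | h
    · rw [h]
    · linarith
  have hA0 : ∀ v, 0 ≤ |hi v| + ∑ i, u v i * |lo (co i)| := fun v =>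
    add_nonneg (abs_nonneg _) (Finset.sum_nonneg fun i _ => mul_nonneg (hu0 v i) (abs_nonneg _))
  refine ⟨∑ j, |lo (co j)| + ∑ v, (|hi v| + ∑ i, u v i * |lo (co i)|) + 2 * t * E.card + t,
    fun κ hκ y hy => ?_⟩
  obtain ⟨j, hj⟩ := hy
  have hE0 : 0 ≤ 2 * t * E.card := by positivity
  have hs1 : |lo (co j)| ≤ ∑ j, |lo (co j)| :=
    Finset.single_le_sum (f := fun j => |lo (co j)|) (fun i _ => abs_nonneg _) (Finset.mem_univ j)
  have hs2 : ∀ v, |hi v| + ∑ i, u v i * |lo (co i)| ≤ ∑ v, (|hi v| + ∑ i, u v i * |lo (co i)|) :=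
    fun v => Finset.single_le_sum (f := fun v => |hi v| + ∑ i, u v i * |lo (co i)|)
      (fun w _ => hA0 w) (Finset.mem_univ v)
  have hs1' : 0 ≤ ∑ j, |lo (co j)| := Finset.sum_nonneg fun i _ => abs_nonneg _
  have hs2' : 0 ≤ ∑ v, (|hi v| + ∑ i, u v i * |lo (co i)|) := Finset.sum_nonneg fun v _ => hA0 v
  rcases lt_or_ge (y j) 0 with hneg | hpos
  · -- case (i)
    rw [abs_of_neg hneg] at hj
    apply Th_eq_zero u p t E hφ ∅ κ (fun v hv => absurd hv (Finset.notMem_empty v))
    intro S hS r hr hall
    exfalso
    have h1 := hall (co j)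
    rw [supp_co hco] at h1
    have h2 := (supp_sh (p := p) ht hS hr j).1
    have h3 : pt p t S y r j = y j - sh p t S r j := rfl
    have h4 := neg_abs_le (lo (co j))
    linarith
  · rw [abs_of_nonneg hpos] at hj
    rcases hcov j with ⟨v, hv, huv⟩ | ⟨e, he, hje⟩
    · -- case (ii)
      apply Th_eq_zero u p t E hφ σ κ hκ
      intro S hS r hr hall
      refine ⟨v, hv, ?_⟩
      have hz : ∀ i, lo (co i) ≤ pt p t S y r i := fun i => by
        have h1 := hall (co i)
        rwa [supp_co hco] at h1
      have h1 := supp_low hu0 (l := fun i => lo (co i)) hz v j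
      have h2 := (supp_sh (p := p) ht hS hr j).2
      have h3 : pt p t S y r j = y j - sh p t S r j := rfl
      have h4 := le_abs_self (hi v)
      have h5 := hs2 v
      have h6 := abs_nonneg (hi v)
      have h7 : 0 ≤ ∑ i, u v i * |lo (co i)| :=
        Finset.sum_nonneg fun i _ => mul_nonneg (hu0 v i) (abs_nonneg _)
      have h8 : 0 ≤ pt p t S y r j := by linarith
      have h9 : pt p t S y r j ≤ u v j * pt p t S y r j := by nlinarith
      linarith
    · -- case (iii)
      unfold Th
      have hzero : ∀ c : B → ℝ, th u p t E y c * ∏ v, iteratedDeriv (κ v) (φ v) (c v) = 0 := by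
        intro c
        by_cases hc : ∀ v, lo v ≤ c v ∧ c v ≤ hi v
        · have h0 : th u p t E y c = 0 := by
            apply th_eq_zero_of_large u hu0 p t ht E y c e he j hje (hp e he)
            intro S hS r hr hall v hv
            have huv : 1 ≤ u v j := by
              rcases hu v j with h | h
              · rw [h] at hv
                exact absurd hv (lt_irrefl _)
              · exact h
            have hz : ∀ i, lo (co i) ≤ pt p t S y r i := fun i => by
              have h1 := hall (co i)
              rw [supp_co hco] at h1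
              exact (hc (co i)).1.trans h1
            have h1 := supp_low hu0 (l := fun i => lo (co i)) hz v j
            have h2 := (supp_sh (p := p) ht hS hr j).2
            have h3 : pt p t S y r j = y j - sh p t S r j := rfl
            have h4 := le_abs_self (hi v)
            have h5 := hs2 v
            have h6 := abs_nonneg (hi v)
            have h7 : 0 ≤ ∑ i, u v i * |lo (co i)| :=
              Finset.sum_nonneg fun i _ => mul_nonneg (hu0 v i) (abs_nonneg _)
            have h8 : 0 ≤ pt p t S y r j - t := by linarith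
            have h9 : pt p t S y r j - t ≤ u v j * (pt p t S y r j - t) := by nlinarith
            have h10 := (hc v).2
            nlinarith
          rw [h0, zero_mul]
        · push Not at hc
          obtain ⟨v, hv⟩ := hc
          have h1 : iteratedDeriv (κ v) (φ v) (c v) = 0 := by
            apply (hφ v).iter_eq_zero
            rcases lt_or_ge (c v) (lo v) with h | h
            · exact Or.inl h
            · exact Or.inr (hv h)
          rw [Finset.prod_eq_zero (Finset.mem_univ v) h1, mul_zero]
      simp only [hzero]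
      exact integral_zero _ _

end MPb07157.EE
end
end
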