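import Pool.Agent.Lib.MP_b07157_ag.NewtInt11

/-!
# Theorem E: definitions

A functional on polynomials built from finite differences of Minkowski sums of a polyhedron
`{y | c v ≤ u v · y}` and edges `t [e_e, e_{p e}]`, `e ∈ E`.
-/

noncomputable section

namespace MPb07157.EE

open MeasureTheory Finset

/-- The value of the linear form `u v`. -/
def lin {B ι : Type} [Fintype ι] (u : B → ι → ℝ) (v : B) (y : ι → ℝ) : ℝ := ∑ j, u v j * y j

/-- Parameters in the unit cube. -/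
def Cube {ι : Type} (r : ι → ℝ) : Prop := ∀ e, 0 ≤ r e ∧ r e ≤ 1

/-- The displacement along the edges `e — p e`, `e ∈ S`, with parameters `r`. -/
def sh {ι : Type} [DecidableEq ι] (p : ι → ι) (t : ℝ) (S : Finset ι) (r : ι → ℝ) (j : ι) : ℝ :=
  t * ∑ e ∈ S, ((if e = j then r e else 0) + (if p e = j then 1 - r e else 0))

/-- The point `y` moved back along the edges in `S`. -/
def pt {ι : Type} [DecidableEq ι] (p : ι → ι) (t : ℝ) (S : Finset ι) (y r : ι → ℝ) : ι → ℝ :=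
  fun j => y j - sh p t S r j

/-- `y` lies in the Minkowski sum of the polyhedron `c v ≤ u v · y` and of the edges in `S`. -/
def IsIn {B ι : Type} [Fintype ι] [DecidableEq ι] (u : B → ι → ℝ) (p : ι → ι) (t : ℝ)
    (S : Finset ι) (c : B → ℝ) (y : ι → ℝ) : Prop :=
  ∃ r : ι → ℝ, Cube r ∧ ∀ v, c v ≤ lin u v (pt p t S y r)

open Classical in
/-- The finite difference of the indicator functions. -/
def th {B ι : Type} [Fintype ι] [DecidableEq ι] (u : B → ι → ℝ) (p : ι → ι) (t : ℝ)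
    (E : Finset ι) (y : ι → ℝ) (c : B → ℝ) : ℝ :=
  ∑ S ∈ E.powerset, (-1 : ℝ) ^ (E.card + S.card) * (if IsIn u p t S c y then 1 else 0)

/-- The integral over the parameters `c`. -/
def Th {B ι : Type} [Fintype B] [Fintype ι] [DecidableEq ι] (u : B → ι → ℝ) (p : ι → ι) (t : ℝ)
    (E : Finset ι) (φ : B → ℝ → ℝ) (κ : B → ℕ) (y : ι → ℝ) : ℝ :=
  ∫ c : B → ℝ, th u p t E y c * ∏ v, iteratedDeriv (κ v) (φ v) (c v)

/-- The total integral. -/
def JJ {B ι : Type} [Fintype B] [Fintype ι] [DecidableEq ι] (u : B → ι → ℝ) (p : ι → ι) (t : ℝ)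
    (E : Finset ι) (φ : B → ℝ → ℝ) (κ : B → ℕ) : ℝ :=
  ∫ y : ι → ℝ, Th u p t E φ κ y

/-- A smooth nonnegative bump supported in `[lo, hi]`, positive at the interior point `m`. -/
structure IsBump (φ : ℝ → ℝ) (lo m hi : ℝ) : Prop where
  smooth : ∀ i : ℕ, ContDiff ℝ i φ
  nonneg : ∀ s, 0 ≤ φ s
  lt1 : lo < m
  lt2 : m < hi
  pos : 0 < φ m
  supp : ∀ s, s < lo ∨ hi < s → φ s = 0

open Classical in
/-- The normalized bumps. -/
def nrm {B : Type} (ρ : Finset B) (φ : B → ℝ → ℝ) (v : B) : ℝ → ℝ :=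
  if v ∈ ρ then fun s => φ v s / ∫ x, φ v x else φ v

/-- The direction of the edge `e`. -/
def xi {ι : Type} [DecidableEq ι] (p : ι → ι) (e j : ι) : ℝ :=
  (if e = j then 1 else 0) - (if p e = j then 1 else 0)

open Classical in
/-- The alternating sum of integrals over Minkowski sums, for fixed parameters `c`. -/
def Br {B ι : Type} [Fintype ι] [DecidableEq ι] (u : B → ι → ℝ) (p : ι → ι) (t : ℝ) (E : Finset ι)
    (φ : B → ℝ → ℝ) (ρ : Finset B) (c : B → ℝ) : ℝ :=
  ∑ S ∈ E.powerset, (-1 : ℝ) ^ (E.card + S.card) * ∫ y : ι → ℝ, (∏ v ∈ ρ, φ v (lin u v y)) *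
    (if ∃ r, Cube r ∧ ∀ v, v ∉ ρ → c v ≤ lin u v (fun j => y j - t * ∑ e ∈ S, r e * xi p e j)
      then 1 else 0)

end MPb07157.EE
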