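import Mathlib
import Pool.Agent.Lib.MP_b07157_ag.E.Defs
import Pool.Agent.Lib.MP_b07157_ag.E.Meas
import Pool.Agent.Lib.MP_b07157_ag.E.Bump

section

/-!
# Theorem E: the constraints in `ρ`
-/

noncomputable section

namespace MPb07157.EE

open MeasureTheory Finset

variable {B ι : Type} [Fintype ι] [DecidableEq ι]

private theorem lin_pt (u : B → ι → ℝ) (p : ι → ι) (t : ℝ) (S : Finset ι) (y r : ι → ℝ) (v : B) :
    lin u v (pt p t S y r) = lin u v y - t * ∑ e ∈ S, (u v e * r e + u v (p e) * (1 - r e)) := by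
  unfold lin pt sh
  have h1 : ∀ j, u v j * (y j - t * ∑ e ∈ S, ((if e = j then r e else 0) + (if p e = j then 1 - r e else 0))) =
      u v j * y j - t * ∑ e ∈ S, ((if e = j then u v j * r e else 0) +
        (if p e = j then u v j * (1 - r e) else 0)) := by
    intro j
    rw [mul_sub, ← mul_assoc, mul_comm (u v j) t, mul_assoc, Finset.mul_sum]
    congr 2
    refine Finset.sum_congr rfl fun e _ => ?_
    rw [mul_add, mul_ite, mul_ite, mul_zero]
  rw [Finset.sum_congr rfl fun j _ => h1 j, Finset.sum_sub_distrib, ← Finset.mul_sum, Finset.sum_comm]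
  congr 2
  refine Finset.sum_congr rfl fun e _ => ?_
  rw [Finset.sum_add_distrib]
  simp

/-- E-14. If the forms in `ρ` take the same value at both ends of each edge, the constraints in `ρ`
do not involve the parameters. -/
theorem isIn_iff (u : B → ι → ℝ) (p : ι → ι) (t : ℝ) (S : Finset ι) (c : B → ℝ) (y : ι → ℝ)
    (ρ : Finset B) (hρ : ∀ v ∈ ρ, ∀ e ∈ S, u v (p e) = u v e) :
    IsIn u p t S c y ↔ (∀ v ∈ ρ, c v ≤ lin u v y - t * ∑ e ∈ S, u v e) ∧
      ∃ r, Cube r ∧ ∀ v, v ∉ ρ → c v ≤ lin u v (pt p t S y r) := by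
  have key : ∀ r, ∀ v ∈ ρ, lin u v (pt p t S y r) = lin u v y - t * ∑ e ∈ S, u v e := by
    intro r v hv
    rw [lin_pt]
    congr 2
    refine Finset.sum_congr rfl fun e he => ?_
    rw [hρ v hv e he]; ring
  constructor
  · rintro ⟨r, hr, h⟩
    exact ⟨fun v hv => by rw [← key r v hv]; exact h v, r, hr, fun v _ => h v⟩
  · rintro ⟨h1, r, hr, h2⟩
    refine ⟨r, hr, fun v => ?_⟩
    by_cases hv : v ∈ ρ
    · rw [key r v hv]; exact h1 v hv
    · exact h2 v hv

/-- E-14'. The translation used in the positivity proof. -/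
theorem pt_shift (u : B → ι → ℝ) (p : ι → ι) (t : ℝ) (S : Finset ι) (y r : ι → ℝ) :
    pt p t S (fun j => y j + t * ∑ e ∈ S, (if p e = j then 1 else 0)) r =
      fun j => y j - t * ∑ e ∈ S, r e * xi p e j := by
  funext j
  unfold pt sh xi
  have h1 : ∀ a b c : ℝ, a + t * b - t * c = a - t * (c - b) := fun a b c => by ring
  show y j + t * _ - t * _ = _
  rw [h1, ← Finset.sum_sub_distrib]
  congr 2
  refine Finset.sum_congr rfl fun e _ => ?_
  split_ifs <;> ring

/-- E-14''. -/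
theorem lin_shift (u : B → ι → ℝ) (p : ι → ι) (t : ℝ) (S : Finset ι) (y : ι → ℝ) (v : B)
    (hv : ∀ e ∈ S, u v (p e) = u v e) :
    lin u v (fun j => y j + t * ∑ e ∈ S, (if p e = j then 1 else 0)) =
      lin u v y + t * ∑ e ∈ S, u v e := by
  unfold lin
  have h1 : ∀ j, u v j * (y j + t * ∑ e ∈ S, (if p e = j then (1 : ℝ) else 0)) =
      u v j * y j + t * ∑ e ∈ S, (if p e = j then u v j else 0) := by
    intro j
    rw [mul_add, ← mul_assoc, mul_comm (u v j) t, mul_assoc, Finset.mul_sum]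
    congr 2
    refine Finset.sum_congr rfl fun e _ => ?_
    rw [mul_ite, mul_zero, mul_one]
  rw [Finset.sum_congr rfl fun j _ => h1 j, Finset.sum_add_distrib, ← Finset.mul_sum, Finset.sum_comm]
  congr 2
  refine Finset.sum_congr rfl fun e he => ?_
  rw [← hv e he]
  simp

end MPb07157.EE
end
end

section

/-!
# Theorem E: derivatives of `Th`
-/

noncomputable section

namespace MPb07157.EE

open MeasureTheory Finset

variable {B ι : Type} [Fintype B] [DecidableEq B] [Fintype ι] [DecidableEq ι]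

/-- E-11a. -/
theorem th_shift (u : B → ι → ℝ) (p : ι → ι) (t : ℝ) (E : Finset ι) (x y : ι → ℝ) (c : B → ℝ) :
    th u p t E (fun j => y j + x j) c = th u p t E y (fun v => c v - lin u v x) := by
  unfold th
  refine Finset.sum_congr rfl fun S _ => ?_
  have h1 : IsIn u p t S c (fun j => y j + x j) ↔ IsIn u p t S (fun v => c v - lin u v x) y := by
    unfold IsIn
    refine exists_congr fun r => and_congr_right fun _ => forall_congr' fun v => ?_
    have h2 : lin u v (pt p t S (fun j => y j + x j) r) = lin u v (pt p t S y r) + lin u v x := by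
      unfold lin pt
      rw [← Finset.sum_add_distrib]
      refine Finset.sum_congr rfl fun j _ => ?_
      ring
    rw [h2]
    exact ⟨fun h => by linarith, fun h => by linarith⟩
  congr 1
  by_cases h : IsIn u p t S c (fun j => y j + x j)
  · rw [if_pos h, if_pos (h1.1 h)]
  · rw [if_neg h, if_neg (fun h' => h (h1.2 h'))]

/-- E-11b. -/
theorem Th_measurable (u : B → ι → ℝ) (p : ι → ι) (t : ℝ) (E : Finset ι) {φ : B → ℝ → ℝ}
    {lo m hi : B → ℝ} (hφ : ∀ v, IsBump (φ v) (lo v) (m v) (hi v)) (κ : B → ℕ) :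
    Measurable (Th u p t E φ κ) := by
  have h1 : Measurable (fun x : (ι → ℝ) × (B → ℝ) =>
      th u p t E x.1 x.2 * ∏ v, iteratedDeriv (κ v) (φ v) (x.2 v)) := by
    refine (measurable_th u p t E).mul ?_
    refine Finset.measurable_prod _ fun v _ => ?_
    exact ((hφ v).continuous_iter (κ v)).measurable.comp
      ((measurable_pi_apply v).comp measurable_snd)
  have h2 : StronglyMeasurable (Function.uncurry fun (y : ι → ℝ) (c : B → ℝ) =>
      th u p t E y c * ∏ v, iteratedDeriv (κ v) (φ v) (c v)) := h1.stronglyMeasurable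
  exact h2.integral_prod_right.measurable

/-- E-11c. -/
theorem Th_bound (u : B → ι → ℝ) (p : ι → ι) (t : ℝ) (E : Finset ι) {φ : B → ℝ → ℝ}
    {lo m hi : B → ℝ} (hφ : ∀ v, IsBump (φ v) (lo v) (m v) (hi v)) (κ : B → ℕ) :
    ∃ M : ℝ, ∀ y, |Th u p t E φ κ y| ≤ M := by
  have h0 : Integrable (fun c : B → ℝ => ∏ v, |iteratedDeriv (κ v) (φ v) (c v)|) := by
    refine Integrable.fintype_prod (f := fun v s => |iteratedDeriv (κ v) (φ v) s|) fun v => ?_
    exact (((hφ v).continuous_iter (κ v)).integrable_of_hasCompactSupport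
      ((hφ v).hasCompactSupport_iter (κ v))).abs
  refine ⟨∫ c : B → ℝ, 2 ^ E.card * ∏ v, |iteratedDeriv (κ v) (φ v) (c v)|, fun y => ?_⟩
  unfold Th
  rw [← Real.norm_eq_abs]
  refine norm_integral_le_of_norm_le (h0.const_mul _) (Filter.Eventually.of_forall fun c => ?_)
  rw [Real.norm_eq_abs, abs_mul, Finset.abs_prod]
  exact mul_le_mul_of_nonneg_right (abs_th_le u p t E y c)
    (Finset.prod_nonneg fun _ _ => abs_nonneg _)

end MPb07157.EE
end
end

section

/-!
# Theorem E: integration of the differentiated constraints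
-/

noncomputable section

namespace MPb07157.EE

open MeasureTheory Finset

variable {B : Type} [Fintype B] [DecidableEq B]

/-- Fubini for a function which does not depend on the coordinates with `p v`. -/
private theorem split_fub (p : B → Prop) [DecidablePred p] (F : (B → ℝ) → ℝ)
    (hFρ : ∀ c c' : B → ℝ, (∀ v, ¬ p v → c v = c' v) → F c = F c') (ψ : B → ℝ → ℝ) :
    ∫ c : B → ℝ, F c * ∏ v, ψ v (c v) = (∏ v : {v // p v}, ∫ s, ψ v s) *
      ∫ c' : {v // ¬ p v} → ℝ, F (fun v => if h : p v then 0 else c' ⟨v, h⟩) *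
        ∏ v : {v // ¬ p v}, ψ v (c' v) := by
  have h1 := (volume_preserving_piEquivPiSubtypeProd (fun _ : B => ℝ) p).integral_comp'
    (fun z => (∏ v : {v // p v}, ψ v (z.1 v)) *
      (F (fun v => if h : p v then 0 else z.2 ⟨v, h⟩) * ∏ v : {v // ¬ p v}, ψ v (z.2 v)))
  have h2 : ∀ c : B → ℝ, F c * ∏ v, ψ v (c v) =
      (∏ v : {v // p v}, ψ v (c v)) * (F (fun v => if h : p v then 0 else c v) *
        ∏ v : {v // ¬ p v}, ψ v (c v)) := by
    intro c
    have h3 : F c = F (fun v => if h : p v then 0 else c v) := by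
      apply hFρ
      intro v hv
      rw [dif_neg hv]
    rw [← Fintype.prod_subtype_mul_prod_subtype p (fun v => ψ v (c v)), ← h3]
    ring
  simp only [h2]
  refine Eq.trans h1 ?_
  rw [Measure.volume_eq_prod, integral_prod_mul (fun z1 : {v // p v} → ℝ => ∏ v : {v // p v}, ψ v (z1 v))
    (fun z2 : {v // ¬ p v} → ℝ => F (fun v => if h : p v then 0 else z2 ⟨v, h⟩) *
      ∏ v : {v // ¬ p v}, ψ v (z2 v)), integral_fintype_prod_volume_eq_prod]

open Classical in
/-- E-15. -/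
theorem int_split (ρ : Finset B) (a : B → ℝ) (F : (B → ℝ) → ℝ) (hF : Measurable F) (M : ℝ)
    (hM : ∀ c, |F c| ≤ M) (hFρ : ∀ c c' : B → ℝ, (∀ v, v ∉ ρ → c v = c' v) → F c = F c')
    {φ : B → ℝ → ℝ} {lo m hi : B → ℝ} (hφ : ∀ v, IsBump (φ v) (lo v) (m v) (hi v)) :
    ∫ c : B → ℝ, ((∏ v ∈ ρ, if c v ≤ a v then (1 : ℝ) else 0) * F c) *
        ∏ v, iteratedDeriv (if v ∈ ρ then 1 else 0) (φ v) (c v) =
      (∏ v ∈ ρ, φ v (a v)) * ∫ c : B → ℝ, F c * ∏ v, nrm ρ φ v (c v) := by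
  have e1 : ∀ c : B → ℝ, ((∏ v ∈ ρ, if c v ≤ a v then (1 : ℝ) else 0) * F c) *
        ∏ v, iteratedDeriv (if v ∈ ρ then 1 else 0) (φ v) (c v) =
      F c * ∏ v, ((if v ∈ ρ then (if c v ≤ a v then (1 : ℝ) else 0) else 1) *
        iteratedDeriv (if v ∈ ρ then 1 else 0) (φ v) (c v)) := by
    intro c
    rw [Finset.prod_mul_distrib, Finset.prod_ite_mem, Finset.univ_inter]
    ring
  simp only [e1]
  rw [split_fub (fun v => v ∈ ρ) F hFρ (fun v s => (if v ∈ ρ then (if s ≤ a v then (1 : ℝ) else 0) else 1) *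
    iteratedDeriv (if v ∈ ρ then 1 else 0) (φ v) s), split_fub (fun v => v ∈ ρ) F hFρ (nrm ρ φ)]
  have key : ∀ P1 P2 K1 K2 : ℝ, P1 = ∏ v ∈ ρ, φ v (a v) → P2 = 1 → K1 = K2 →
      P1 * K1 = (∏ v ∈ ρ, φ v (a v)) * (P2 * K2) := by
    intro P1 P2 K1 K2 h1 h2 h3
    rw [h1, h2, h3, one_mul]
  apply key
  · refine Eq.trans (Finset.prod_congr rfl fun v _ => ?_)
      (Finset.prod_subtype ρ (fun v => Iff.rfl) (fun v => φ v (a v))).symm
    simp only [v.2, if_true]
    exact (hφ v).integral_deriv_le (a v)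
  · apply Finset.prod_eq_one
    intro v _
    unfold nrm
    rw [if_pos v.2, integral_div]
    exact div_self (hφ v).integral_pos.ne'
  · congr 1
    funext c'
    congr 1
    refine Finset.prod_congr rfl fun v _ => ?_
    unfold nrm
    simp only [v.2, if_false, one_mul, iteratedDeriv_zero]

end MPb07157.EE
end
end

section

/-!
# Theorem E: derivatives of `Th`
-/

noncomputable section

namespace MPb07157.EE

open MeasureTheory Finset

variable {B ι : Type} [Fintype B] [DecidableEq B] [Fintype ι] [DecidableEq ι]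

/-- the translated integrand -/
private def gg (u : B → ι → ℝ) (p : ι → ι) (t : ℝ) (E : Finset ι) (φ : B → ℝ → ℝ) (x y : ι → ℝ)
    (κ : B → ℕ) (s : ℝ) (c : B → ℝ) : ℝ :=
  th u p t E y c * ∏ v, iteratedDeriv (κ v) (φ v) (c v + s * lin u v x)

private theorem gg_trans (u : B → ι → ℝ) (p : ι → ι) (t : ℝ) (E : Finset ι) (φ : B → ℝ → ℝ)
    (x y : ι → ℝ) (κ : B → ℕ) (s : ℝ) :
    Th u p t E φ κ (fun j => y j + s * x j) = ∫ c, gg u p t E φ x y κ s c := by
  unfold Th
  rw [← integral_add_right_eq_self (μ := (volume : Measure (B → ℝ)))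
    (fun c : B → ℝ => th u p t E (fun j => y j + s * x j) c * ∏ v, iteratedDeriv (κ v) (φ v) (c v))
    (fun v => s * lin u v x)]
  refine integral_congr_ae (Filter.Eventually.of_forall fun c => ?_)
  show th u p t E (fun j => y j + s * x j) (c + fun v => s * lin u v x) *
    ∏ v, iteratedDeriv (κ v) (φ v) ((c + fun v => s * lin u v x) v) = gg u p t E φ x y κ s c
  have h1 : th u p t E (fun j => y j + s * x j) (c + fun v => s * lin u v x) = th u p t E y c := by
    have h2 := th_shift u p t E (fun j => s * x j) y (c + fun v => s * lin u v x)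
    rw [h2]
    congr 1
    funext v
    simp only [Pi.add_apply, lin]
    rw [Finset.mul_sum]
    have h3 : ∑ j, u v j * (s * x j) = ∑ j, s * (u v j * x j) :=
      Finset.sum_congr rfl fun j _ => by ring
    rw [h3]
    ring
  rw [h1]
  rfl

private theorem gg_meas (u : B → ι → ℝ) (p : ι → ι) (t : ℝ) (E : Finset ι) {φ : B → ℝ → ℝ}
    {lo m hi : B → ℝ} (hφ : ∀ v, IsBump (φ v) (lo v) (m v) (hi v)) (x y : ι → ℝ) (κ : B → ℕ)
    (s : ℝ) : Measurable (gg u p t E φ x y κ s) := by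
  unfold gg
  refine (measurable_th_right u p t E y).mul ?_
  refine Continuous.measurable ?_
  refine continuous_finsetProd _ fun v _ => ?_
  exact ((hφ v).continuous_iter (κ v)).comp (by fun_prop)

private theorem gg_bound (u : B → ι → ℝ) (p : ι → ι) (t : ℝ) (E : Finset ι) {φ : B → ℝ → ℝ}
    {lo m hi : B → ℝ} (hφ : ∀ v, IsBump (φ v) (lo v) (m v) (hi v)) (x y : ι → ℝ) (R : ℝ)
    (κ : B → ℕ) : ∃ M : ℝ, 0 ≤ M ∧ ∀ s : ℝ, |s| ≤ R → ∀ c : B → ℝ, |gg u p t E φ x y κ s c| ≤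
      (Set.Icc (fun v => lo v - R * |lin u v x|) (fun v => hi v + R * |lin u v x|)).indicator
        (fun _ => M) c := by
  have hb : ∀ v, ∃ b : ℝ, 0 ≤ b ∧ ∀ a, |iteratedDeriv (κ v) (φ v) a| ≤ b := by
    intro v
    obtain ⟨b, hb⟩ := ((hφ v).hasCompactSupport_iter (κ v)).exists_bound_of_continuous
      ((hφ v).continuous_iter (κ v))
    exact ⟨b, (norm_nonneg _).trans (hb 0), hb⟩
  choose b hb0 hb using hb
  refine ⟨2 ^ E.card * ∏ v, b v, by
    have : 0 ≤ ∏ v, b v := Finset.prod_nonneg fun v _ => hb0 v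
    positivity, fun s hs c => ?_⟩
  by_cases hc : c ∈ Set.Icc (fun v => lo v - R * |lin u v x|) (fun v => hi v + R * |lin u v x|)
  · rw [Set.indicator_of_mem hc]
    unfold gg
    rw [abs_mul, Finset.abs_prod]
    exact mul_le_mul (abs_th_le u p t E y c) (Finset.prod_le_prod (fun v _ => abs_nonneg _)
      fun v _ => hb v _) (Finset.prod_nonneg fun v _ => abs_nonneg _) (by positivity)
  · rw [Set.indicator_of_notMem hc]
    have h1 : ∃ v, c v < lo v - R * |lin u v x| ∨ hi v + R * |lin u v x| < c v := by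
      by_contra hne
      push Not at hne
      exact hc ⟨fun v => (hne v).1, fun v => (hne v).2⟩
    obtain ⟨v, hv⟩ := h1
    have h2 : |s * lin u v x| ≤ R * |lin u v x| := by
      rw [abs_mul]
      exact mul_le_mul_of_nonneg_right hs (abs_nonneg _)
    have h3 := abs_le.1 h2
    have h4 : iteratedDeriv (κ v) (φ v) (c v + s * lin u v x) = 0 := by
      refine (hφ v).iter_eq_zero _ _ ?_
      rcases hv with hv | hv
      · left; linarith
      · right; linarith
    unfold gg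
    rw [Finset.prod_eq_zero (Finset.mem_univ v) h4, mul_zero, abs_zero]

private theorem gg_int (u : B → ι → ℝ) (p : ι → ι) (t : ℝ) (E : Finset ι) {φ : B → ℝ → ℝ}
    {lo m hi : B → ℝ} (hφ : ∀ v, IsBump (φ v) (lo v) (m v) (hi v)) (x y : ι → ℝ) (κ : B → ℕ)
    (s : ℝ) : Integrable (gg u p t E φ x y κ s) := by
  obtain ⟨M, -, hM⟩ := gg_bound u p t E hφ x y |s| κ
  refine Integrable.mono' (g := (Set.Icc (fun v => lo v - |s| * |lin u v x|)
    (fun v => hi v + |s| * |lin u v x|)).indicator (fun _ => M)) ?_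
    (gg_meas u p t E hφ x y κ s).aestronglyMeasurable
    (Filter.Eventually.of_forall fun c => hM s le_rfl c)
  refine (integrable_indicator_iff measurableSet_Icc).2 ?_
  exact integrableOn_const isCompact_Icc.measure_lt_top.ne

private theorem gg_der (u : B → ι → ℝ) (p : ι → ι) (t : ℝ) (E : Finset ι) {φ : B → ℝ → ℝ}
    {lo m hi : B → ℝ} (hφ : ∀ v, IsBump (φ v) (lo v) (m v) (hi v)) (x y : ι → ℝ) (κ : B → ℕ)
    (s : ℝ) (c : B → ℝ) : HasDerivAt (fun s => gg u p t E φ x y κ s c)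
      (∑ v, lin u v x * gg u p t E φ x y (κ + Pi.single v 1) s c) s := by
  have h1 : ∀ v ∈ (Finset.univ : Finset B),
      HasDerivAt (fun s => iteratedDeriv (κ v) (φ v) (c v + s * lin u v x))
        (iteratedDeriv (κ v + 1) (φ v) (c v + s * lin u v x) * lin u v x) s := by
    intro v _
    have h2 : HasDerivAt (fun s : ℝ => c v + s * lin u v x) (lin u v x) s := by
      simpa using ((hasDerivAt_id s).mul_const (lin u v x)).const_add (c v)
    exact ((hφ v).hasDerivAt_iter (κ v) (c v + s * lin u v x)).comp s h2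
  have h3 := (HasDerivAt.fun_finsetProd h1).const_mul (th u p t E y c)
  refine h3.congr_deriv ?_
  rw [Finset.mul_sum]
  refine Finset.sum_congr rfl fun v _ => ?_
  obtain ⟨κ', hκ'⟩ : ∃ κ' : B → ℕ, κ' = κ + Pi.single v 1 := ⟨_, rfl⟩
  rw [← hκ']
  unfold gg
  rw [← Finset.prod_erase_mul (Finset.univ : Finset B)
    (fun w => iteratedDeriv (κ' w) (φ w) (c w + s * lin u w x)) (Finset.mem_univ v)]
  have h4 : ∏ w ∈ Finset.univ.erase v, iteratedDeriv (κ' w) (φ w) (c w + s * lin u w x) =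
      ∏ w ∈ Finset.univ.erase v, iteratedDeriv (κ w) (φ w) (c w + s * lin u w x) := by
    refine Finset.prod_congr rfl fun w hw => ?_
    have hne : w ≠ v := (Finset.mem_erase.1 hw).1
    rw [hκ']
    simp [hne]
  have h5 : κ' v = κ v + 1 := by
    rw [hκ']
    simp
  rw [h4, h5, smul_eq_mul]
  ring

/-- E-12. The derivative of `Th` in the direction `x`. -/
theorem hasDerivAt_Th (u : B → ι → ℝ) (p : ι → ι) (t : ℝ) (E : Finset ι) {φ : B → ℝ → ℝ}
    {lo m hi : B → ℝ} (hφ : ∀ v, IsBump (φ v) (lo v) (m v) (hi v)) (κ : B → ℕ) (x y : ι → ℝ)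
    (s : ℝ) :
    HasDerivAt (fun s : ℝ => Th u p t E φ κ (fun j => y j + s * x j))
      (∑ v, lin u v x * Th u p t E φ (κ + Pi.single v 1) (fun j => y j + s * x j)) s := by
  have e1 : (fun s : ℝ => Th u p t E φ κ (fun j => y j + s * x j)) =
      fun s => ∫ c, gg u p t E φ x y κ s c := by
    funext s
    exact gg_trans u p t E φ x y κ s
  have e2 : ∑ v, lin u v x * Th u p t E φ (κ + Pi.single v 1) (fun j => y j + s * x j) =
      ∫ c, ∑ v, lin u v x * gg u p t E φ x y (κ + Pi.single v 1) s c := by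
    rw [integral_finsetSum _ fun v _ => (gg_int u p t E hφ x y _ s).const_mul _]
    refine Finset.sum_congr rfl fun v _ => ?_
    rw [integral_const_mul, gg_trans]
  rw [e1, e2]
  have hM : ∀ v, ∃ M : ℝ, 0 ≤ M ∧ ∀ s' : ℝ, |s'| ≤ |s| + 1 → ∀ c : B → ℝ,
      |gg u p t E φ x y (κ + Pi.single v 1) s' c| ≤
      (Set.Icc (fun v => lo v - (|s| + 1) * |lin u v x|)
        (fun v => hi v + (|s| + 1) * |lin u v x|)).indicator (fun _ => M) c :=
    fun v => gg_bound u p t E hφ x y (|s| + 1) (κ + Pi.single v 1)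
  choose M hM0 hM using hM
  have h1 : ∀ᶠ s' in nhds s, AEStronglyMeasurable (gg u p t E φ x y κ s') volume :=
    Filter.Eventually.of_forall fun s' => (gg_meas u p t E hφ x y κ s').aestronglyMeasurable
  have h2 := gg_int u p t E hφ x y κ s
  have h3 : AEStronglyMeasurable
      (fun c => ∑ v, lin u v x * gg u p t E φ x y (κ + Pi.single v 1) s c) volume := by
    refine Measurable.aestronglyMeasurable ?_
    exact Finset.measurable_fun_sum _ fun v _ => (gg_meas u p t E hφ x y _ s).const_mul _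
  set K : Set (B → ℝ) := Set.Icc (fun v => lo v - (|s| + 1) * |lin u v x|)
        (fun v => hi v + (|s| + 1) * |lin u v x|) with hK
  have h4 : ∀ᵐ c : B → ℝ, ∀ s' ∈ Metric.ball s 1,
      ‖∑ v, lin u v x * gg u p t E φ x y (κ + Pi.single v 1) s' c‖ ≤
        ∑ v, |lin u v x| * K.indicator (fun _ => M v) c := by
    refine Filter.Eventually.of_forall fun c s' hs' => ?_
    rw [Real.norm_eq_abs]
    refine (Finset.abs_sum_le_sum_abs _ _).trans (Finset.sum_le_sum fun v _ => ?_)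
    rw [abs_mul]
    refine mul_le_mul_of_nonneg_left (hM v s' ?_ c) (abs_nonneg _)
    rw [Metric.mem_ball, Real.dist_eq] at hs'
    have := abs_sub_abs_le_abs_sub s' s
    linarith
  have h5 : Integrable (fun c : B → ℝ => ∑ v, |lin u v x| * K.indicator (fun _ => M v) c) := by
    refine integrable_finsetSum _ fun v _ => Integrable.const_mul ?_ _
    refine (integrable_indicator_iff measurableSet_Icc).2 ?_
    exact integrableOn_const isCompact_Icc.measure_lt_top.ne
  have h6 : ∀ᵐ c : B → ℝ, ∀ s' ∈ Metric.ball s 1,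
      HasDerivAt (fun s => gg u p t E φ x y κ s c)
        (∑ v, lin u v x * gg u p t E φ x y (κ + Pi.single v 1) s' c) s' :=
    Filter.Eventually.of_forall fun c s' _ => gg_der u p t E hφ x y κ s' c
  clear hM hM0 e1 e2
  have h7 : ∃ f : ℝ → (B → ℝ) → ℝ, f = gg u p t E φ x y κ := ⟨_, rfl⟩
  obtain ⟨f, hf⟩ := h7
  have h8 : ∃ f' : ℝ → (B → ℝ) → ℝ, f' =
      fun s c => ∑ v, lin u v x * gg u p t E φ x y (κ + Pi.single v 1) s c := ⟨_, rfl⟩
  obtain ⟨f', hf'⟩ := h8
  have h9 : ∃ bd : (B → ℝ) → ℝ, bd =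
      fun c => ∑ v, |lin u v x| * K.indicator (fun _ => M v) c := ⟨_, rfl⟩
  obtain ⟨bd, hbd⟩ := h9
  have k1 : ∀ᶠ s' in nhds s, AEStronglyMeasurable (f s') volume := by rw [hf]; exact h1
  have k2 : Integrable (f s) := by rw [hf]; exact h2
  have k3 : AEStronglyMeasurable (f' s) volume := by rw [hf']; exact h3
  have k4 : ∀ᵐ c : B → ℝ, ∀ s' ∈ Metric.ball s 1, ‖f' s' c‖ ≤ bd c := by rw [hf', hbd]; exact h4
  have k5 : Integrable bd := by rw [hbd]; exact h5
  have k6 : ∀ᵐ c : B → ℝ, ∀ s' ∈ Metric.ball s 1, HasDerivAt (fun s => f s c) (f' s' c) s' := by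
    rw [hf, hf']; exact h6
  have k7 : HasDerivAt (fun s => ∫ c, f s c) (∫ c, f' s c) s := by
    clear hf hf' hbd h1 h2 h3 h4 h5 h6
    exact (hasDerivAt_integral_of_dominated_loc_of_deriv_le (Metric.ball_mem_nhds s one_pos)
      k1 k2 k3 k4 k5 k6).2
  rw [hf, hf'] at k7
  exact k7

end MPb07157.EE
end
end

section

/-!
# Theorem E: the value of `Th`
-/

noncomputable section

namespace MPb07157.EE

open MeasureTheory Finset

variable {B ι : Type} [Fintype B] [DecidableEq B] [Fintype ι] [DecidableEq ι]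

private theorem int_prod {φ : B → ℝ → ℝ} {lo m hi : B → ℝ} (hφ : ∀ v, IsBump (φ v) (lo v) (m v) (hi v))
    (κ : B → ℕ) : Integrable fun c : B → ℝ => ∏ v, iteratedDeriv (κ v) (φ v) (c v) := by
  refine Integrable.fintype_prod_dep (f := fun v => iteratedDeriv (κ v) (φ v)) fun v => ?_
  exact ((hφ v).continuous_iter (κ v)).integrable_of_hasCompactSupport ((hφ v).hasCompactSupport_iter (κ v))

private theorem closed_slice (u : B → ι → ℝ) (p : ι → ι) (t : ℝ) (S : Finset ι) (ρ : Finset B) (y : ι → ℝ) :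
    IsClosed {c : B → ℝ | ∃ r, Cube r ∧ ∀ v, v ∉ ρ → c v ≤ lin u v (pt p t S y r)} := by
  have h1 := isClosed_isIn (fun v => if v ∈ ρ then (0 : ι → ℝ) else u v) p t S
  have h2 : Continuous fun c : B → ℝ => ((y, fun v => if v ∈ ρ then (0 : ℝ) else c v) : (ι → ℝ) × (B → ℝ)) := by
    refine continuous_const.prodMk (continuous_pi fun v => ?_)
    by_cases hv : v ∈ ρ
    · simp only [hv, if_true]; exact continuous_const
    · simp only [hv, if_false]; exact continuous_apply v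
  have h3 := h1.preimage h2
  have h4 : ∀ z : ι → ℝ, ∀ v, v ∈ ρ → lin (fun v => if v ∈ ρ then (0 : ι → ℝ) else u v) v z = 0 := by
    intro z v hv
    unfold lin
    simp only [hv, if_true]
    simp
  have h5 : ∀ z : ι → ℝ, ∀ v, v ∉ ρ → lin (fun v => if v ∈ ρ then (0 : ι → ℝ) else u v) v z = lin u v z := by
    intro z v hv
    unfold lin
    simp only [hv, if_false]
  convert h3 using 1
  ext c
  constructor
  · rintro ⟨r, hr, h⟩
    refine ⟨r, hr, fun v => ?_⟩
    show (if v ∈ ρ then (0 : ℝ) else c v) ≤ _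
    by_cases hv : v ∈ ρ
    · rw [h4 _ v hv, if_pos hv]
    · rw [h5 _ v hv, if_neg hv]; exact h v hv
  · rintro ⟨r, hr, h⟩
    refine ⟨r, hr, fun v hv => ?_⟩
    have h6 : (if v ∈ ρ then (0 : ℝ) else c v) ≤ _ := h v
    rw [h5 _ v hv, if_neg hv] at h6
    exact h6

open Classical in
/-- E-19. The value of `Th` for the multi-index `1_ρ`. -/
theorem Th_one (u : B → ι → ℝ) (p : ι → ι) (t : ℝ) (E : Finset ι) {φ : B → ℝ → ℝ}
    {lo m hi : B → ℝ} (hφ : ∀ v, IsBump (φ v) (lo v) (m v) (hi v)) (ρ : Finset B)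
    (hρE : ∀ v ∈ ρ, ∀ e ∈ E, u v (p e) = u v e) (y : ι → ℝ) :
    Th u p t E φ (fun v => if v ∈ ρ then 1 else 0) y =
      ∑ S ∈ E.powerset, (-1 : ℝ) ^ (E.card + S.card) *
        ((∏ v ∈ ρ, φ v (lin u v y - t * ∑ e ∈ S, u v e)) *
          ∫ c : B → ℝ, (if ∃ r, Cube r ∧ ∀ v, v ∉ ρ → c v ≤ lin u v (pt p t S y r)
            then 1 else 0) * ∏ v, nrm ρ φ v (c v)) := by
  set κ : B → ℕ := fun v => if v ∈ ρ then 1 else 0 with hκ
  have hP := int_prod hφ κ
  have hmeas : ∀ S : Finset ι, MeasurableSet {c : B → ℝ | IsIn u p t S c y} := fun S => by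
    have h1 := (isClosed_isIn u p t S).preimage
      (show Continuous fun c : B → ℝ => ((y, c) : (ι → ℝ) × (B → ℝ)) from continuous_const.prodMk continuous_id)
    exact h1.measurableSet
  have hi : ∀ S : Finset ι, Integrable fun c : B → ℝ => (if IsIn u p t S c y then (1 : ℝ) else 0) *
      ∏ v, iteratedDeriv (κ v) (φ v) (c v) := fun S => by
    refine hP.bdd_mul (c := 1) (Measurable.ite (hmeas S) measurable_const measurable_const).aestronglyMeasurable
      (Filter.Eventually.of_forall fun c => ?_)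
    split_ifs <;> norm_num
  have e1 : Th u p t E φ κ y = ∑ S ∈ E.powerset, (-1 : ℝ) ^ (E.card + S.card) *
      ∫ c : B → ℝ, (if IsIn u p t S c y then (1 : ℝ) else 0) * ∏ v, iteratedDeriv (κ v) (φ v) (c v) := by
    unfold Th th
    simp only [Finset.sum_mul, mul_assoc]
    rw [integral_finsetSum _ fun S _ => (hi S).const_mul _]
    refine Finset.sum_congr rfl fun S _ => ?_
    rw [integral_const_mul]
  rw [e1]
  refine Finset.sum_congr rfl fun S hS => ?_
  have hSE : S ⊆ E := Finset.mem_powerset.1 hS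
  congr 1
  have hF : Measurable fun c : B → ℝ =>
      (if ∃ r, Cube r ∧ ∀ v, v ∉ ρ → c v ≤ lin u v (pt p t S y r) then (1 : ℝ) else 0) :=
    Measurable.ite (closed_slice u p t S ρ y).measurableSet measurable_const measurable_const
  have h2 := int_split ρ (fun v => lin u v y - t * ∑ e ∈ S, u v e) _ hF 1
    (fun c => by split_ifs <;> norm_num)
    (fun c c' hc => by
      have h3 : (∃ r, Cube r ∧ ∀ v, v ∉ ρ → c v ≤ lin u v (pt p t S y r)) ↔
          (∃ r, Cube r ∧ ∀ v, v ∉ ρ → c' v ≤ lin u v (pt p t S y r)) := by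
        constructor
        · rintro ⟨r, hr, h⟩
          exact ⟨r, hr, fun v hv => by rw [← hc v hv]; exact h v hv⟩
        · rintro ⟨r, hr, h⟩
          exact ⟨r, hr, fun v hv => by rw [hc v hv]; exact h v hv⟩
      simp only [h3]) hφ
  rw [← h2]
  refine integral_congr_ae (Filter.Eventually.of_forall fun c => ?_)
  show (if IsIn u p t S c y then (1 : ℝ) else 0) * _ = _
  have h3 := isIn_iff u p t S c y ρ fun v hv e he => hρE v hv e (hSE he)
  have h4 : (∏ v ∈ ρ, if c v ≤ lin u v y - t * ∑ e ∈ S, u v e then (1 : ℝ) else 0) =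
      if ∀ v ∈ ρ, c v ≤ lin u v y - t * ∑ e ∈ S, u v e then 1 else 0 := by
    by_cases h : ∀ v ∈ ρ, c v ≤ lin u v y - t * ∑ e ∈ S, u v e
    · rw [if_pos h]
      exact Finset.prod_eq_one fun v hv => if_pos (h v hv)
    · rw [if_neg h]
      push Not at h
      obtain ⟨v, hv, h5⟩ := h
      exact Finset.prod_eq_zero hv (if_neg (not_le.2 h5))
  beta_reduce
  rw [h4]
  congr 1
  by_cases ha : ∀ v ∈ ρ, c v ≤ lin u v y - t * ∑ e ∈ S, u v e
  · rw [if_pos ha, one_mul]
    by_cases hb : ∃ r, Cube r ∧ ∀ v, v ∉ ρ → c v ≤ lin u v (pt p t S y r)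
    · rw [if_pos hb, if_pos (h3.2 ⟨ha, hb⟩)]
    · rw [if_neg hb, if_neg fun h => hb (h3.1 h).2]
  · rw [if_neg ha, zero_mul, if_neg fun h => ha (h3.1 h).1]

end MPb07157.EE
end
end

section

/-!
# Theorem E: the value of the functional
-/

noncomputable section

namespace MPb07157.EE

open MeasureTheory Finset

variable {B ι : Type} [Fintype B] [DecidableEq B] [Fintype ι] [DecidableEq ι]

private theorem jbr_closed (u : B → ι → ℝ) (p : ι → ι) (t : ℝ) (S : Finset ι) (ρ : Finset B) :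
    IsClosed {x : (ι → ℝ) × (B → ℝ) | ∃ r, Cube r ∧ ∀ v, v ∉ ρ → x.2 v ≤ lin u v (pt p t S x.1 r)} := by
  have h1 := isClosed_isIn (B := {v // v ∉ ρ}) (fun v => u v) p t S
  have h2 : Continuous fun x : (ι → ℝ) × (B → ℝ) => (x.1, fun v : {v // v ∉ ρ} => x.2 v) := by fun_prop
  have h3 := h1.preimage h2
  have e : (fun x : (ι → ℝ) × (B → ℝ) => (x.1, fun v : {v // v ∉ ρ} => x.2 v)) ⁻¹'
      {x : (ι → ℝ) × ({v // v ∉ ρ} → ℝ) | IsIn (fun v : {v // v ∉ ρ} => u v) p t S x.2 x.1} =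
      {x : (ι → ℝ) × (B → ℝ) | ∃ r, Cube r ∧ ∀ v, v ∉ ρ → x.2 v ≤ lin u v (pt p t S x.1 r)} := by
    ext x
    constructor
    · rintro ⟨r, hr, h⟩
      exact ⟨r, hr, fun v hv => h ⟨v, hv⟩⟩
    · rintro ⟨r, hr, h⟩
      exact ⟨r, hr, fun v => h v v.2⟩
  rw [← e]
  exact h3

private theorem jbr_cont {φ : ℝ → ℝ} {lo m hi : ℝ} (h : IsBump φ lo m hi) : Continuous φ :=
  (h.smooth 0).continuous

private theorem jbr_bdd {φ : ℝ → ℝ} {lo m hi : ℝ} (h : IsBump φ lo m hi) : ∃ M, ∀ s, |φ s| ≤ M := by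
  have hc : HasCompactSupport φ := HasCompactSupport.intro (isCompact_Icc (a := lo) (b := hi)) fun s hs => by
    refine h.supp s ?_
    by_contra h'
    rw [not_or, not_lt, not_lt] at h'
    exact hs ⟨h'.1, h'.2⟩
  obtain ⟨M, hM⟩ := (jbr_cont h).bounded_above_of_compact_support hc
  exact ⟨M, hM⟩

private theorem jbr_nrm {φ : B → ℝ → ℝ} {lo m hi : B → ℝ}
    (hφ : ∀ v, IsBump (φ v) (lo v) (m v) (hi v)) (ρ : Finset B) (v : B) :
    Continuous (nrm ρ φ v) ∧ (∃ M, ∀ s, |nrm ρ φ v s| ≤ M) ∧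
      ∀ s, nrm ρ φ v s ≠ 0 → lo v ≤ s ∧ s ≤ hi v := by
  have hs : ∀ s, φ v s ≠ 0 → lo v ≤ s ∧ s ≤ hi v := fun s hs => by
    constructor
    · by_contra h
      exact hs ((hφ v).supp s (Or.inl (not_le.1 h)))
    · by_contra h
      exact hs ((hφ v).supp s (Or.inr (not_le.1 h)))
  obtain ⟨M, hM⟩ := jbr_bdd (hφ v)
  by_cases hv : v ∈ ρ
  · have e : nrm ρ φ v = fun s => φ v s / ∫ x, φ v x := by
      unfold nrm
      rw [if_pos hv]
    rw [e]
    refine ⟨(jbr_cont (hφ v)).div_const _, ⟨M / |∫ x, φ v x|, fun s => ?_⟩, fun s h => ?_⟩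
    · rw [abs_div]
      exact div_le_div_of_nonneg_right (hM s) (abs_nonneg _)
    · refine hs s fun h' => h ?_
      show φ v s / _ = 0
      rw [h', zero_div]
  · have e : nrm ρ φ v = φ v := by
      unfold nrm
      rw [if_neg hv]
    rw [e]
    exact ⟨jbr_cont (hφ v), ⟨M, hM⟩, hs⟩

private theorem jbr_prod {κ : Type} (s : Finset κ) {f : κ → ℝ} {M : κ → ℝ} (h : ∀ i, |f i| ≤ M i) :
    |∏ i ∈ s, f i| ≤ ∏ i ∈ s, M i := by
  rw [Finset.abs_prod]
  exact Finset.prod_le_prod (fun i _ => abs_nonneg _) fun i _ => h i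

/-- the point moved back is below `y` -/
private theorem jbr_pt (p : ι → ι) {t : ℝ} (ht : 0 ≤ t) (S : Finset ι) (y : ι → ℝ) {r : ι → ℝ}
    (hr : Cube r) (j : ι) : pt p t S y r j ≤ y j := by
  unfold pt sh
  have h : 0 ≤ t * ∑ e ∈ S, ((if e = j then r e else 0) + (if p e = j then 1 - r e else 0)) := by
    refine mul_nonneg ht (Finset.sum_nonneg fun e _ => add_nonneg ?_ ?_)
    · split_ifs
      · exact (hr e).1
      · exact le_rfl
    · split_ifs
      · exact sub_nonneg.2 (hr e).2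
      · exact le_rfl
  linarith

/-- the bound of the support -/
private theorem jbr_supp (u : B → ι → ℝ) (hu : ∀ v j, u v j = 0 ∨ 1 ≤ u v j) (co : ι → B)
    (hco : ∀ j i, u (co j) i = if i = j then 1 else 0) (p : ι → ι) (t : ℝ) (ht : 0 ≤ t)
    (S : Finset ι) {φ : B → ℝ → ℝ} {lo m hi : B → ℝ}
    (hφ : ∀ v, IsBump (φ v) (lo v) (m v) (hi v)) (ρ : Finset B) (hcoρ : ∀ j, co j ∉ ρ)
    (hρpos : ∀ j, ∃ v ∈ ρ, 1 ≤ u v j) :
    ∃ R : ℝ, 0 ≤ R ∧ ∀ (y : ι → ℝ) (c : B → ℝ), (∏ v ∈ ρ, φ v (lin u v y - t * ∑ e ∈ S, u v e)) ≠ 0 →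
      (∃ r, Cube r ∧ ∀ v, v ∉ ρ → c v ≤ lin u v (pt p t S y r)) → (∏ v, nrm ρ φ v (c v)) ≠ 0 →
      ‖y‖ ≤ R ∧ ‖c‖ ≤ R := by
  have hu0 : ∀ v j, 0 ≤ u v j := fun v j => by
    rcases hu v j with h | h
    · rw [h]
    · linarith
  set K : ℝ := ∑ v, |lo v| with hK
  have hK0 : 0 ≤ K := Finset.sum_nonneg fun _ _ => abs_nonneg _
  have hKv : ∀ v, |lo v| ≤ K := fun v =>
    Finset.single_le_sum (f := fun v => |lo v|) (fun _ _ => abs_nonneg _) (mem_univ v)
  set b : B → ℝ := fun v => |hi v| + |t * ∑ e ∈ S, u v e| + K * ∑ i, u v i with hb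
  have hb0 : ∀ v, 0 ≤ b v := fun v =>
    add_nonneg (add_nonneg (abs_nonneg _) (abs_nonneg _))
      (mul_nonneg hK0 (Finset.sum_nonneg fun i _ => hu0 v i))
  set R : ℝ := K + ∑ v, b v with hR
  have hbs : ∀ v, b v ≤ ∑ v, b v := fun v =>
    Finset.single_le_sum (f := b) (fun v _ => hb0 v) (mem_univ v)
  have hbs0 : 0 ≤ ∑ v, b v := Finset.sum_nonneg fun v _ => hb0 v
  have hR0 : 0 ≤ R := add_nonneg hK0 hbs0
  refine ⟨R, hR0, fun y c h1 h2 h3 => ?_⟩
  obtain ⟨r, hr, h2⟩ := h2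
  have hc : ∀ v, lo v ≤ c v ∧ c v ≤ hi v := fun v => by
    refine (jbr_nrm hφ ρ v).2.2 (c v) fun h => h3 ?_
    exact Finset.prod_eq_zero (mem_univ v) h
  have hlow : ∀ j, -K ≤ y j := fun j => by
    have h4 := h2 (co j) (hcoρ j)
    have h5 : lin u (co j) (pt p t S y r) = pt p t S y r j := by
      unfold lin
      simp only [hco, ite_mul, one_mul, zero_mul, Finset.sum_ite_eq', mem_univ, if_true]
    rw [h5] at h4
    have h6 := jbr_pt p ht S y hr j
    have h7 := (hc (co j)).1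
    have h8 := neg_abs_le (lo (co j))
    have h9 := hKv (co j)
    linarith
  refine ⟨(pi_norm_le_iff_of_nonneg hR0).2 fun j => ?_, (pi_norm_le_iff_of_nonneg hR0).2 fun v => ?_⟩
  · obtain ⟨v, hv, hvj⟩ := hρpos j
    have h4 : φ v (lin u v y - t * ∑ e ∈ S, u v e) ≠ 0 := fun h => h1 (Finset.prod_eq_zero hv h)
    have h5 : lin u v y - t * ∑ e ∈ S, u v e ≤ hi v := by
      by_contra h
      exact h4 ((hφ v).supp _ (Or.inr (not_le.1 h)))
    have h6 : y j + K ≤ ∑ i, u v i * (y i + K) := by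
      have h7 : u v j * (y j + K) ≤ ∑ i, u v i * (y i + K) :=
        Finset.single_le_sum (f := fun i => u v i * (y i + K))
          (fun i _ => mul_nonneg (hu0 v i) (by linarith [hlow i])) (mem_univ j)
      have h8 : y j + K ≤ u v j * (y j + K) := le_mul_of_one_le_left (by linarith [hlow j]) hvj
      exact h8.trans h7
    have h7 : ∑ i, u v i * (y i + K) = lin u v y + K * ∑ i, u v i := by
      unfold lin
      rw [Finset.mul_sum, ← Finset.sum_add_distrib]
      exact Finset.sum_congr rfl fun i _ => by ring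
    rw [h7] at h6
    have h8 := le_abs_self (hi v)
    have h9 := le_abs_self (t * ∑ e ∈ S, u v e)
    have h10 : y j ≤ b v := by
      show y j ≤ |hi v| + |t * ∑ e ∈ S, u v e| + K * ∑ i, u v i
      linarith
    rw [Real.norm_eq_abs, abs_le]
    constructor
    · have := hlow j
      linarith
    · have := hbs v
      linarith
  · have h4 := hc v
    have h5 := hKv v
    have h6 := neg_abs_le (lo v)
    have h7 := le_abs_self (hi v)
    have h8 : |hi v| ≤ b v := by
      show |hi v| ≤ |hi v| + |t * ∑ e ∈ S, u v e| + K * ∑ i, u v i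
      have h9 := abs_nonneg (t * ∑ e ∈ S, u v e)
      have h10 : 0 ≤ K * ∑ i, u v i := mul_nonneg hK0 (Finset.sum_nonneg fun i _ => hu0 v i)
      linarith
    have h9 := hbs v
    rw [Real.norm_eq_abs, abs_le]
    constructor <;> linarith

open Classical in
private theorem jbr_int (u : B → ι → ℝ) (hu : ∀ v j, u v j = 0 ∨ 1 ≤ u v j) (co : ι → B)
    (hco : ∀ j i, u (co j) i = if i = j then 1 else 0) (p : ι → ι) (t : ℝ) (ht : 0 ≤ t)
    (S : Finset ι) {φ : B → ℝ → ℝ} {lo m hi : B → ℝ}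
    (hφ : ∀ v, IsBump (φ v) (lo v) (m v) (hi v)) (ρ : Finset B) (hcoρ : ∀ j, co j ∉ ρ)
    (hρpos : ∀ j, ∃ v ∈ ρ, 1 ≤ u v j) :
    Integrable (fun x : (ι → ℝ) × (B → ℝ) => (∏ v ∈ ρ, φ v (lin u v x.1 - t * ∑ e ∈ S, u v e)) *
      ((if ∃ r, Cube r ∧ ∀ v, v ∉ ρ → x.2 v ≤ lin u v (pt p t S x.1 r) then 1 else 0) *
        ∏ v, nrm ρ φ v (x.2 v))) (volume.prod volume) := by
  obtain ⟨R, hR, hsupp⟩ := jbr_supp u hu co hco p t ht S hφ ρ hcoρ hρpos
  choose M hM using fun v => jbr_bdd (hφ v)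
  choose N hN using fun v => (jbr_nrm hφ ρ v).2.1
  have hc1 : Continuous fun x : (ι → ℝ) × (B → ℝ) => ∏ v ∈ ρ, φ v (lin u v x.1 - t * ∑ e ∈ S, u v e) := by
    refine continuous_finsetProd _ fun v _ => (jbr_cont (hφ v)).comp ?_
    unfold lin
    fun_prop
  have hc2 : Continuous fun x : (ι → ℝ) × (B → ℝ) => ∏ v, nrm ρ φ v (x.2 v) :=
    continuous_finsetProd _ fun v _ => (jbr_nrm hφ ρ v).1.comp (by fun_prop)
  have hm : Measurable fun x : (ι → ℝ) × (B → ℝ) =>
      (if ∃ r, Cube r ∧ ∀ v, v ∉ ρ → x.2 v ≤ lin u v (pt p t S x.1 r) then (1 : ℝ) else 0) :=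
    Measurable.ite (jbr_closed u p t S ρ).measurableSet measurable_const measurable_const
  have hmeas : Measurable fun x : (ι → ℝ) × (B → ℝ) =>
      (∏ v ∈ ρ, φ v (lin u v x.1 - t * ∑ e ∈ S, u v e)) *
      ((if ∃ r, Cube r ∧ ∀ v, v ∉ ρ → x.2 v ≤ lin u v (pt p t S x.1 r) then 1 else 0) *
        ∏ v, nrm ρ φ v (x.2 v)) := hc1.measurable.mul (hm.mul hc2.measurable)
  set G : (ι → ℝ) × (B → ℝ) → ℝ := fun x => (∏ v ∈ ρ, φ v (lin u v x.1 - t * ∑ e ∈ S, u v e)) *
      ((if ∃ r, Cube r ∧ ∀ v, v ∉ ρ → x.2 v ≤ lin u v (pt p t S x.1 r) then 1 else 0) *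
        ∏ v, nrm ρ φ v (x.2 v)) with hG
  set K : Set ((ι → ℝ) × (B → ℝ)) := Metric.closedBall 0 R ×ˢ Metric.closedBall 0 R with hK
  have hKc : IsCompact K := (isCompact_closedBall 0 R).prod (isCompact_closedBall 0 R)
  have hsub : Function.support G ⊆ K := by
    intro x hx
    have h1 : (∏ v ∈ ρ, φ v (lin u v x.1 - t * ∑ e ∈ S, u v e)) ≠ 0 := left_ne_zero_of_mul hx
    have h2 := right_ne_zero_of_mul hx
    have h3 := left_ne_zero_of_mul h2
    have h4 := right_ne_zero_of_mul h2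
    have h5 : ∃ r, Cube r ∧ ∀ v, v ∉ ρ → x.2 v ≤ lin u v (pt p t S x.1 r) := by
      by_contra h
      exact h3 (if_neg h)
    obtain ⟨h6, h7⟩ := hsupp x.1 x.2 h1 h5 h4
    exact ⟨mem_closedBall_zero_iff.2 h6, mem_closedBall_zero_iff.2 h7⟩
  rw [← integrableOn_iff_integrable_of_support_subset hsub]
  refine Measure.integrableOn_of_bounded (M := (∏ v ∈ ρ, M v) * (1 * ∏ v, N v)) hKc.measure_lt_top.ne
    hmeas.aestronglyMeasurable (Filter.Eventually.of_forall fun x => ?_)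
  have b1 := jbr_prod ρ (f := fun v => φ v (lin u v x.1 - t * ∑ e ∈ S, u v e)) (M := M) fun v => hM v _
  have b2 := jbr_prod univ (f := fun v => nrm ρ φ v (x.2 v)) (M := N) fun v => hN v _
  have b3 : |(if ∃ r, Cube r ∧ ∀ v, v ∉ ρ → x.2 v ≤ lin u v (pt p t S x.1 r) then (1 : ℝ) else 0)| ≤ 1 := by
    split_ifs <;> simp
  show |(∏ v ∈ ρ, φ v (lin u v x.1 - t * ∑ e ∈ S, u v e)) *
      ((if ∃ r, Cube r ∧ ∀ v, v ∉ ρ → x.2 v ≤ lin u v (pt p t S x.1 r) then 1 else 0) *
        ∏ v, nrm ρ φ v (x.2 v))| ≤ _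
  rw [abs_mul, abs_mul]
  exact mul_le_mul b1 (mul_le_mul b3 b2 (abs_nonneg _) zero_le_one)
    (mul_nonneg (abs_nonneg _) (abs_nonneg _)) ((abs_nonneg _).trans b1)

open Classical in
/-- E-20. The value of the functional as an integral over the parameters. -/
theorem JJ_one (u : B → ι → ℝ) (hu : ∀ v j, u v j = 0 ∨ 1 ≤ u v j) (co : ι → B)
    (hco : ∀ j i, u (co j) i = if i = j then 1 else 0) (p : ι → ι) (t : ℝ) (ht : 0 ≤ t)
    (E : Finset ι) {φ : B → ℝ → ℝ} {lo m hi : B → ℝ}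
    (hφ : ∀ v, IsBump (φ v) (lo v) (m v) (hi v)) (ρ : Finset B) (hcoρ : ∀ j, co j ∉ ρ)
    (hρE : ∀ v ∈ ρ, ∀ e ∈ E, u v (p e) = u v e) (hρpos : ∀ j, ∃ v ∈ ρ, 1 ≤ u v j) :
    JJ u p t E φ (fun v => if v ∈ ρ then 1 else 0) =
      ∫ c : B → ℝ, Br u p t E φ ρ c * ∏ v, nrm ρ φ v (c v) := by
  -- the integrand
  set G : Finset ι → (ι → ℝ) → (B → ℝ) → ℝ := fun S y c =>
    (∏ v ∈ ρ, φ v (lin u v y - t * ∑ e ∈ S, u v e)) *
      ((if ∃ r, Cube r ∧ ∀ v, v ∉ ρ → c v ≤ lin u v (pt p t S y r) then 1 else 0) *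
        ∏ v, nrm ρ φ v (c v)) with hG
  have hGi : ∀ S, Integrable (fun x : (ι → ℝ) × (B → ℝ) => G S x.1 x.2) (volume.prod volume) := fun S =>
    jbr_int u hu co hco p t ht S hφ ρ hcoρ hρpos
  have e1 : ∀ y, Th u p t E φ (fun v => if v ∈ ρ then 1 else 0) y =
      ∑ S ∈ E.powerset, (-1 : ℝ) ^ (E.card + S.card) * ∫ c : B → ℝ, G S y c := fun y => by
    rw [Th_one u p t E hφ ρ hρE y]
    refine Finset.sum_congr rfl fun S _ => ?_
    rw [← integral_const_mul]
  have e2 : JJ u p t E φ (fun v => if v ∈ ρ then 1 else 0) =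
      ∑ S ∈ E.powerset, (-1 : ℝ) ^ (E.card + S.card) * ∫ y : ι → ℝ, ∫ c : B → ℝ, G S y c := by
    unfold JJ
    simp only [e1]
    rw [integral_finsetSum _ fun S _ => ((hGi S).integral_prod_left).const_mul _]
    exact Finset.sum_congr rfl fun S _ => integral_const_mul _ _
  -- the inner integral over `y`
  have e3 : ∀ S ∈ E.powerset, ∀ c : B → ℝ, ∫ y : ι → ℝ, G S y c =
      (∫ y : ι → ℝ, (∏ v ∈ ρ, φ v (lin u v y)) *
        (if ∃ r, Cube r ∧ ∀ v, v ∉ ρ → c v ≤ lin u v (fun j => y j - t * ∑ e ∈ S, r e * xi p e j)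
          then 1 else 0)) * ∏ v, nrm ρ φ v (c v) := by
    intro S hS c
    have hSE := Finset.mem_powerset.1 hS
    rw [← integral_mul_const, ← integral_add_right_eq_self (fun y : ι → ℝ => G S y c)
      (fun j => t * ∑ e ∈ S, (if p e = j then (1 : ℝ) else 0))]
    congr 1
    funext y
    have f1 : (y + fun j => t * ∑ e ∈ S, (if p e = j then (1 : ℝ) else 0)) =
        fun j => y j + t * ∑ e ∈ S, (if p e = j then (1 : ℝ) else 0) := rfl
    have f2 : ∏ v ∈ ρ, φ v (lin u v (fun j => y j + t * ∑ e ∈ S, (if p e = j then (1 : ℝ) else 0)) -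
        t * ∑ e ∈ S, u v e) = ∏ v ∈ ρ, φ v (lin u v y) := Finset.prod_congr rfl fun v hv => by
      rw [lin_shift u p t S y v fun e he => hρE v hv e (hSE he)]
      congr 1
      ring
    show (∏ v ∈ ρ, φ v (lin u v (y + fun j => t * ∑ e ∈ S, (if p e = j then (1 : ℝ) else 0)) -
        t * ∑ e ∈ S, u v e)) * ((if ∃ r, Cube r ∧ ∀ v, v ∉ ρ →
          c v ≤ lin u v (pt p t S (y + fun j => t * ∑ e ∈ S, (if p e = j then (1 : ℝ) else 0)) r)
        then 1 else 0) * ∏ v, nrm ρ φ v (c v)) = _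
    have f3 : (∃ r, Cube r ∧ ∀ v, v ∉ ρ →
          c v ≤ lin u v (pt p t S (y + fun j => t * ∑ e ∈ S, (if p e = j then (1 : ℝ) else 0)) r)) =
        ∃ r, Cube r ∧ ∀ v, v ∉ ρ → c v ≤ lin u v (fun j => y j - t * ∑ e ∈ S, r e * xi p e j) := by
      rw [f1]
      congr 1
      funext r
      rw [pt_shift u p t S y r]
    rw [f1, f2]
    rw [f1] at f3
    simp only [f3]
    ring
  have e4 : ∀ S ∈ E.powerset, ∫ y : ι → ℝ, ∫ c : B → ℝ, G S y c = ∫ c : B → ℝ,
      (∫ y : ι → ℝ, (∏ v ∈ ρ, φ v (lin u v y)) *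
        (if ∃ r, Cube r ∧ ∀ v, v ∉ ρ → c v ≤ lin u v (fun j => y j - t * ∑ e ∈ S, r e * xi p e j)
          then 1 else 0)) * ∏ v, nrm ρ φ v (c v) := fun S hS => by
    rw [integral_integral_swap (hGi S)]
    congr 1
    funext c
    exact e3 S hS c
  have hi2 : ∀ S ∈ E.powerset, Integrable fun c : B → ℝ =>
      (∫ y : ι → ℝ, (∏ v ∈ ρ, φ v (lin u v y)) *
        (if ∃ r, Cube r ∧ ∀ v, v ∉ ρ → c v ≤ lin u v (fun j => y j - t * ∑ e ∈ S, r e * xi p e j)
          then 1 else 0)) * ∏ v, nrm ρ φ v (c v) := fun S hS => by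
    refine (hGi S).integral_prod_right.congr (Filter.Eventually.of_forall fun c => ?_)
    exact e3 S hS c
  rw [e2, Finset.sum_congr rfl fun S hS => congrArg _ (e4 S hS)]
  have e5 : ∀ c : B → ℝ, Br u p t E φ ρ c * ∏ v, nrm ρ φ v (c v) =
      ∑ S ∈ E.powerset, (-1 : ℝ) ^ (E.card + S.card) * ((∫ y : ι → ℝ, (∏ v ∈ ρ, φ v (lin u v y)) *
        (if ∃ r, Cube r ∧ ∀ v, v ∉ ρ → c v ≤ lin u v (fun j => y j - t * ∑ e ∈ S, r e * xi p e j)
          then 1 else 0)) * ∏ v, nrm ρ φ v (c v)) := fun c => by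
    unfold Br
    rw [Finset.sum_mul]
    exact Finset.sum_congr rfl fun S _ => mul_assoc _ _ _
  simp only [e5]
  rw [integral_finsetSum _ fun S hS => (hi2 S hS).const_mul _]
  exact Finset.sum_congr rfl fun S _ => (integral_const_mul _ _).symm

end MPb07157.EE
end
end

section

/-!
# Theorem E: choice of the edges
-/

noncomputable section

namespace MPb07157.EE

open Finset

/-- E-23. Choice of representatives of the classes of twins. -/
theorem exists_edges {A ι : Type} [Fintype A] [Fintype ι] [DecidableEq A] [DecidableEq ι]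
    (u : A → ι → ℕ) (ρ σ : Finset A) (hσρ : σ ⊆ ρ)
    (hcov : ∀ j, (∃ v ∈ σ, 0 < u v j) ∨ ∃ j', j' ≠ j ∧ ∀ v ∈ ρ, u v j' = u v j) :
    ∃ (E : Finset ι) (p : ι → ι), (∀ e ∈ E, p e ∉ E) ∧ (∀ e ∈ E, ∀ v ∈ ρ, u v (p e) = u v e) ∧
      ∀ j, (∃ v ∈ σ, 0 < u v j) ∨ ∃ e ∈ E, j = e ∨ j = p e := by
  classical
  let s : Setoid ι :=
    { r := fun j j' => ∀ v ∈ ρ, u v j = u v j'
      iseqv := ⟨fun _ _ _ => rfl, fun h v hv => (h v hv).symm, fun h h' v hv => (h v hv).trans (h' v hv)⟩ }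
  let rep : ι → ι := fun j => (Quotient.mk s j).out
  have h1 : ∀ j, ∀ v ∈ ρ, u v (rep j) = u v j := fun j => Quotient.exact (Quotient.out_eq (Quotient.mk s j))
  have h2 : ∀ j j', (∀ v ∈ ρ, u v j = u v j') → rep j = rep j' := fun j j' h => by
    have h3 : Quotient.mk s j = Quotient.mk s j' := Quotient.sound h
    show (Quotient.mk s j).out = (Quotient.mk s j').out
    rw [h3]
  have h3 : ∀ j, rep (rep j) = rep j := fun j => h2 _ _ (h1 j)
  refine ⟨univ.filter fun j => (∀ v ∈ σ, u v j = 0) ∧ rep j ≠ j, rep, fun e _ h => ?_,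
    fun e _ => h1 e, fun j => ?_⟩
  · exact (mem_filter.1 h).2.2 (h3 e)
  · by_cases hc : ∃ v ∈ σ, 0 < u v j
    · exact Or.inl hc
    · have hz : ∀ v ∈ σ, u v j = 0 := fun v hv => by
        by_contra h
        exact hc ⟨v, hv, Nat.pos_of_ne_zero h⟩
      right
      by_cases hj : rep j = j
      · rcases hcov j with h | ⟨j', hj', h⟩
        · exact absurd h hc
        · have h4 : rep j' = j := (h2 _ _ h).trans hj
          refine ⟨j', mem_filter.2 ⟨mem_univ _, fun v hv => ?_, ?_⟩, Or.inr h4.symm⟩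
          · rw [h v (hσρ hv), hz v hv]
          · rw [h4]
            exact hj'.symm
      · exact ⟨j, mem_filter.2 ⟨mem_univ _, hz, hj⟩, Or.inl rfl⟩

end MPb07157.EE
end
end
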