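import Pool.Agent.Lib.MP_b07157_ag.NewtInt12
import Pool.Agent.Lib.MP_b07157_ag.E.Twin
import Pool.Agent.Lib.MP_b07157_ag.E.Br
import Pool.Agent.Lib.MP_b07157_ag.E.Supp
import Pool.Agent.Lib.MP_b07157_ag.NewtMulL
import Pool.Agent.Lib.MP_b07157_ag.NewtRootAll

section

/-!
# Theorem E: algebra of the functional
-/

noncomputable section

namespace MPb07157.EE

open MvPolynomial Finset NWT10

variable {A ι : Type} [Fintype A] [Fintype ι]

omit [Fintype A] [Fintype ι] in
private theorem e22_rename (I : (A ⊕ ι →₀ ℕ) → ℝ) (g : MvPolynomial A ℝ) :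
    LI (fun k => I (k.mapDomain Sum.inl)) g = LI I (rename Sum.inl g) := by
  induction g using MvPolynomial.induction_on' with
  | monomial k a => rw [rename_monomial, LI_monomial, LI_monomial]
  | add p q hp hq => rw [map_add, map_add, map_add, hp, hq]

omit [Fintype ι] in
private theorem e22_rel (u : A → ι → ℝ) (I : (A ⊕ ι →₀ ℕ) → ℝ)
    (hI : ∀ (κ : A ⊕ ι →₀ ℕ) (j : ι), ∑ v, u v j * I (κ + Finsupp.single (Sum.inl v) 1) +
      I (κ + Finsupp.single (Sum.inr j) 1) = 0) (j : ι) (h : MvPolynomial (A ⊕ ι) ℝ) :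
    LI I (h * (∑ v, C (u v j) * X (Sum.inl v))) = -LI I (h * X (Sum.inr j)) := by
  induction h using MvPolynomial.induction_on' with
  | monomial k a =>
    have e1 : ∀ w : A ⊕ ι, (monomial k a : MvPolynomial (A ⊕ ι) ℝ) * X w =
        monomial (k + Finsupp.single w 1) a := by
      intro w
      rw [X, monomial_mul, mul_one]
    have e2 : (monomial k a : MvPolynomial (A ⊕ ι) ℝ) * (∑ v, C (u v j) * X (Sum.inl v)) =
        ∑ v, u v j • monomial (k + Finsupp.single (Sum.inl v) 1) a := by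
      rw [Finset.mul_sum]
      refine Finset.sum_congr rfl fun v _ => ?_
      rw [mul_left_comm, e1, smul_eq_C_mul]
    rw [e2, e1, map_sum, LI_monomial]
    simp only [map_smul, LI_monomial, smul_eq_mul]
    have h1 := hI k j
    have h2 : ∑ v, u v j * (a * I (k + Finsupp.single (Sum.inl v) 1)) =
        a * ∑ v, u v j * I (k + Finsupp.single (Sum.inl v) 1) := by
      rw [Finset.mul_sum]
      exact Finset.sum_congr rfl fun v _ => by ring
    rw [h2]
    linear_combination a * h1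
  | add p q hp hq => rw [add_mul, add_mul, map_add, map_add, hp, hq]; ring

omit [Fintype ι] in
private theorem e22_prod (u : A → ι → ℝ) (I : (A ⊕ ι →₀ ℕ) → ℝ)
    (hI : ∀ (κ : A ⊕ ι →₀ ℕ) (j : ι), ∑ v, u v j * I (κ + Finsupp.single (Sum.inl v) 1) +
      I (κ + Finsupp.single (Sum.inr j) 1) = 0) (P : Finset ι) :
    ∀ h : MvPolynomial (A ⊕ ι) ℝ, LI I (h * ∏ j ∈ P, ∑ v, C (u v j) * X (Sum.inl v)) =
      (-1) ^ P.card * LI I (h * ∏ j ∈ P, X (Sum.inr j)) := by
  classical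
  induction P using Finset.induction_on with
  | empty => intro h; simp
  | insert j P hj ih =>
    intro h
    rw [Finset.prod_insert hj, Finset.prod_insert hj, Finset.card_insert_of_notMem hj, ← mul_assoc, ih,
      mul_right_comm, e22_rel u I hI, pow_succ]
    have : h * (X (Sum.inr j) * ∏ j ∈ P, X (Sum.inr j) : MvPolynomial (A ⊕ ι) ℝ) =
        h * (∏ j ∈ P, X (Sum.inr j)) * X (Sum.inr j) := by ring
    rw [this]
    ring

omit [Fintype A] [Fintype ι] in
private theorem e22_zero (I : (A ⊕ ι →₀ ℕ) → ℝ) (U : Finset A) (P : Finset ι)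
    (hUP : ∀ κ : A ⊕ ι →₀ ℕ, (∀ v ∈ U, 1 ≤ κ (Sum.inl v)) → (∀ j ∈ P, 1 ≤ κ (Sum.inr j)) →
      I κ = 0) (h : MvPolynomial (A ⊕ ι) ℝ) :
    LI I (h * (∏ v ∈ U, X (Sum.inl v)) * ∏ j ∈ P, X (Sum.inr j)) = 0 := by
  induction h using MvPolynomial.induction_on' with
  | monomial k a =>
    have e1 : (∏ v ∈ U, X (Sum.inl v) : MvPolynomial (A ⊕ ι) ℝ) =
        monomial (∑ v ∈ U, Finsupp.single (Sum.inl v) 1) 1 := (monomial_sum_one U _).symm
    have e2 : (∏ j ∈ P, X (Sum.inr j) : MvPolynomial (A ⊕ ι) ℝ) =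
        monomial (∑ j ∈ P, Finsupp.single (Sum.inr j) 1) 1 := (monomial_sum_one P _).symm
    rw [e1, e2, monomial_mul, monomial_mul, mul_one, mul_one, LI_monomial, hUP, mul_zero]
    · intro v hv
      have h1 : (1:ℕ) ≤ (∑ w ∈ U, Finsupp.single (Sum.inl w : A ⊕ ι) 1) (Sum.inl v) := by
        rw [Finsupp.finsetSum_apply]
        refine le_trans ?_ (Finset.single_le_sum (fun _ _ => Nat.zero_le _) hv)
        simp
      simp only [Finsupp.add_apply]
      omega
    · intro j hj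
      have h1 : (1:ℕ) ≤ (∑ w ∈ P, Finsupp.single (Sum.inr w : A ⊕ ι) 1) (Sum.inr j) := by
        rw [Finsupp.finsetSum_apply]
        refine le_trans ?_ (Finset.single_le_sum (fun _ _ => Nat.zero_le _) hj)
        simp
      simp only [Finsupp.add_apply]
      omega
  | add p q hp hq => rw [add_mul, add_mul, map_add, hp, hq, add_zero]

/-- E-22. If the values `I` on monomials in the variables `A ⊕ ι` satisfy the translation
relations, the linear forms `∑ v, u v j X_v` may be exchanged for the variables of index `j`. -/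
theorem alg_vanish (u : A → ι → ℝ) (I : (A ⊕ ι →₀ ℕ) → ℝ)
    (hI : ∀ (κ : A ⊕ ι →₀ ℕ) (j : ι), ∑ v, u v j * I (κ + Finsupp.single (Sum.inl v) 1) +
      I (κ + Finsupp.single (Sum.inr j) 1) = 0) (U : Finset A) (P : Finset ι)
    (hUP : ∀ κ : A ⊕ ι →₀ ℕ, (∀ v ∈ U, 1 ≤ κ (Sum.inl v)) → (∀ j ∈ P, 1 ≤ κ (Sum.inr j)) →
      I κ = 0) (g : MvPolynomial A ℝ) :
    LI (fun k => I (k.mapDomain Sum.inl))
      (g * ((∏ v ∈ U, X v) * ∏ j ∈ P, ∑ v, C (u v j) * X v)) = 0 := by
  have e : rename (R := ℝ) (Sum.inl : A → A ⊕ ι) (g * ((∏ v ∈ U, X v) * ∏ j ∈ P, ∑ v, C (u v j) * X v)) =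
      rename Sum.inl g * (∏ v ∈ U, X (Sum.inl v)) * ∏ j ∈ P, ∑ v, C (u v j) * X (Sum.inl v) := by
    simp only [map_mul, map_prod, map_sum, rename_X, rename_C]
    rw [mul_assoc]
  rw [e22_rename, e, e22_prod u I hI, e22_zero I U P hUP, mul_zero]

/-- E-22'. The functional with values `I` on monomials, as a `ℚ`-linear map on rational
polynomials. -/
def LQ (I : (A →₀ ℕ) → ℝ) : MvPolynomial A ℚ →ₗ[ℚ] ℝ where
  toFun g := LI I (map (algebraMap ℚ ℝ) g)
  map_add' g h := by rw [map_add, map_add]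
  map_smul' q g := by
    rw [smul_eq_C_mul, map_mul, map_C, ← smul_eq_C_mul, map_smul, RingHom.id_apply,
      Rat.smul_def]
    rfl

end MPb07157.EE
end
end

section

/-!
# Theorem E: positivity
-/

noncomputable section

namespace MPb07157.EE

open MeasureTheory Finset

variable {B ι : Type} [Fintype B] [DecidableEq B] [Fintype ι] [DecidableEq ι]

private lemma jp_lin (u : B → ι → ℝ) (p : ι → ι) (v : B) (E : Finset ι) (y a : ι → ℝ) :
    lin u v (fun j => y j - ∑ e ∈ E, a e * xi p e j) =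
      lin u v y - ∑ e ∈ E, a e * (u v e - u v (p e)) := by
  have h1 : ∀ e, ∑ j, u v j * xi p e j = u v e - u v (p e) := by
    intro e
    unfold xi
    simp_rw [mul_sub, mul_ite, mul_one, mul_zero]
    rw [Finset.sum_sub_distrib, Finset.sum_ite_eq, Finset.sum_ite_eq]
    simp
  have h2 : ∑ j, u v j * ∑ e ∈ E, a e * xi p e j = ∑ e ∈ E, a e * (u v e - u v (p e)) := by
    simp_rw [Finset.mul_sum]
    rw [Finset.sum_comm]
    refine Finset.sum_congr rfl fun e _ => ?_
    rw [← h1 e, Finset.mul_sum]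
    exact Finset.sum_congr rfl fun j _ => by ring
  unfold lin
  rw [← h2, ← Finset.sum_sub_distrib]
  exact Finset.sum_congr rfl fun j _ => by ring

private lemma jp_lin_rho (u : B → ι → ℝ) (p : ι → ι) {v : B} {E : Finset ι}
    (h : ∀ e ∈ E, u v (p e) = u v e) (y a : ι → ℝ) :
    lin u v (fun j => y j - ∑ e ∈ E, a e * xi p e j) = lin u v y := by
  rw [jp_lin, Finset.sum_eq_zero, sub_zero]
  intro e he
  rw [h e he, sub_self, mul_zero]

private lemma jp_xi {p : ι → ι} {E : Finset ι} (hp : ∀ e ∈ E, p e ∉ E) (a : ι → ℝ) {e : ι}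
    (he : e ∈ E) : ∑ e' ∈ E, a e' * xi p e' e = a e := by
  rw [Finset.sum_eq_single e]
  · have h1 : p e ≠ e := fun h => hp e he (h.symm ▸ he)
    unfold xi
    rw [if_pos rfl, if_neg h1]
    ring
  · intro e' he' hne
    have h1 : p e' ≠ e := fun h => hp e' he' (h.symm ▸ he)
    unfold xi
    rw [if_neg hne, if_neg h1]
    ring
  · intro h
    exact absurd he h

private lemma jp_lin_cont (u : B → ι → ℝ) (v : B) : Continuous (lin u v) := by
  unfold lin
  fun_prop

/-- The integrand. -/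
private def jpH (u : B → ι → ℝ) (p : ι → ι) (t : ℝ) (E : Finset ι) (φ : B → ℝ → ℝ) (ρ : Finset B)
    (c : B → ℝ) (y : ι → ℝ) : ℝ := by
  classical
  exact (∏ v ∈ ρ, φ v (lin u v y)) *
      (if (∀ e ∈ E, 0 ≤ y e ∧ y e ≤ t) ∧ ∃ a : ι → ℝ, ∀ v, v ∉ ρ →
        c v ≤ lin u v (fun j => y j - ∑ e ∈ E, a e * xi p e j) then 1 else 0)

section

variable {u : B → ι → ℝ} {p : ι → ι} {t : ℝ} {E : Finset ι} {φ : B → ℝ → ℝ} {ρ : Finset B}
  {lo m hi : B → ℝ}

private lemma jp_psi_nonneg (hφ : ∀ v, IsBump (φ v) (lo v) (m v) (hi v)) (y : ι → ℝ) :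
    0 ≤ ∏ v ∈ ρ, φ v (lin u v y) := Finset.prod_nonneg fun v _ => (hφ v).nonneg _

private lemma jp_psi_cont (hφ : ∀ v, IsBump (φ v) (lo v) (m v) (hi v)) :
    Continuous fun y : ι → ℝ => ∏ v ∈ ρ, φ v (lin u v y) :=
  continuous_finsetProd _ fun v _ => ((hφ v).smooth 0).continuous.comp (jp_lin_cont u v)

private lemma jp_nonneg (hφ : ∀ v, IsBump (φ v) (lo v) (m v) (hi v)) (c : B → ℝ) (y : ι → ℝ) :
    0 ≤ jpH u p t E φ ρ c y := by
  unfold jpH
  refine mul_nonneg (jp_psi_nonneg hφ y) ?_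
  split_ifs <;> norm_num

private lemma jp_anti (hφ : ∀ v, IsBump (φ v) (lo v) (m v) (hi v)) {c c' : B → ℝ}
    (h : ∀ v, c v ≤ c' v) (y : ι → ℝ) : jpH u p t E φ ρ c' y ≤ jpH u p t E φ ρ c y := by
  unfold jpH
  refine mul_le_mul_of_nonneg_left ?_ (jp_psi_nonneg hφ y)
  split_ifs with h1 h2 h2
  · exact le_rfl
  · obtain ⟨h3, a, h4⟩ := h1
    exact absurd ⟨h3, a, fun v hv => (h v).trans (h4 v hv)⟩ h2
  · exact zero_le_one
  · exact le_rfl

/-- The support of the integrand is bounded. -/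
private lemma jp_supp (hu : ∀ v j, u v j = 0 ∨ 1 ≤ u v j) {co : ι → B}
    (hco : ∀ j i, u (co j) i = if i = j then 1 else 0) (hp : ∀ e ∈ E, p e ∉ E)
    (hφ : ∀ v, IsBump (φ v) (lo v) (m v) (hi v)) (hcoρ : ∀ j, co j ∉ ρ)
    (hρE : ∀ v ∈ ρ, ∀ e ∈ E, u v (p e) = u v e) (hρpos : ∀ j, ∃ v ∈ ρ, 1 ≤ u v j) (c : B → ℝ) :
    ∃ R : ℝ, ∀ y : ι → ℝ, jpH u p t E φ ρ c y ≠ 0 → ∀ j, |y j| ≤ R := by
  classical
  have hu0 : ∀ v j, 0 ≤ u v j := fun v j => by
    rcases hu v j with h | h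
    · rw [h]
    · linarith
  obtain ⟨R1, hR1⟩ : ∃ R1 : ℝ, R1 = (∑ v, |hi v|) + (∑ v, ∑ i, u v i * |c (co i)|) +
    ∑ j, |c (co j)| := ⟨_, rfl⟩
  have n1 : 0 ≤ ∑ v, |hi v| := Finset.sum_nonneg fun v _ => abs_nonneg _
  have n2 : 0 ≤ ∑ v, ∑ i, u v i * |c (co i)| :=
    Finset.sum_nonneg fun v _ => Finset.sum_nonneg fun i _ => mul_nonneg (hu0 v i) (abs_nonneg _)
  have n3 : 0 ≤ ∑ j, |c (co j)| := Finset.sum_nonneg fun v _ => abs_nonneg _
  have hR10 : 0 ≤ R1 := by rw [hR1]; positivity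
  refine ⟨R1 + ∑ e ∈ E, (|t| + R1) * 2, fun y hy j => ?_⟩
  unfold jpH at hy
  have hψ := left_ne_zero_of_mul hy
  have hif := right_ne_zero_of_mul hy
  rw [ne_eq, ite_eq_right_iff, Classical.not_imp] at hif
  obtain ⟨⟨hbox, a, ha⟩, -⟩ := hif
  obtain ⟨y', hy'⟩ : ∃ y' : ι → ℝ, y' = fun j => y j - ∑ e ∈ E, a e * xi p e j := ⟨_, rfl⟩
  have hlow : ∀ i, c (co i) ≤ y' i := by
    intro i
    have h1 := ha (co i) (hcoρ i)
    rw [← hy'] at h1
    have h2 : lin u (co i) y' = y' i := by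
      unfold lin
      simp_rw [hco]
      simp
    rwa [h2] at h1
  have hup : ∀ v ∈ ρ, lin u v y' ≤ hi v := by
    intro v hv
    have h1 : φ v (lin u v y) ≠ 0 := fun h => hψ (Finset.prod_eq_zero hv h)
    rw [hy', jp_lin_rho u p (hρE v hv)]
    by_contra h2
    exact h1 ((hφ v).supp _ (Or.inr (not_le.1 h2)))
  have hy'b : ∀ i, |y' i| ≤ R1 := by
    intro i
    rw [abs_le]
    constructor
    · have h1 : |c (co i)| ≤ ∑ j, |c (co j)| :=
        Finset.single_le_sum (f := fun j => |c (co j)|) (fun j _ => abs_nonneg _)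
          (Finset.mem_univ i)
      have h2 := hlow i
      have h3 := neg_abs_le (c (co i))
      linarith
    · rcases le_or_gt (y' i) 0 with h0 | h0
      · linarith
      · obtain ⟨v, hv, hvi⟩ := hρpos i
        have h1 := hup v hv
        unfold lin at h1
        rw [← Finset.add_sum_erase Finset.univ _ (Finset.mem_univ i)] at h1
        have h2 : -∑ i, u v i * |c (co i)| ≤ ∑ x ∈ Finset.univ.erase i, u v x * y' x := by
          have h3 : -∑ x ∈ Finset.univ.erase i, u v x * |c (co x)| ≤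
              ∑ x ∈ Finset.univ.erase i, u v x * y' x := by
            rw [← Finset.sum_neg_distrib]
            refine Finset.sum_le_sum fun x _ => ?_
            rw [← mul_neg]
            exact mul_le_mul_of_nonneg_left ((neg_abs_le _).trans (hlow x)) (hu0 v x)
          have h4 : ∑ x ∈ Finset.univ.erase i, u v x * |c (co x)| ≤ ∑ i, u v i * |c (co i)| :=
            Finset.sum_le_sum_of_subset_of_nonneg (Finset.erase_subset _ _)
              fun x _ _ => mul_nonneg (hu0 v x) (abs_nonneg _)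
          linarith
        have h5 : y' i ≤ u v i * y' i := by nlinarith
        have h6 : |hi v| ≤ ∑ v, |hi v| :=
          Finset.single_le_sum (f := fun v => |hi v|) (fun v _ => abs_nonneg _)
            (Finset.mem_univ v)
        have h7 : ∑ i, u v i * |c (co i)| ≤ ∑ v, ∑ i, u v i * |c (co i)| :=
          Finset.single_le_sum (f := fun v => ∑ i, u v i * |c (co i)|)
            (fun v _ => Finset.sum_nonneg fun i _ => mul_nonneg (hu0 v i) (abs_nonneg _))
            (Finset.mem_univ v)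
        have h8 := le_abs_self (hi v)
        linarith
  have hab : ∀ e ∈ E, |a e| ≤ |t| + R1 := by
    intro e he
    have h1 : y' e = y e - a e := by
      rw [hy']
      show y e - ∑ e' ∈ E, a e' * xi p e' e = y e - a e
      rw [jp_xi hp a he]
    have h2 : a e = y e - y' e := by linarith
    have h3 : |y e| ≤ |t| := by
      have h4 := hbox e he
      rw [abs_of_nonneg h4.1]
      exact h4.2.trans (le_abs_self t)
    rw [h2]
    exact (abs_sub _ _).trans (add_le_add h3 (hy'b e))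
  have hyj : y j = y' j + ∑ e ∈ E, a e * xi p e j := by
    rw [hy']
    show y j = y j - _ + _
    ring
  have hxi : ∀ e, |xi p e j| ≤ 2 := by
    intro e
    unfold xi
    split_ifs <;> norm_num
  rw [hyj]
  refine (abs_add_le _ _).trans (add_le_add (hy'b j) ((Finset.abs_sum_le_sum_abs _ _).trans ?_))
  refine Finset.sum_le_sum fun e he => ?_
  rw [abs_mul]
  exact mul_le_mul (hab e he) (hxi e) (abs_nonneg _) (by positivity)

private lemma jp_int (hu : ∀ v j, u v j = 0 ∨ 1 ≤ u v j) {co : ι → B}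
    (hco : ∀ j i, u (co j) i = if i = j then 1 else 0) (hp : ∀ e ∈ E, p e ∉ E)
    (hφ : ∀ v, IsBump (φ v) (lo v) (m v) (hi v)) (hcoρ : ∀ j, co j ∉ ρ)
    (hρE : ∀ v ∈ ρ, ∀ e ∈ E, u v (p e) = u v e) (hρpos : ∀ j, ∃ v ∈ ρ, 1 ≤ u v j) (c : B → ℝ) :
    Integrable (jpH u p t E φ ρ c) := by
  classical
  obtain ⟨R, hR⟩ := jp_supp (t := t) hu hco hp hφ hcoρ hρE hρpos c
  -- the bound
  have hφb : ∀ v, ∃ C : ℝ, ∀ s, |φ v s| ≤ C := by
    intro v
    have hcs : HasCompactSupport (φ v) := by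
      refine HasCompactSupport.intro (isCompact_Icc (a := lo v) (b := hi v)) fun s hs => ?_
      apply (hφ v).supp
      rw [Set.mem_Icc, not_and_or, not_le, not_le] at hs
      exact hs
    obtain ⟨C, hC⟩ := hcs.exists_bound_of_continuous ((hφ v).smooth 0).continuous
    exact ⟨C, fun s => by simpa [Real.norm_eq_abs] using hC s⟩
  choose C hC using hφb
  have hmeas : Measurable (jpH u p t E φ ρ c) := by
    unfold jpH
    refine (jp_psi_cont hφ).measurable.mul (Measurable.ite ?_ measurable_const measurable_const)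
    have e1 : {y : ι → ℝ | (∀ e ∈ E, 0 ≤ y e ∧ y e ≤ t) ∧ ∃ a : ι → ℝ, ∀ v, v ∉ ρ →
        c v ≤ lin u v (fun j => y j - ∑ e ∈ E, a e * xi p e j)} =
        (⋂ e ∈ E, {y : ι → ℝ | 0 ≤ y e ∧ y e ≤ t}) ∩ {y : ι → ℝ | ∃ a : ι → ℝ,
          (fun j => y j - ∑ e ∈ E, a e * xi p e j) ∈ {z : ι → ℝ | ∀ v, v ∉ ρ → c v ≤ lin u v z}} := by
      ext y
      simp
    rw [e1]
    refine MeasurableSet.inter (Finset.measurableSet_biInter _ fun e _ => ?_) ?_
    · exact (isClosed_le continuous_const (continuous_apply e)).measurableSet.inter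
        (isClosed_le (continuous_apply e) continuous_const).measurableSet
    · refine measurable_sat _ ?_ E (xi p)
      have e2 : {z : ι → ℝ | ∀ v, v ∉ ρ → c v ≤ lin u v z} =
          ⋂ v, ⋂ (_ : v ∉ ρ), {z : ι → ℝ | c v ≤ lin u v z} := by
        ext z
        simp
      rw [e2]
      exact isClosed_iInter fun v => isClosed_iInter fun _ =>
        isClosed_le continuous_const (jp_lin_cont u v)
  have hball : ∀ y : ι → ℝ, jpH u p t E φ ρ c y ≠ 0 → y ∈ Metric.closedBall (0 : ι → ℝ) (max R 0) := by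
    intro y hy
    rw [mem_closedBall_zero_iff, pi_norm_le_iff_of_nonneg (le_max_right _ _)]
    intro j
    rw [Real.norm_eq_abs]
    exact (hR y hy j).trans (le_max_left _ _)
  have hM : ∀ y : ι → ℝ, |jpH u p t E φ ρ c y| ≤ ∏ v ∈ ρ, C v := by
    intro y
    have h1 : |∏ v ∈ ρ, φ v (lin u v y)| ≤ ∏ v ∈ ρ, C v := by
      rw [Finset.abs_prod]
      exact Finset.prod_le_prod (fun v _ => abs_nonneg _) fun v _ => hC v _
    unfold jpH
    rw [abs_mul]
    have h2 : |(if (∀ e ∈ E, 0 ≤ y e ∧ y e ≤ t) ∧ ∃ a : ι → ℝ, ∀ v, v ∉ ρ →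
        c v ≤ lin u v (fun j => y j - ∑ e ∈ E, a e * xi p e j) then (1 : ℝ) else 0)| ≤ 1 := by
      split_ifs <;> norm_num
    calc _ ≤ |∏ v ∈ ρ, φ v (lin u v y)| * 1 := mul_le_mul_of_nonneg_left h2 (abs_nonneg _)
      _ ≤ _ := by rw [mul_one]; exact h1
  have hg : Integrable ((Metric.closedBall (0 : ι → ℝ) (max R 0)).indicator
      fun _ => ∏ v ∈ ρ, C v) := by
    rw [integrable_indicator_iff measurableSet_closedBall]
    exact integrableOn_const (measure_closedBall_lt_top).ne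
  refine hg.mono' hmeas.aestronglyMeasurable (Filter.Eventually.of_forall fun y => ?_)
  by_cases hy : jpH u p t E φ ρ c y = 0
  · rw [hy, norm_zero]
    refine Set.indicator_nonneg (fun _ _ => ?_) y
    exact (abs_nonneg _).trans (hM y)
  · rw [Set.indicator_of_mem (hball y hy), Real.norm_eq_abs]
    exact hM y

/-- Measurability in the parameters. -/
private lemma jp_meas (hφ : ∀ v, IsBump (φ v) (lo v) (m v) (hi v)) :
    StronglyMeasurable (Br u p t E φ ρ) := by
  classical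
  have h1 : ∀ S : Finset ι, StronglyMeasurable fun c : B → ℝ => ∫ y : ι → ℝ,
      (∏ v ∈ ρ, φ v (lin u v y)) *
      (if ∃ r, Cube r ∧ ∀ v, v ∉ ρ → c v ≤ lin u v (fun j => y j - t * ∑ e ∈ S, r e * xi p e j)
      then 1 else 0) := by
    intro S
    have h2 : Measurable fun x : (B → ℝ) × (ι → ℝ) => (∏ v ∈ ρ, φ v (lin u v x.2)) *
        (if ∃ r, Cube r ∧ ∀ v, v ∉ ρ →
          x.1 v ≤ lin u v (fun j => x.2 j - t * ∑ e ∈ S, r e * xi p e j)
        then (1 : ℝ) else 0) := by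
      refine ((jp_psi_cont hφ).comp continuous_snd).measurable.mul
        (Measurable.ite ?_ measurable_const measurable_const)
      let u' : {v // v ∉ ρ} → ι → ℝ := fun v => u v.1
      let s0 : ι → ℝ := fun j => t * ∑ e ∈ S, (if p e = j then 1 else 0)
      have h3 := isClosed_isIn u' p t S
      have h4 : {x : (B → ℝ) × (ι → ℝ) | ∃ r, Cube r ∧ ∀ v, v ∉ ρ →
          x.1 v ≤ lin u v (fun j => x.2 j - t * ∑ e ∈ S, r e * xi p e j)} =
          (fun x : (B → ℝ) × (ι → ℝ) => (((fun j => x.2 j + s0 j), fun v => x.1 v.1) :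
            (ι → ℝ) × ({v // v ∉ ρ} → ℝ))) ⁻¹'
          {x : (ι → ℝ) × ({v // v ∉ ρ} → ℝ) | IsIn u' p t S x.2 x.1} := by
        ext x
        simp only [Set.mem_ofPred_eq, Set.mem_preimage, IsIn]
        have h5 : ∀ r : ι → ℝ, pt p t S (fun j => x.2 j + s0 j) r =
            fun j => x.2 j - t * ∑ e ∈ S, r e * xi p e j := by
          intro r
          funext j
          unfold pt sh
          have h6 : ∀ e, ((if e = j then r e else 0) + (if p e = j then 1 - r e else 0) : ℝ) =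
              r e * xi p e j + (if p e = j then 1 else 0) := by
            intro e
            unfold xi
            split_ifs <;> ring
          simp_rw [h6]
          rw [Finset.sum_add_distrib, mul_add]
          ring
        simp_rw [h5]
        constructor
        · rintro ⟨r, hr, h⟩
          exact ⟨r, hr, fun v => h v.1 v.2⟩
        · rintro ⟨r, hr, h⟩
          exact ⟨r, hr, fun v hv => h ⟨v, hv⟩⟩
      rw [h4]
      refine (h3.preimage ?_).measurableSet
      fun_prop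
    exact h2.stronglyMeasurable.integral_prod_right
  have h2 : Br u p t E φ ρ = fun c => ∑ S ∈ E.powerset, (-1 : ℝ) ^ (E.card + S.card) *
      ∫ y : ι → ℝ, (∏ v ∈ ρ, φ v (lin u v y)) *
      (if ∃ r, Cube r ∧ ∀ v, v ∉ ρ → c v ≤ lin u v (fun j => y j - t * ∑ e ∈ S, r e * xi p e j)
      then 1 else 0) := by
    funext c
    unfold Br
    refine Finset.sum_congr rfl fun S _ => ?_
    congr 1
  rw [h2]
  exact Finset.stronglyMeasurable_fun_sum _ fun S _ => (h1 S).const_mul _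

end

open Classical in
/-- E-21. Positivity of the functional. -/
theorem JJ_pos (u : B → ι → ℝ) (hu : ∀ v j, u v j = 0 ∨ 1 ≤ u v j) (co : ι → B)
    (hco : ∀ j i, u (co j) i = if i = j then 1 else 0) (p : ι → ι) (t : ℝ) (ht : 0 < t)
    (E : Finset ι) (hp : ∀ e ∈ E, p e ∉ E) {φ : B → ℝ → ℝ} {lo m hi : B → ℝ}
    (hφ : ∀ v, IsBump (φ v) (lo v) (m v) (hi v)) (ρ : Finset B) (hcoρ : ∀ j, co j ∉ ρ)
    (hρE : ∀ v ∈ ρ, ∀ e ∈ E, u v (p e) = u v e) (hρpos : ∀ j, ∃ v ∈ ρ, 1 ≤ u v j)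
    (y₀ : ι → ℝ) (hy₀ : ∀ v ∈ ρ, lin u v y₀ = m v) (hy₁ : ∀ v, v ∉ ρ → hi v < lin u v y₀) :
    0 < JJ u p t E φ (fun v => if v ∈ ρ then 1 else 0) := by
  have hone := JJ_one u hu co hco p t ht.le E hφ ρ hcoρ hρE hρpos
  have hBr : ∀ c, Br u p t E φ ρ c = ∫ y, jpH u p t E φ ρ c y := by
    intro c
    rw [Br_eq u hu co hco p t ht.le E hp hφ ρ hcoρ hρE hρpos c]
    refine integral_congr_ae (Filter.Eventually.of_forall fun y => ?_)
    unfold jpH
    show _ * _ = _ * _
    congr 1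
  have hint : ∀ c, Integrable (jpH u p t E φ ρ c) :=
    fun c => jp_int hu hco hp hφ hcoρ hρE hρpos c
  have hBr0 : ∀ c, 0 ≤ Br u p t E φ ρ c := fun c => by
    rw [hBr]
    exact integral_nonneg fun y => jp_nonneg hφ c y
  have hanti : ∀ c c' : B → ℝ, (∀ v, c v ≤ c' v) → Br u p t E φ ρ c' ≤ Br u p t E φ ρ c := by
    intro c c' h
    rw [hBr, hBr]
    exact integral_mono (hint c') (hint c) fun y => jp_anti hφ h y
  -- the normalized bumps
  have hnrm : ∀ v, ∃ C : ℝ, 0 < C ∧ ∀ s, nrm ρ φ v s = C * φ v s := by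
    intro v
    by_cases hv : v ∈ ρ
    · refine ⟨1 / ∫ x, φ v x, one_div_pos.2 (hφ v).integral_pos, fun s => ?_⟩
      unfold nrm
      rw [if_pos hv]
      ring
    · refine ⟨1, one_pos, fun s => ?_⟩
      unfold nrm
      rw [if_neg hv, one_mul]
  choose C hC0 hC using hnrm
  have hnc : ∀ v, Continuous (nrm ρ φ v) := by
    intro v
    have h1 : nrm ρ φ v = fun s => C v * φ v s := funext (hC v)
    rw [h1]
    exact continuous_const.mul ((hφ v).smooth 0).continuous
  have hns : ∀ v s, nrm ρ φ v s ≠ 0 → lo v ≤ s ∧ s ≤ hi v := by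
    intro v s h
    rw [hC] at h
    have h1 := right_ne_zero_of_mul h
    by_contra h2
    rw [not_and_or, not_le, not_le] at h2
    exact h1 ((hφ v).supp s h2)
  have hncs : ∀ v, HasCompactSupport (nrm ρ φ v) := by
    intro v
    refine HasCompactSupport.intro (isCompact_Icc (a := lo v) (b := hi v)) fun s hs => ?_
    by_contra h
    exact hs (hns v s h)
  have hni : ∀ v, Integrable (nrm ρ φ v) :=
    fun v => (hnc v).integrable_of_hasCompactSupport (hncs v)
  have hn0 : ∀ v s, 0 ≤ nrm ρ φ v s := fun v s => by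
    rw [hC]
    exact mul_nonneg (hC0 v).le ((hφ v).nonneg s)
  have hnI : ∀ v, 0 < ∫ s, nrm ρ φ v s := by
    intro v
    simp_rw [hC]
    rw [integral_const_mul]
    exact mul_pos (hC0 v) (hφ v).integral_pos
  have hPi : Integrable fun c : B → ℝ => ∏ v, nrm ρ φ v (c v) :=
    Integrable.fintype_prod (f := fun v => nrm ρ φ v) hni
  have hP0 : ∀ c : B → ℝ, 0 ≤ ∏ v, nrm ρ φ v (c v) := fun c =>
    Finset.prod_nonneg fun v _ => hn0 v _
  have hPI : 0 < ∫ c : B → ℝ, ∏ v, nrm ρ φ v (c v) := by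
    rw [integral_fintype_prod_volume_eq_prod (fun v => nrm ρ φ v)]
    exact Finset.prod_pos fun v _ => hnI v
  have hPs : ∀ c : B → ℝ, ∏ v, nrm ρ φ v (c v) ≠ 0 → ∀ v, lo v ≤ c v ∧ c v ≤ hi v :=
    fun c h v => hns v _ (Finset.prod_ne_zero_iff.1 h v (Finset.mem_univ v))
  -- the integral over the parameters
  have hGi : Integrable fun c : B → ℝ => Br u p t E φ ρ c * ∏ v, nrm ρ φ v (c v) := by
    have hmeas : AEStronglyMeasurable
        (fun c : B → ℝ => Br u p t E φ ρ c * ∏ v, nrm ρ φ v (c v)) volume :=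
      (jp_meas hφ).aestronglyMeasurable.mul hPi.aestronglyMeasurable
    refine (hPi.const_mul (Br u p t E φ ρ lo)).mono' hmeas
      (Filter.Eventually.of_forall fun c => ?_)
    rw [Real.norm_of_nonneg (mul_nonneg (hBr0 c) (hP0 c))]
    by_cases h : ∏ v, nrm ρ φ v (c v) = 0
    · rw [h, mul_zero, mul_zero]
    · exact mul_le_mul_of_nonneg_right (hanti lo c fun v => (hPs c h v).1) (hP0 c)
  have hge : Br u p t E φ ρ hi * ∫ c : B → ℝ, ∏ v, nrm ρ φ v (c v) ≤
      ∫ c : B → ℝ, Br u p t E φ ρ c * ∏ v, nrm ρ φ v (c v) := by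
    rw [← integral_const_mul]
    refine integral_mono (hPi.const_mul _) hGi fun c => ?_
    show Br u p t E φ ρ hi * ∏ v, nrm ρ φ v (c v) ≤ Br u p t E φ ρ c * ∏ v, nrm ρ φ v (c v)
    by_cases h : ∏ v, nrm ρ φ v (c v) = 0
    · rw [h, mul_zero, mul_zero]
    · exact mul_le_mul_of_nonneg_right (hanti c hi fun v => (hPs c h v).2) (hP0 c)
  -- positivity of `Br hi`
  have hpos : 0 < Br u p t E φ ρ hi := by
    rw [hBr, integral_pos_iff_support_of_nonneg (fun y => jp_nonneg hφ hi y) (hint hi)]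
    obtain ⟨a, ha⟩ : ∃ a : ι → ℝ, a = fun e => t / 2 - y₀ e := ⟨_, rfl⟩
    obtain ⟨y₁, hy⟩ : ∃ y₁ : ι → ℝ, y₁ = fun j => y₀ j + ∑ e ∈ E, a e * xi p e j := ⟨_, rfl⟩
    have hback : (fun j => y₁ j - ∑ e ∈ E, a e * xi p e j) = y₀ := by
      funext j
      rw [hy]
      show y₀ j + _ - _ = _
      ring
    have hlin : ∀ v ∈ ρ, lin u v y₁ = m v := by
      intro v hv
      rw [← jp_lin_rho u p (hρE v hv) y₁ a, hback]
      exact hy₀ v hv
    have hE1 : ∀ e ∈ E, y₁ e = t / 2 := by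
      intro e he
      rw [hy]
      show y₀ e + ∑ e' ∈ E, a e' * xi p e' e = t / 2
      rw [jp_xi hp a he, ha]
      ring
    have h1 : ∀ᶠ y in nhds y₁, 0 < ∏ v ∈ ρ, φ v (lin u v y) := by
      refine (jp_psi_cont hφ).continuousAt.eventually_const_lt ?_
      refine Finset.prod_pos fun v hv => ?_
      rw [hlin v hv]
      exact (hφ v).pos
    have h2 : ∀ᶠ y in nhds y₁, ∀ e ∈ E, 0 ≤ y e ∧ y e ≤ t := by
      rw [Filter.eventually_all_finset]
      intro e he
      have hc : ContinuousAt (fun y : ι → ℝ => y e) y₁ := (continuous_apply e).continuousAt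
      have h3 : ∀ᶠ y in nhds y₁, 0 < y e := by
        refine hc.eventually_const_lt ?_
        show 0 < y₁ e
        rw [hE1 e he]
        linarith
      have h4 : ∀ᶠ y in nhds y₁, y e < t := by
        refine hc.eventually_lt_const ?_
        show y₁ e < t
        rw [hE1 e he]
        linarith
      filter_upwards [h3, h4] with y h5 h6 using ⟨h5.le, h6.le⟩
    have h3 : ∀ᶠ y in nhds y₁, ∀ v, v ∉ ρ →
        hi v ≤ lin u v (fun j => y j - ∑ e ∈ E, a e * xi p e j) := by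
      rw [Filter.eventually_all]
      intro v
      by_cases hv : v ∈ ρ
      · exact Filter.Eventually.of_forall fun y h => absurd hv h
      · have hc : ContinuousAt (fun y : ι → ℝ =>
            lin u v (fun j => y j - ∑ e ∈ E, a e * xi p e j)) y₁ := by
          refine ((jp_lin_cont u v).comp ?_).continuousAt
          fun_prop
        have h4 : ∀ᶠ y in nhds y₁, hi v < lin u v (fun j => y j - ∑ e ∈ E, a e * xi p e j) := by
          refine hc.eventually_const_lt ?_
          show hi v < lin u v (fun j => y₁ j - ∑ e ∈ E, a e * xi p e j)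
          rw [hback]
          exact hy₁ v hv
        filter_upwards [h4] with y h5 _ using h5.le
    have h4 : Function.support (jpH u p t E φ ρ hi) ∈ nhds y₁ := by
      filter_upwards [h1, h2, h3] with y k1 k2 k3
      rw [Function.mem_support]
      unfold jpH
      rw [if_pos ⟨k2, a, k3⟩, mul_one]
      exact k1.ne'
    exact Measure.measure_pos_of_mem_nhds _ h4
  have hfin : 0 < ∫ c : B → ℝ, Br u p t E φ ρ c * ∏ v, nrm ρ φ v (c v) :=
    (mul_pos hpos hPI).trans_le hge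
  rw [← hone] at hfin
  exact hfin

end MPb07157.EE
end
end

section

/-!
# Theorem E: the translation relation
-/

noncomputable section

namespace MPb07157.EE

open MeasureTheory Finset

variable {B ι : Type} [Fintype B] [DecidableEq B] [Fintype ι] [DecidableEq ι]

theorem e13_integrable (u : B → ι → ℝ) (p : ι → ι) (t : ℝ) (E : Finset ι) {φ : B → ℝ → ℝ}
    {lo m hi : B → ℝ} (hφ : ∀ v, IsBump (φ v) (lo v) (m v) (hi v)) (k : B → ℕ) (T : ℝ)
    (h0 : ∀ y : ι → ℝ, (∃ j, T < |y j|) → Th u p t E φ k y = 0) :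
    Integrable (Th u p t E φ k) := by
  obtain ⟨M, hM⟩ := Th_bound u p t E hφ k
  have hK : IsCompact (Set.pi Set.univ fun _ : ι => Set.Icc (-T) T) :=
    isCompact_univ_pi fun _ => isCompact_Icc
  have h1 : IntegrableOn (Th u p t E φ k) (Set.pi Set.univ fun _ : ι => Set.Icc (-T) T) := by
    refine Measure.integrableOn_of_bounded (M := M) hK.measure_lt_top.ne
      (Th_measurable u p t E hφ k).aestronglyMeasurable ?_
    exact ae_of_all _ fun y => by simpa using hM y
  refine (integrableOn_iff_integrable_of_support_subset ?_).1 h1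
  intro y hy
  rw [Set.mem_univ_pi]
  intro i
  by_contra hh
  refine hy (h0 y ⟨i, ?_⟩)
  by_contra h2
  exact hh (abs_le.1 (not_lt.1 h2))

/-- E-13. The translation relation in the direction of the coordinate `j`. -/
theorem JJ_trans (u : B → ι → ℝ) (p : ι → ι) (t : ℝ) (E : Finset ι) {φ : B → ℝ → ℝ}
    {lo m hi : B → ℝ} (hφ : ∀ v, IsBump (φ v) (lo v) (m v) (hi v)) (κ : B → ℕ) (T : ℝ)
    (hT : ∀ k : B → ℕ, (∀ v, κ v ≤ k v) → ∀ y : ι → ℝ, (∃ j, T < |y j|) →
      Th u p t E φ k y = 0) (j : ι) :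
    ∑ v, u v j * JJ u p t E φ (κ + Pi.single v 1) = 0 := by
  set x : ι → ℝ := Pi.single j 1 with hx
  have hx1 : ∀ i, |x i| ≤ 1 := by
    intro i
    rw [hx]
    by_cases h : i = j
    · subst h
      simp
    · rw [Pi.single_eq_of_ne h]
      simp
  have hlin : ∀ v, lin u v x = u v j := by
    intro v
    unfold lin
    rw [Finset.sum_eq_single j]
    · simp [hx]
    · intro b _ hb
      rw [hx, Pi.single_eq_of_ne hb, mul_zero]
    · intro h
      exact absurd (Finset.mem_univ j) h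
  have hk : ∀ v : B, ∀ w, κ w ≤ (κ + Pi.single v 1 : B → ℕ) w := fun v w => by simp
  have hI : ∀ v, Integrable (Th u p t E φ (κ + Pi.single v 1)) := fun v =>
    e13_integrable u p t E hφ _ T (hT _ (hk v))
  have hI0 : Integrable (Th u p t E φ κ) := e13_integrable u p t E hφ _ T (hT _ fun _ => le_rfl)
  choose M hM using fun v => Th_bound u p t E hφ (κ + Pi.single v 1)
  set K : Set (ι → ℝ) := Set.pi Set.univ fun _ : ι => Set.Icc (-(T + 1)) (T + 1) with hK
  have hKc : IsCompact K := isCompact_univ_pi fun _ => isCompact_Icc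
  set C : ℝ := ∑ v, |lin u v x| * M v with hC
  have main := hasDerivAt_integral_of_dominated_loc_of_deriv_le (μ := (volume : Measure (ι → ℝ)))
    (F := fun (s : ℝ) (y : ι → ℝ) => Th u p t E φ κ (fun i => y i + s * x i))
    (F' := fun (s : ℝ) (y : ι → ℝ) =>
      ∑ v, lin u v x * Th u p t E φ (κ + Pi.single v 1) (fun i => y i + s * x i))
    (x₀ := (0 : ℝ)) (s := Metric.ball (0 : ℝ) 1) (bound := K.indicator fun _ => C)
    (Metric.ball_mem_nhds 0 one_pos) ?_ ?_ ?_ ?_ ?_ ?_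
  · have hconst : ∀ s : ℝ, ∫ y : ι → ℝ, Th u p t E φ κ (fun i => y i + s * x i) = JJ u p t E φ κ := by
      intro s
      have h := integral_add_right_eq_self (μ := (volume : Measure (ι → ℝ))) (Th u p t E φ κ) (s • x)
      exact h
    have hd := main.2
    have hfun : (fun s : ℝ => ∫ y : ι → ℝ, Th u p t E φ κ (fun i => y i + s * x i)) =
        fun _ => JJ u p t E φ κ := funext hconst
    rw [hfun] at hd
    have h0 := hd.unique (hasDerivAt_const (0 : ℝ) (JJ u p t E φ κ))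
    have h1 : ∀ v, ∫ y : ι → ℝ, Th u p t E φ (κ + Pi.single v 1) (fun i => y i + 0 * x i) =
        JJ u p t E φ (κ + Pi.single v 1) := by
      intro v
      unfold JJ
      simp
    have h2 : ∀ v ∈ (Finset.univ : Finset B), Integrable fun y : ι → ℝ =>
        lin u v x * Th u p t E φ (κ + Pi.single v 1) (fun i => y i + 0 * x i) := by
      intro v _
      have := (hI v).const_mul (lin u v x)
      simpa using this
    rw [integral_finsetSum _ h2] at h0
    rw [← h0]
    refine Finset.sum_congr rfl fun v _ => ?_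
    rw [integral_const_mul, h1, hlin]
  · refine Filter.Eventually.of_forall fun s => ?_
    refine Measurable.aestronglyMeasurable ?_
    refine (Th_measurable u p t E hφ κ).comp ?_
    fun_prop
  · simpa using hI0
  · refine Measurable.aestronglyMeasurable ?_
    refine Finset.measurable_sum _ fun v _ => ?_
    refine Measurable.const_mul ?_ _
    refine (Th_measurable u p t E hφ _).comp ?_
    fun_prop
  · refine ae_of_all _ fun y s hs => ?_
    have hs1 : |s| < 1 := by simpa using hs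
    by_cases hy : y ∈ K
    · rw [Set.indicator_of_mem hy]
      refine (norm_sum_le _ _).trans ?_
      rw [hC]
      refine Finset.sum_le_sum fun v _ => ?_
      rw [norm_mul, Real.norm_eq_abs, Real.norm_eq_abs]
      exact mul_le_mul_of_nonneg_left (hM v _) (abs_nonneg _)
    · rw [Set.indicator_of_notMem hy]
      have hy' : ∃ i, T + 1 < |y i| := by
        by_contra hh
        push Not at hh
        refine hy ?_
        rw [hK, Set.mem_univ_pi]
        exact fun i => abs_le.1 (hh i)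
      obtain ⟨i, hi⟩ := hy'
      have h3 : T < |y i + s * x i| := by
        have e1 : |s * x i| ≤ 1 := by
          rw [abs_mul]
          exact mul_le_one₀ hs1.le (abs_nonneg _) (hx1 i)
        have e2 : |y i| ≤ |y i + s * x i| + |s * x i| := by
          have := abs_sub (y i + s * x i) (s * x i)
          simpa using this
        linarith
      have h4 : ∀ v, Th u p t E φ (κ + Pi.single v 1) (fun i => y i + s * x i) = 0 := fun v =>
        hT _ (hk v) (fun i => y i + s * x i) ⟨i, h3⟩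
      simp [h4]
  · rw [integrable_indicator_iff hKc.measurableSet]
    exact integrableOn_const hKc.measure_lt_top.ne
  · exact ae_of_all _ fun y s _ => hasDerivAt_Th u p t E hφ κ x y s

end MPb07157.EE
end
end

section

/-!
# Theorem E: existence of the functional
-/

noncomputable section

namespace MPb07157.EE

open MvPolynomial Finset MeasureTheory NWT10

/-- E-24. Existence of the functional. -/
theorem exists_functionalE {A ι : Type} [Fintype A] [DecidableEq A] [Fintype ι] [DecidableEq ι]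
    (u : A → ι → ℕ) (ρ σ : Finset A) (hσρ : σ ⊆ ρ) (hpos : ∀ j, ∃ v ∈ ρ, 0 < u v j)
    (hcov : ∀ j, (∃ v ∈ σ, 0 < u v j) ∨ ∃ j', j' ≠ j ∧ ∀ v ∈ ρ, u v j' = u v j)
    (b₀ y₀ : ι → ℝ) (hy₀ : ∀ j, b₀ j < y₀ j) (c : A → ℝ) (η : ℝ) (hη : 0 < η)
    (hρ : ∀ v ∈ ρ, ∑ j, (u v j : ℝ) * y₀ j = c v)
    (hout : ∀ v, v ∉ ρ → c v + η < ∑ j, (u v j : ℝ) * y₀ j) :
    ∃ Λ : MvPolynomial A ℚ →ₗ[ℚ] ℝ, Λ (∏ v ∈ ρ \ σ, X v) ≠ 0 ∧
      ∀ (U : Finset A) (P : Finset ι),
        (∀ y : ι → ℝ, (∀ j, b₀ j - η ≤ y j) → (∀ j ∈ P, y j ≤ b₀ j) →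
          (∀ v ∈ U ∪ σ, |∑ j, (u v j : ℝ) * y j - c v| ≤ η) →
          ¬ ∀ v, c v - η ≤ ∑ j, (u v j : ℝ) * y j) →
        ∀ g, Λ (g * ((∏ v ∈ U, X v) * ∏ j ∈ P, ∑ v, C (u v j : ℚ) * X v)) = 0 := by
  classical
  obtain ⟨E, p, hE, hEρ, hEcov⟩ := exists_edges u ρ σ hσρ hcov
  -- the constraints
  let U' : A ⊕ ι → ι → ℝ := Sum.elim (fun v j => (u v j : ℝ)) (fun i j => if j = i then 1 else 0)
  let lo : A ⊕ ι → ℝ := Sum.elim (fun v => c v - η) (fun j => b₀ j - η)
  let hi : A ⊕ ι → ℝ := Sum.elim (fun v => c v + η) b₀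
  let m : A ⊕ ι → ℝ := Sum.elim c (fun j => b₀ j - η / 2)
  have hex : ∀ v : A ⊕ ι, ∃ φ : ℝ → ℝ, IsBump φ (lo v) (m v) (hi v) := by
    rintro (v | j)
    · exact exists_isBump (by simp only [lo, m, Sum.elim_inl]; linarith)
        (by simp only [hi, m, Sum.elim_inl]; linarith)
    · exact exists_isBump (by simp only [lo, m, Sum.elim_inr]; linarith)
        (by simp only [hi, m, Sum.elim_inr]; linarith)
  choose φ hφ using hex
  have hU' : ∀ v j, U' v j = 0 ∨ 1 ≤ U' v j := by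
    rintro (v | i) j
    · simp only [U', Sum.elim_inl]
      rcases Nat.eq_zero_or_pos (u v j) with h | h
      · left; rw [h, Nat.cast_zero]
      · right; exact_mod_cast h
    · simp only [U', Sum.elim_inr]
      split_ifs
      · right; exact le_rfl
      · left; rfl
  have hp : ∀ e ∈ E, p e ≠ e := fun e he h => hE e he (by rw [h]; exact he)
  let σ' : Finset (A ⊕ ι) := σ.map Function.Embedding.inl
  let ρ' : Finset (A ⊕ ι) := ρ.map Function.Embedding.inl
  have hcov' : ∀ j, (∃ v ∈ σ', 1 ≤ U' v j) ∨ ∃ e ∈ E, j = e ∨ j = p e := by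
    intro j
    rcases hEcov j with ⟨v, hv, h⟩ | h
    · left
      refine ⟨Sum.inl v, Finset.mem_map_of_mem _ hv, ?_⟩
      simp only [U', Sum.elim_inl]
      exact_mod_cast h
    · exact Or.inr h
  obtain ⟨T, hT⟩ := Th_support U' hU' Sum.inr (fun j i => by simp only [U', Sum.elim_inr]) p 1
    zero_le_one E hp hφ σ' hcov'
  have hlin : ∀ (v : A) (y : ι → ℝ), lin U' (Sum.inl v) y = ∑ j, (u v j : ℝ) * y j := fun _ _ => rfl
  have hlinr : ∀ (i : ι) (y : ι → ℝ), lin U' (Sum.inr i) y = y i := by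
    intro i y
    simp only [lin, U', Sum.elim_inr, ite_mul, one_mul, zero_mul]
    rw [Finset.sum_ite_eq' univ i y, if_pos (Finset.mem_univ _)]
  -- the values on monomials
  let one : A ⊕ ι →₀ ℕ := ∑ v ∈ σ, Finsupp.single (Sum.inl v) 1
  have hone : ∀ v ∈ σ', 1 ≤ one v := by
    intro v hv
    obtain ⟨a, ha, rfl⟩ := Finset.mem_map.1 hv
    simp only [one, Finsupp.finsetSum_apply]
    refine le_trans ?_ (Finset.single_le_sum (f := fun x => (Finsupp.single (Sum.inl x) 1 :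
      A ⊕ ι →₀ ℕ) (Function.Embedding.inl a)) (fun _ _ => Nat.zero_le _) ha)
    simp
  let I : (A ⊕ ι →₀ ℕ) → ℝ := fun κ => JJ U' p 1 E φ (fun v => (κ + one) v)
  have hI : ∀ (κ : A ⊕ ι →₀ ℕ) (j : ι), ∑ v, (u v j : ℝ) * I (κ + Finsupp.single (Sum.inl v) 1) +
      I (κ + Finsupp.single (Sum.inr j) 1) = 0 := by
    intro κ j
    have h1 := JJ_trans U' p 1 E hφ (fun v => (κ + one) v) T (fun k hk => hT k fun v hv => by
      have := hk v
      have h2 := hone v hv
      simp only [Finsupp.add_apply] at this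
      omega) j
    rw [Fintype.sum_sum_type] at h1
    have h2 : ∑ i, U' (Sum.inr i) j * JJ U' p 1 E φ ((fun v => (κ + one) v) +
        Pi.single (Sum.inr i) 1) = I (κ + Finsupp.single (Sum.inr j) 1) := by
      rw [Finset.sum_eq_single j]
      · simp only [U', Sum.elim_inr, if_true, one_mul, I]
        congr 1
        funext v
        simp only [Finsupp.add_apply, Pi.add_apply, Finsupp.single_apply, Pi.single_apply]
        by_cases h : v = Sum.inr j
        · subst h; simp; ring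
        · rw [if_neg h, if_neg (fun h' => h h'.symm)]; simp
      · intro i _ hi
        simp only [U', Sum.elim_inr, if_neg (Ne.symm hi), zero_mul]
      · intro h
        exact absurd (Finset.mem_univ _) h
    rw [h2] at h1
    rw [← h1]
    congr 1
    refine Finset.sum_congr rfl fun v _ => ?_
    simp only [U', Sum.elim_inl, I]
    congr 2
    funext w
    simp only [Finsupp.add_apply, Pi.add_apply, Finsupp.single_apply, Pi.single_apply]
    by_cases h : w = Sum.inl v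
    · subst h; simp; ring
    · rw [if_neg h, if_neg (fun h' => h h'.symm)]; simp
  refine ⟨LQ (fun k => I (k.mapDomain Sum.inl)), ?_, ?_⟩
  · -- positivity
    have hpos' := JJ_pos U' hU' Sum.inr (fun j i => by simp only [U', Sum.elim_inr]) p 1 one_pos E
      hE hφ ρ' (fun j h => by
        obtain ⟨a, _, ha⟩ := Finset.mem_map.1 h
        simp at ha)
      (by
        intro v hv e he
        obtain ⟨a, ha, rfl⟩ := Finset.mem_map.1 hv
        simp only [U', Function.Embedding.inl_apply, Sum.elim_inl]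
        rw [hEρ e he a ha])
      (by
        intro j
        obtain ⟨v, hv, h⟩ := hpos j
        refine ⟨Sum.inl v, Finset.mem_map_of_mem _ hv, ?_⟩
        simp only [U', Sum.elim_inl]
        exact_mod_cast h)
      y₀
      (by
        intro v hv
        obtain ⟨a, ha, rfl⟩ := Finset.mem_map.1 hv
        simp only [Function.Embedding.inl_apply, hlin, m, Sum.elim_inl]
        exact hρ a ha)
      (by
        rintro (v | j) hv
        · rw [hlin]
          simp only [hi, Sum.elim_inl]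
          exact hout v (fun h => hv (Finset.mem_map_of_mem _ h))
        · rw [hlinr]
          simp only [hi, Sum.elim_inr]
          exact hy₀ j)
    set k₀ : A →₀ ℕ := ∑ v ∈ ρ \ σ, Finsupp.single v 1 with hk₀
    have hmap : map (algebraMap ℚ ℝ) (∏ v ∈ ρ \ σ, X v : MvPolynomial A ℚ) =
        monomial k₀ (1 : ℝ) := by
      rw [map_prod, hk₀, monomial_sum_one]
      refine Finset.prod_congr rfl fun v _ => ?_
      rw [map_X]
      rfl
    have hval : LQ (fun k => I (k.mapDomain Sum.inl)) (∏ v ∈ ρ \ σ, X v) =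
        JJ U' p 1 E φ (fun v => if v ∈ ρ' then 1 else 0) := by
      change LI _ (map (algebraMap ℚ ℝ) (∏ v ∈ ρ \ σ, X v)) = _
      rw [hmap, LI_monomial, one_mul]
      simp only [I]
      congr 1
      funext v
      have e1 : (k₀.mapDomain Sum.inl : A ⊕ ι →₀ ℕ) = ∑ v ∈ ρ \ σ, Finsupp.single (Sum.inl v) 1 := by
        rw [hk₀, Finsupp.mapDomain_finsetSum]
        exact Finset.sum_congr rfl fun v _ => Finsupp.mapDomain_single
      have e2 : (k₀.mapDomain Sum.inl : A ⊕ ι →₀ ℕ) + one = ∑ v ∈ ρ, Finsupp.single (Sum.inl v) 1 := by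
        rw [e1]
        exact Finset.sum_sdiff hσρ
      rw [e2, Finsupp.finsetSum_apply]
      rcases v with a | j
      · simp only [Finsupp.single_apply, Sum.inl.injEq, ρ']
        rw [Finset.sum_ite_eq' ρ a (fun _ => 1)]
        by_cases ha : a ∈ ρ
        · have h : (Sum.inl a : A ⊕ ι) ∈ Finset.map Function.Embedding.inl ρ :=
            Finset.mem_map.2 ⟨a, ha, rfl⟩
          rw [if_pos ha, if_pos h]
        · rw [if_neg ha, if_neg]
          intro h
          obtain ⟨b, hb, hb'⟩ := Finset.mem_map.1 h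
          simp only [Function.Embedding.inl_apply, Sum.inl.injEq] at hb'
          exact ha (hb' ▸ hb)
      · rw [if_neg (fun h => by
          obtain ⟨b, hb, hb'⟩ := Finset.mem_map.1 h
          simp at hb')]
        simp
    rw [hval]
    exact hpos'.ne'
  · intro U P hUP g
    change LI _ (map (algebraMap ℚ ℝ) _) = 0
    have hmap : map (algebraMap ℚ ℝ)
        (g * ((∏ v ∈ U, X v) * ∏ j ∈ P, ∑ v, C (u v j : ℚ) * X v)) =
        map (algebraMap ℚ ℝ) g * ((∏ v ∈ U, X v) * ∏ j ∈ P, ∑ v, C (u v j : ℝ) * X v) := by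
      simp only [map_mul, map_prod, map_sum, map_X, map_natCast]
    rw [hmap]
    refine alg_vanish (fun v j => (u v j : ℝ)) I hI U P ?_ _
    intro κ hκU hκP
    have h1 : ∀ y, Th U' p 1 E φ (fun v => (κ + one) v) y = 0 := by
      intro y
      refine Th_eq_zero U' p 1 E hφ (U.map Function.Embedding.inl ∪ P.map Function.Embedding.inr ∪ σ')
        _ ?_ y ?_
      · intro v hv
        rcases Finset.mem_union.1 hv with hv | hv
        · rcases Finset.mem_union.1 hv with hv | hv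
          · obtain ⟨a, ha, rfl⟩ := Finset.mem_map.1 hv
            have := hκU a ha
            simp only [Finsupp.add_apply, Function.Embedding.inl_apply]
            omega
          · obtain ⟨a, ha, rfl⟩ := Finset.mem_map.1 hv
            have := hκP a ha
            simp only [Finsupp.add_apply, Function.Embedding.inr_apply]
            omega
        · have := hone v hv
          simp only [Finsupp.add_apply]
          omega
      · intro S _ r _ hlo
        by_contra hcon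
        push Not at hcon
        refine hUP (pt p 1 S y r) ?_ ?_ ?_ ?_
        · intro j
          have := hlo (Sum.inr j)
          rw [hlinr] at this
          exact this
        · intro j hj
          have := hcon (Sum.inr j) (by
            refine Finset.mem_union_left _ (Finset.mem_union_right _ ?_)
            exact Finset.mem_map_of_mem _ hj)
          rw [hlinr] at this
          exact this
        · intro v hv
          have h2 := hlo (Sum.inl v)
          have h3 := hcon (Sum.inl v) (by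
            rcases Finset.mem_union.1 hv with hv | hv
            · exact Finset.mem_union_left _ (Finset.mem_union_left _
                (Finset.mem_map_of_mem _ hv))
            · exact Finset.mem_union_right _ (Finset.mem_map_of_mem _ hv))
          rw [hlin] at h2 h3
          simp only [lo, hi, Sum.elim_inl] at h2 h3
          rw [abs_le]
          constructor <;> linarith
        · intro v
          have := hlo (Sum.inl v)
          rw [hlin] at this
          exact this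
    have h2 : Th U' p 1 E φ (fun v => (κ + one) v) = fun _ => 0 := funext h1
    simp only [I, JJ]
    rw [h2]
    exact integral_zero _ _

end MPb07157.EE
end
end

section

/-!
# Theorem E: the core
-/

noncomputable section

namespace MPb07157

open MvPolynomial Finset

variable {n : ℕ} {f : MvPolynomial (Fin n) ℂ}

private theorem LF_dvd_RMP {γ : Sf f → ℚ} {Q : Finset (Fin n)}
    (hγ : ∀ j ∈ Q, ∑ v, γ v * ((v.1 j : ℕ) : ℚ) = 1) (β m : Fin n →₀ ℕ)
    (P : Finset {j // j ∈ Q}) (hP : ∀ j ∈ P, m j.1 < β j.1) :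
    (∏ j ∈ P, ∑ v : Sf f, (C ((v.1 j.1 : ℕ) : ℚ) * X v : MvPolynomial (Sf f) ℚ)) ∣
      RM (fun v => -γ v) β m := by
  classical
  unfold RM
  have h1 : ∀ j ∈ P, (∑ v : Sf f, (C ((v.1 j.1 : ℕ) : ℚ) * X v : MvPolynomial (Sf f) ℚ)) ∣
      ∏ e ∈ range (β j.1), ((∑ v : Sf f, C ((v.1 j.1 : ℕ) : ℚ) * (C (-γ v) + X v)) -
        C ((m j.1 : ℕ) : ℚ) + 1 + C (e : ℚ)) := by
    intro j hj
    have h2 := Finset.dvd_prod_of_mem (fun e : ℕ => ((∑ v : Sf f, C ((v.1 j.1 : ℕ) : ℚ) *
      (C (-γ v) + X v)) - C ((m j.1 : ℕ) : ℚ) + 1 + C (e : ℚ) : MvPolynomial (Sf f) ℚ))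
      (Finset.mem_range.2 (hP j hj))
    have h3 : ((∑ v : Sf f, C ((v.1 j.1 : ℕ) : ℚ) * (C (-γ v) + X v)) - C ((m j.1 : ℕ) : ℚ) + 1 +
        C ((m j.1 : ℕ) : ℚ) : MvPolynomial (Sf f) ℚ) =
        ∑ v : Sf f, C ((v.1 j.1 : ℕ) : ℚ) * X v := by
      have h4 : (∑ v : Sf f, C ((v.1 j.1 : ℕ) : ℚ) * (C (-γ v) + X v) : MvPolynomial (Sf f) ℚ) =
          -C (∑ v : Sf f, γ v * ((v.1 j.1 : ℕ) : ℚ)) + ∑ v : Sf f, C ((v.1 j.1 : ℕ) : ℚ) * X v := by
        rw [map_sum, ← Finset.sum_neg_distrib, ← Finset.sum_add_distrib]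
        refine Finset.sum_congr rfl fun v _ => ?_
        rw [C_neg, C_mul]
        ring
      rw [h4, hγ j.1 j.2, C_1]
      ring
    beta_reduce at h2
    rw [h3] at h2
    exact h2
  refine (Finset.prod_dvd_prod_of_dvd _ _ h1).trans ?_
  have h2 : ∏ j ∈ P, (∏ e ∈ range (β j.1), ((∑ v : Sf f, C ((v.1 j.1 : ℕ) : ℚ) *
      (C (-γ v) + X v)) - C ((m j.1 : ℕ) : ℚ) + 1 + C (e : ℚ)) : MvPolynomial (Sf f) ℚ) =
      ∏ j ∈ P.map (Function.Embedding.subtype _), ∏ e ∈ range (β j),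
        ((∑ v : Sf f, C ((v.1 j : ℕ) : ℚ) *
      (C (-γ v) + X v)) - C ((m j : ℕ) : ℚ) + 1 + C (e : ℚ)) := by
    rw [Finset.prod_map]
    rfl
  rw [h2]
  exact Finset.prod_dvd_prod_of_subset _ _ _ (Finset.subset_univ _)

/-- The choice of `θ`. -/
private theorem core_theta (y₁ : Fin n → ℝ) (KS : ℝ) (hKS : 0 ≤ KS) :
    ∃ θ : ℝ, 0 < θ ∧ (∀ j, 0 < y₁ j → θ < y₁ j) ∧ θ * KS ≤ 1 / 4 := by
  have h1 : ∀ᶠ θ : ℝ in nhdsWithin 0 (Set.Ioi 0), ∀ j, 0 < y₁ j → θ < y₁ j := by
    refine Filter.eventually_all.2 fun j => ?_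
    by_cases hj : 0 < y₁ j
    · filter_upwards [mem_nhdsWithin_of_mem_nhds (Iio_mem_nhds hj)] with θ hθ _
      exact hθ
    · exact Filter.Eventually.of_forall fun θ h => absurd h hj
  have h2 : ∀ᶠ θ : ℝ in nhdsWithin 0 (Set.Ioi 0), θ < 1 / (4 * (KS + 1)) :=
    mem_nhdsWithin_of_mem_nhds (Iio_mem_nhds (by positivity))
  have h3 : ∀ᶠ θ : ℝ in nhdsWithin 0 (Set.Ioi 0), 0 < θ :=
    eventually_nhdsWithin_of_forall fun θ hθ => hθ
  obtain ⟨θ, a, b, c⟩ := (h1.and (h2.and h3)).exists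
  refine ⟨θ, c, a, ?_⟩
  rw [lt_div_iff₀ (by positivity)] at b
  nlinarith

/-- The choice of `η`. -/
private theorem core_eta (a b B : ℝ) (hB : 0 < B) :
    ∃ η : ℝ, 0 < η ∧ η < 1 ∧ η * a + η ^ 2 * (b + 1) < B ∧ η * b < 1 := by
  have hc : Continuous fun η : ℝ => η * a + η ^ 2 * (b + 1) := by fun_prop
  have hc2 : Continuous fun η : ℝ => η * b := by fun_prop
  have h1 : ∀ᶠ η : ℝ in nhdsWithin 0 (Set.Ioi 0), η * a + η ^ 2 * (b + 1) < B :=
    (hc.continuousWithinAt (s := Set.Ioi 0) (x := 0)).eventually (Iio_mem_nhds (by simpa using hB))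
  have h2 : ∀ᶠ η : ℝ in nhdsWithin 0 (Set.Ioi 0), η * b < 1 :=
    (hc2.continuousWithinAt (s := Set.Ioi 0) (x := 0)).eventually (Iio_mem_nhds (by simp))
  have h3 : ∀ᶠ η : ℝ in nhdsWithin 0 (Set.Ioi 0), 0 < η :=
    eventually_nhdsWithin_of_forall fun θ hθ => hθ
  have h4 : ∀ᶠ η : ℝ in nhdsWithin 0 (Set.Ioi 0), η < 1 :=
    mem_nhdsWithin_of_mem_nhds (Iio_mem_nhds one_pos)
  obtain ⟨η, k1, k2, k3, k4⟩ := (h1.and (h2.and (h3.and h4))).exists
  exact ⟨η, k3, k4, k1, k2⟩

set_option maxHeartbeats 4000000 in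
open Classical in
/-- E-25. The data needed by the extraction theorems `rootM` and `rootML`. -/
theorem twin_core (P : Finset (Fin n)) (ρ : Finset (Sf f))
    (lin : ∀ g : Sf f → ℚ, (∀ v, v ∉ ρ → g v = 0) →
      (∀ j, ∑ v, g v * ((v.1 j : ℕ) : ℚ) = 0) → g = 0)
    (γ : Sf f → ℚ) (hγ0 : ∀ v, v ∉ ρ → γ v = 0)
    (hγ : ∀ j ∈ P, ∑ v, γ v * ((v.1 j : ℕ) : ℚ) = 1)
    (htw : ∀ j ∈ P, (∃ v ∈ ρ, (∀ k : ℕ, γ v ≠ k + 1) ∧ 0 < v.1 j) ∨
      ∃ j' ∈ P, j' ≠ j ∧ ∀ v ∈ ρ, v.1 j' = v.1 j)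
    (K : ℕ) (y₁ τ : Fin n → ℝ) (hyP : ∀ j ∈ P, 0 < y₁ j) (hy0 : ∀ j, 0 ≤ y₁ j)
    (hρ : ∀ v ∈ ρ, ∑ j, ((v.1 j : ℕ) : ℝ) * y₁ j = 1 + ∑ j, ((v.1 j : ℕ) : ℝ) * τ j)
    (hout : ∀ v : Sf f, 1 + ∑ j, ((v.1 j : ℕ) : ℝ) * τ j ≤ ∑ j, ((v.1 j : ℕ) : ℝ) * y₁ j)
    (h4 : ∀ δ : Sf f → ℤ, (∀ v, |δ v| ≤ K) → ∑ v, δ v = 1 →
      ∑ j ∈ Pᶜ, ((∑ v, δ v * ((v.1 j : ℕ) : ℤ) : ℤ) : ℝ) * y₁ j -
        ∑ j, ((∑ v, δ v * ((v.1 j : ℕ) : ℤ) : ℤ) : ℝ) * τ j ≤ 1 / 4) :
    ∃ (E : ℕ) (α : Sf f → ℕ) (Λ : MvPolynomial (Sf f) ℚ →ₗ[ℚ] ℝ), K ≤ E ∧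
      (∀ g, Λ ((∑ v, X v) ^ ((ρ.filter fun v => ∃ k : ℕ, γ v = k + 1).card + 1) * g) = 0) ∧
      Λ (PM (fun v => -γ v) E 0) ≠ 0 ∧
      (∀ δ : Sf f → ℤ, δ ≠ 0 → (∀ v, |δ v| ≤ K) → ∑ v, δ v = 0 → ∀ μ : Fin n →₀ ℕ,
        (∀ j, ∑ v, δ v * ((v.1 j : ℕ) : ℤ) = -(μ j : ℤ)) →
        (μ = 0 ∨ (∀ j, 0 < y₁ j) ∧ ∀ j, τ j = 0) →
        (μ = 0 ∧ 0 < ∑ v, (α v : ℤ) * δ v) ∨ ∀ g, Λ (g * PM (fun v => -γ v) E δ) = 0) ∧
      ∀ δ : Sf f → ℤ, (∀ v, |δ v| ≤ K) → ∑ v, δ v = 1 →
        ∀ β m : Fin n →₀ ℕ, (∀ j, ∑ v, δ v * ((v.1 j : ℕ) : ℤ) = (β j : ℤ) - m j) →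
        ∀ g, Λ (g * (RM (fun v => -γ v) β m * PM (fun v => -γ v) E δ)) = 0 := by
  -- the sets
  set R : Finset (Sf f) := ρ.filter fun v => ∃ k : ℕ, γ v = k + 1 with hR
  set σ : Finset (Sf f) := ρ.filter fun v => ∀ k : ℕ, γ v ≠ k + 1 with hσ
  have hσρ : σ ⊆ ρ := Finset.filter_subset _ _
  have hRσ : ρ \ σ = R := by
    ext v
    rw [Finset.mem_sdiff, hσ, hR, Finset.mem_filter, Finset.mem_filter]
    constructor
    · rintro ⟨h1, h2⟩
      refine ⟨h1, ?_⟩
      by_contra h3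
      push Not at h3
      exact h2 ⟨h1, h3⟩
    · rintro ⟨h1, k, hk⟩
      exact ⟨h1, fun h => h.2 k hk⟩
  have hmemR : ∀ v, v ∈ R ↔ ∃ k : ℕ, γ v = k + 1 := by
    intro v
    rw [hR, Finset.mem_filter]
    constructor
    · exact fun h => h.2
    · rintro ⟨k, hk⟩
      refine ⟨?_, k, hk⟩
      by_contra h
      rw [hγ0 v h] at hk
      have : (0 : ℚ) ≤ k := by positivity
      linarith
  -- constants
  obtain ⟨α, hαρ, hα1, hαgen⟩ := exists_generic_weights ρ K
  obtain ⟨M, hM⟩ : ∃ M : ℕ, M = ∑ v, α v := ⟨_, rfl⟩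
  obtain ⟨c₀, hc₀⟩ : ∃ c : ℕ, c = Fintype.card (Sf f) := ⟨_, rfl⟩
  obtain ⟨S, hS⟩ : ∃ S : ℝ, S = ∑ v : Sf f, ∑ j, ((v.1 j : ℕ) : ℝ) := ⟨_, rfl⟩
  have hS0 : 0 ≤ S := by rw [hS]; positivity
  have hM0 : (0 : ℝ) ≤ M := by positivity
  have hK0 : (0 : ℝ) ≤ K := by positivity
  have hc0 : (0 : ℝ) ≤ c₀ := by positivity
  obtain ⟨θ, hθ0, hθy, hθK⟩ := core_theta y₁ (K * S) (by positivity)
  obtain ⟨η, hη0, hη1, hηB, hηK⟩ := core_eta (M * K) (K * c₀) (min (θ / 2) (1 / 4))
    (lt_min (by positivity) (by norm_num))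
  have hB1 : η * (M * K) + η ^ 2 * (K * c₀ + 1) < θ / 2 := hηB.trans_le (min_le_left _ _)
  have hB2 : η * (M * K) + η ^ 2 * (K * c₀ + 1) < 1 / 4 := hηB.trans_le (min_le_right _ _)
  have hη2 : 0 < η ^ 2 := by positivity
  have hMK : 0 ≤ η * (M * K) := by positivity
  have hKc : 0 ≤ η ^ 2 * (K * c₀) := by positivity
  have hηθ : η ^ 2 < θ / 2 := by
    have : η ^ 2 * (K * c₀ + 1) = η ^ 2 * (K * c₀) + η ^ 2 := by ring
    linarith
  -- the reference point
  let V : ({j // j ∈ P} → ℝ) → Sf f → ℝ := fun y v =>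
    ∑ j : {j // j ∈ P}, ((v.1 j.1 : ℕ) : ℝ) * y j
  let ζ : Sf f → ℝ := fun v => ∑ j ∈ Pᶜ, ((v.1 j : ℕ) : ℝ) * y₁ j
  let T : Sf f → ℝ := fun v => ∑ j, ((v.1 j : ℕ) : ℝ) * τ j
  let c : Sf f → ℝ := fun v => 1 + T v - η * α v - ζ v
  let y₀ : {j // j ∈ P} → ℝ := fun j => y₁ j.1
  have hsplit : ∀ g : Fin n → ℝ, ∑ j, g j = ∑ j : {j // j ∈ P}, g j.1 + ∑ j ∈ Pᶜ, g j := by
    intro g
    rw [← Finset.sum_add_sum_compl P g, ← Finset.sum_coe_sort P g]
  have hVζ : ∀ v : Sf f, V y₀ v + ζ v = ∑ j, ((v.1 j : ℕ) : ℝ) * y₁ j := by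
    intro v
    rw [hsplit fun j => ((v.1 j : ℕ) : ℝ) * y₁ j]
  have hcρ : ∀ v ∈ ρ, V y₀ v = c v := by
    intro v hv
    have h1 := hVζ v
    rw [hρ v hv] at h1
    simp only [c, T]
    rw [hαρ v hv]
    push_cast
    linarith
  have hcout : ∀ v, v ∉ ρ → c v + η ^ 2 < V y₀ v := by
    intro v hv
    have h1 := hVζ v
    have h2 := hout v
    have h6 : (1 : ℝ) ≤ α v := by exact_mod_cast hα1 v hv
    have h7 : η ^ 2 < η := by nlinarith
    have h8 : η ≤ η * α v := by nlinarith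
    simp only [c, T]
    linarith
  obtain ⟨Λ, hΛ0, hΛ⟩ := EE.exists_functionalE (fun (v : Sf f) (j : {j // j ∈ P}) => v.1 j.1) ρ σ hσρ
    (fun j => by
      by_contra h
      push Not at h
      have h1 := hγ j.1 j.2
      rw [Finset.sum_eq_zero] at h1
      · exact zero_ne_one h1
      · intro v _
        by_cases hv : v ∈ ρ
        · have h2 : v.1 j.1 = 0 := by have := h v hv; omega
          rw [h2, Nat.cast_zero, mul_zero]
        · rw [hγ0 v hv, zero_mul])
    (fun j => by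
      rcases htw j.1 j.2 with ⟨v, hv, h1, h2⟩ | ⟨j', hj', h1, h2⟩
      · exact Or.inl ⟨v, Finset.mem_filter.2 ⟨hv, h1⟩, h2⟩
      · exact Or.inr ⟨⟨j', hj'⟩, fun h => h1 (congrArg Subtype.val h), h2⟩)
    (fun _ => θ) y₀ (fun j => hθy j.1 (hyP j.1 j.2)) c (η ^ 2) (by positivity) hcρ hcout
  -- termwise bounds
  have hterm : ∀ (δ : Sf f → ℤ) (y : {j // j ∈ P} → ℝ), (∀ v, |δ v| ≤ K) →
      (∀ v ∈ negSet γ δ ∪ σ, |V y v - c v| ≤ η ^ 2) → (∀ v : Sf f, c v - η ^ 2 ≤ V y v) →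
      ∀ v, -(η ^ 2 * K) ≤ (δ v : ℝ) * (V y v - c v) := by
    intro δ y hδK h1 h2 v
    have hδv : |(δ v : ℝ)| ≤ K := by exact_mod_cast hδK v
    by_cases hv : v ∈ negSet γ δ ∪ σ
    · have h3 := h1 v hv
      have h4 : |(δ v : ℝ) * (V y v - c v)| ≤ K * η ^ 2 := by
        rw [abs_mul]
        exact mul_le_mul hδv h3 (abs_nonneg _) hK0
      have h5 := (abs_le.1 h4).1
      linarith
    · rw [Finset.mem_union, not_or] at hv
      have h3 : 0 ≤ δ v := by
        by_cases hvρ : v ∈ ρ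
        · have h4 : v ∈ R := by rw [← hRσ]; exact Finset.mem_sdiff.2 ⟨hvρ, hv.2⟩
          obtain ⟨k, hk⟩ := (hmemR v).1 h4
          by_contra h5
          apply hv.1
          rw [mem_negSet]
          exact ⟨(k : ℤ) + 1, by rw [hk]; push_cast; rfl, by omega⟩
        · by_contra h5
          apply hv.1
          rw [mem_negSet]
          exact ⟨0, by rw [hγ0 v hvρ]; simp, by omega⟩
      have h4 : (0 : ℝ) ≤ δ v := by exact_mod_cast h3
      have h5 := h2 v
      have h6 := (abs_le.1 hδv).2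
      have h7 : (δ v : ℝ) * (-(η ^ 2)) ≤ δ v * (V y v - c v) :=
        mul_le_mul_of_nonneg_left (by linarith) h4
      have h8 : (δ v : ℝ) * η ^ 2 ≤ K * η ^ 2 := mul_le_mul_of_nonneg_right h6 hη2.le
      linarith
  have htotal : ∀ (δ : Sf f → ℤ) (y : {j // j ∈ P} → ℝ),
      ∑ v, (δ v : ℝ) * (V y v - c v) =
        ∑ j : {j // j ∈ P}, ((∑ v, δ v * ((v.1 j.1 : ℕ) : ℤ) : ℤ) : ℝ) * y j -
        ((∑ v, δ v : ℤ) : ℝ) + η * ((∑ v, (α v : ℤ) * δ v : ℤ) : ℝ) +
        (∑ j ∈ Pᶜ, ((∑ v, δ v * ((v.1 j : ℕ) : ℤ) : ℤ) : ℝ) * y₁ j -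
          ∑ j, ((∑ v, δ v * ((v.1 j : ℕ) : ℤ) : ℤ) : ℝ) * τ j) := by
    intro δ y
    have e1 : ∑ j : {j // j ∈ P}, ((∑ v, δ v * ((v.1 j.1 : ℕ) : ℤ) : ℤ) : ℝ) * y j =
        ∑ v, (δ v : ℝ) * V y v := by
      simp only [V]
      push_cast
      simp only [Finset.sum_mul, Finset.mul_sum]
      rw [Finset.sum_comm]
      exact Finset.sum_congr rfl fun v _ => Finset.sum_congr rfl fun j _ => by ring
    have e2 : ∑ j ∈ Pᶜ, ((∑ v, δ v * ((v.1 j : ℕ) : ℤ) : ℤ) : ℝ) * y₁ j =
        ∑ v, (δ v : ℝ) * ζ v := by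
      simp only [ζ]
      push_cast
      simp only [Finset.sum_mul, Finset.mul_sum]
      rw [Finset.sum_comm]
      exact Finset.sum_congr rfl fun v _ => Finset.sum_congr rfl fun j _ => by ring
    have e3 : ∑ j, ((∑ v, δ v * ((v.1 j : ℕ) : ℤ) : ℤ) : ℝ) * τ j =
        ∑ v, (δ v : ℝ) * T v := by
      simp only [T]
      push_cast
      simp only [Finset.sum_mul, Finset.mul_sum]
      rw [Finset.sum_comm]
      exact Finset.sum_congr rfl fun v _ => Finset.sum_congr rfl fun j _ => by ring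
    rw [e1, e2, e3]
    push_cast
    rw [Finset.mul_sum, ← Finset.sum_sub_distrib, ← Finset.sum_sub_distrib,
      ← Finset.sum_add_distrib, ← Finset.sum_add_distrib]
    refine Finset.sum_congr rfl fun v _ => ?_
    simp only [c]
    ring
  have hαδ : ∀ δ : Sf f → ℤ, (∀ v, |δ v| ≤ K) →
      |((∑ v, (α v : ℤ) * δ v : ℤ) : ℝ)| ≤ M * K := by
    intro δ hδK
    rw [← Int.cast_abs]
    have h1 : |∑ v, (α v : ℤ) * δ v| ≤ M * K := by
      refine (Finset.abs_sum_le_sum_abs _ _).trans ?_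
      rw [hM]
      push_cast
      rw [Finset.sum_mul]
      refine Finset.sum_le_sum fun v _ => ?_
      rw [abs_mul, Nat.abs_cast]
      exact mul_le_mul_of_nonneg_left (hδK v) (by positivity)
    exact_mod_cast h1
  have hlow : ∀ (δ : Sf f → ℤ) (y : {j // j ∈ P} → ℝ), (∀ v, |δ v| ≤ K) →
      (∀ v ∈ negSet γ δ ∪ σ, |V y v - c v| ≤ η ^ 2) → (∀ v : Sf f, c v - η ^ 2 ≤ V y v) →
      -(η ^ 2 * (K * c₀)) ≤ ∑ v, (δ v : ℝ) * (V y v - c v) := by
    intro δ y hδK h1 h2
    have h3 := Finset.sum_le_sum fun v (_ : v ∈ (univ : Finset (Sf f))) =>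
      hterm δ y hδK h1 h2 v
    rw [Finset.sum_const, Finset.card_univ, ← hc₀, nsmul_eq_mul] at h3
    linarith
  set E : ℕ := K + ∑ v, ⌈|γ v|⌉₊ with hE
  have hEγ : ∀ v, ∀ g : ℤ, γ v = g → g ≤ E := by
    intro v g hg
    have h1 : (g : ℚ) ≤ ⌈|γ v|⌉₊ := by
      rw [← hg]
      exact (le_abs_self _).trans (Nat.le_ceil _)
    have h2 : g ≤ (⌈|γ v|⌉₊ : ℤ) := by exact_mod_cast h1
    have h3 : ⌈|γ v|⌉₊ ≤ ∑ v, ⌈|γ v|⌉₊ :=
      Finset.single_le_sum (f := fun v => ⌈|γ v|⌉₊) (fun _ _ => Nat.zero_le _) (Finset.mem_univ v)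
    omega
  have hXhom : ∀ U : Finset (Sf f), (∏ v ∈ U, (X v : MvPolynomial (Sf f) ℚ)).IsHomogeneous U.card := by
    intro U
    have := IsHomogeneous.prod U (fun v => (X v : MvPolynomial (Sf f) ℚ)) (fun _ => 1)
      fun v _ => isHomogeneous_X _ v
    simpa using this
  have hLhom : ∀ P' : Finset {j // j ∈ P}, (∏ j ∈ P', ∑ v : Sf f,
      (C ((v.1 j.1 : ℕ) : ℚ) * X v : MvPolynomial (Sf f) ℚ)).IsHomogeneous P'.card := by
    intro P'
    have := IsHomogeneous.prod P' (fun j => ∑ v : Sf f,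
      (C ((v.1 j.1 : ℕ) : ℚ) * X v : MvPolynomial (Sf f) ℚ)) (fun _ => 1)
      fun j _ => IsHomogeneous.sum _ _ _ fun v _ => isHomogeneous_C_mul_X _ v
    simpa using this
  refine ⟨E, α, Λ ∘ₗ (homogeneousComponent R.card), by omega, ?_, ?_, ?_, ?_⟩
  · intro g
    rw [LinearMap.comp_apply, mul_comm, homComp_high _ (R.card + 1) (by omega) _ _ ?_, map_zero]
    have := (IsHomogeneous.sum (univ : Finset (Sf f)) (fun v => (X v : MvPolynomial (Sf f) ℚ)) 1
      fun v _ => isHomogeneous_X _ v).pow (R.card + 1)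
    simpa using this
  · obtain ⟨h, hh, hh0⟩ := PM_zero_eq hEγ R hmemR
    rw [LinearMap.comp_apply, hh, homComp_low _ _ _ (hXhom _), ← smul_eq_C_mul, map_smul]
    rw [hRσ] at hΛ0
    exact smul_ne_zero hh0 hΛ0
  · intro δ hδ0 hδK hδs μ hδj hμτ
    by_cases hpos : μ = 0 ∧ 0 < ∑ v, (α v : ℤ) * δ v
    · exact Or.inl hpos
    right
    intro g
    obtain ⟨h, hh⟩ := negSet_dvd_PM hEγ δ
    have hkill := hΛ (negSet γ δ) ∅ ?_
    · rw [LinearMap.comp_apply, hh, mul_left_comm, mul_comm]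
      refine homComp_mul _ _ _ _ (hXhom _) Λ fun g' => ?_
      have := hkill g'
      simpa using this
    · intro y hy0 _ h1 h2
      have h3 := hlow δ y hδK h1 h2
      have h3t := htotal δ y
      rw [hδs, Int.cast_zero, sub_zero] at h3t
      have hDj : ∀ j, ((∑ v, δ v * ((v.1 j : ℕ) : ℤ) : ℤ) : ℝ) = -((μ j : ℕ) : ℝ) := by
        intro j
        rw [hδj]
        push_cast
        ring
      simp only [hDj] at h3t
      have hαb := abs_le.1 (hαδ δ hδK)
      by_cases hμ : μ = 0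
      · -- the usual argument
        subst hμ
        simp only [Finsupp.coe_zero, Pi.zero_apply, Nat.cast_zero, neg_zero, zero_mul,
          Finset.sum_const_zero, zero_add, add_zero, sub_zero] at h3t
        have h6 : (∑ v, (α v : ℤ) * δ v) ≠ 0 := by
          intro h6
          have h7 := hαgen δ hδK h6
          apply hδ0
          have h8 := lin (fun v => (δ v : ℚ)) (fun v hv => by
            rw [h7 v hv, Int.cast_zero]) (fun j => by
            have := hδj j
            have h9 : ((∑ v, δ v * ((v.1 j : ℕ) : ℤ) : ℤ) : ℚ) = 0 := by rw [this]; simp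
            push_cast at h9
            exact h9)
          funext v
          have := congrFun h8 v
          simpa using this
        have h7 : ∑ v, (α v : ℤ) * δ v ≤ -1 := by
          by_contra h8
          exact hpos ⟨rfl, by omega⟩
        have h8 : ((∑ v, (α v : ℤ) * δ v : ℤ) : ℝ) ≤ -1 := by exact_mod_cast h7
        have h9 : η * ((∑ v, (α v : ℤ) * δ v : ℤ) : ℝ) ≤ η * (-1) :=
          mul_le_mul_of_nonneg_left h8 hη0.le
        have h10 : η ^ 2 * (K * c₀) = η * (η * (K * c₀)) := by ring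
        have h11 : η * (η * (K * c₀)) < η * 1 := mul_lt_mul_of_pos_left hηK hη0
        rw [h3t] at h3
        linarith
      · -- a nonzero `μ`
        obtain ⟨hy1, hτ0⟩ := hμτ.resolve_left hμ
        have hαη : η * ((∑ v, (α v : ℤ) * δ v : ℤ) : ℝ) ≤ η * (M * K) :=
          mul_le_mul_of_nonneg_left hαb.2 hη0.le
        obtain ⟨j, hj⟩ : ∃ j, μ j ≠ 0 := by
          by_contra h6
          push Not at h6
          exact hμ (Finsupp.ext h6)
        have hj1 : (1 : ℝ) ≤ μ j := by exact_mod_cast Nat.one_le_iff_ne_zero.2 hj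
        -- the values of the coordinates
        let Y : Fin n → ℝ := fun j => if hj : j ∈ P then y ⟨j, hj⟩ else y₁ j
        have hY : ∀ j, θ / 2 ≤ Y j := by
          intro j
          simp only [Y]
          split_ifs with hjP
          · have := hy0 ⟨j, hjP⟩
            linarith
          · have := hθy j (hy1 j)
            linarith
        have hYs : ∑ j, ((μ j : ℕ) : ℝ) * Y j =
            ∑ j : {j // j ∈ P}, ((μ j.1 : ℕ) : ℝ) * y j + ∑ j ∈ Pᶜ, ((μ j : ℕ) : ℝ) * y₁ j := by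
          rw [hsplit fun j => ((μ j : ℕ) : ℝ) * Y j]
          congr 1
          · refine Finset.sum_congr rfl fun j _ => ?_
            simp only [Y]
            rw [dif_pos j.2]
          · refine Finset.sum_congr rfl fun j hj => ?_
            simp only [Y]
            rw [dif_neg (Finset.mem_compl.1 hj)]
        have hYj : θ / 2 ≤ ∑ j, ((μ j : ℕ) : ℝ) * Y j := by
          have h6 : ((μ j : ℕ) : ℝ) * Y j ≤ ∑ j, ((μ j : ℕ) : ℝ) * Y j :=
            Finset.single_le_sum (f := fun j => ((μ j : ℕ) : ℝ) * Y j)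
              (fun j _ => mul_nonneg (by positivity) (le_trans (by positivity) (hY j)))
              (Finset.mem_univ j)
          have h7 : 1 * (θ / 2) ≤ ((μ j : ℕ) : ℝ) * Y j :=
            mul_le_mul hj1 (hY j) (by positivity) (by positivity)
          linarith
        have hτs : ∑ j, -((μ j : ℕ) : ℝ) * τ j = 0 :=
          Finset.sum_eq_zero fun j _ => by rw [hτ0 j, mul_zero]
        have e1 : ∑ j : {j // j ∈ P}, -((μ j.1 : ℕ) : ℝ) * y j =
            -∑ j : {j // j ∈ P}, ((μ j.1 : ℕ) : ℝ) * y j := by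
          rw [← Finset.sum_neg_distrib]
          exact Finset.sum_congr rfl fun j _ => by ring
        have e2 : ∑ j ∈ Pᶜ, -((μ j : ℕ) : ℝ) * y₁ j = -∑ j ∈ Pᶜ, ((μ j : ℕ) : ℝ) * y₁ j := by
          rw [← Finset.sum_neg_distrib]
          exact Finset.sum_congr rfl fun j _ => by ring
        rw [hτs, e1, e2] at h3t
        have h8 : η ^ 2 * (K * c₀ + 1) = η ^ 2 * (K * c₀) + η ^ 2 := by ring
        linarith
  · intro δ hδK hδs β m hx g
    obtain ⟨h, hh⟩ := negSet_dvd_PM hEγ δ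
    set P' : Finset {j // j ∈ P} := univ.filter fun j => m j.1 < β j.1 with hP'
    obtain ⟨h', hh'⟩ := LF_dvd_RMP hγ β m P' (fun j hj => (Finset.mem_filter.1 hj).2)
    have hkill := hΛ (negSet γ δ) P' ?_
    · rw [LinearMap.comp_apply, hh, hh']
      have e : ∀ a b c d e : MvPolynomial (Sf f) ℚ, a * (b * c * (d * e)) = (a * c * e) * (d * b) :=
        fun a b c d e => by ring
      rw [e]
      refine homComp_mul _ _ _ _ ((hXhom _).mul (hLhom _)) Λ fun g' => hkill g'
    · intro y hy0 hyP' h1 h2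
      have h3 := hlow δ y hδK h1 h2
      rw [htotal δ y, hδs, Int.cast_one] at h3
      have hDb : ∀ j, |((∑ v, δ v * ((v.1 j : ℕ) : ℤ) : ℤ) : ℝ)| ≤
          K * ∑ v : Sf f, ((v.1 j : ℕ) : ℝ) := by
        intro j
        push_cast
        refine (Finset.abs_sum_le_sum_abs _ _).trans ?_
        rw [Finset.mul_sum]
        refine Finset.sum_le_sum fun v _ => ?_
        rw [abs_mul, abs_of_nonneg (a := ((v.1 j : ℕ) : ℝ)) (by positivity)]
        refine mul_le_mul_of_nonneg_right ?_ (by positivity)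
        exact_mod_cast hδK v
      have hDy : ∀ j : {j // j ∈ P}, ((∑ v, δ v * ((v.1 j.1 : ℕ) : ℤ) : ℤ) : ℝ) * y j ≤
          θ * (K * ∑ v : Sf f, ((v.1 j.1 : ℕ) : ℝ)) := by
        intro j
        have hr0 : 0 ≤ θ * (K * ∑ v : Sf f, ((v.1 j.1 : ℕ) : ℝ)) := by positivity
        by_cases hj : j ∈ P'
        · have h5 : m j.1 < β j.1 := (Finset.mem_filter.1 hj).2
          have h6 : (0 : ℝ) ≤ ((∑ v, δ v * ((v.1 j.1 : ℕ) : ℤ) : ℤ) : ℝ) := by
            rw [hx j.1]
            have : (0 : ℤ) ≤ (β j.1 : ℤ) - m j.1 := by omega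
            exact_mod_cast this
          have h7 := mul_le_mul_of_nonneg_left (hyP' j hj) h6
          have h8 := mul_le_mul_of_nonneg_right ((le_abs_self _).trans (hDb j.1)) hθ0.le
          linarith
        · refine le_trans (mul_nonpos_of_nonpos_of_nonneg ?_ ?_) hr0
          · have h5 : ¬ m j.1 < β j.1 := fun h => hj (Finset.mem_filter.2 ⟨Finset.mem_univ _, h⟩)
            rw [hx j.1]
            have : (β j.1 : ℤ) - m j.1 ≤ 0 := by omega
            exact_mod_cast this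
          · have := hy0 j
            linarith
      have h4' : ∑ j : {j // j ∈ P}, ((∑ v, δ v * ((v.1 j.1 : ℕ) : ℤ) : ℤ) : ℝ) * y j ≤ 1 / 4 := by
        refine (Finset.sum_le_sum fun j _ => hDy j).trans ?_
        have e1 : ∑ j : {j // j ∈ P}, θ * (K * ∑ v : Sf f, ((v.1 j.1 : ℕ) : ℝ)) ≤
            ∑ j, θ * (K * ∑ v : Sf f, ((v.1 j : ℕ) : ℝ)) := by
          rw [hsplit fun j => θ * (K * ∑ v : Sf f, ((v.1 j : ℕ) : ℝ))]
          have : 0 ≤ ∑ j ∈ Pᶜ, θ * (K * ∑ v : Sf f, ((v.1 j : ℕ) : ℝ)) :=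
            Finset.sum_nonneg fun j _ => by positivity
          linarith
        refine e1.trans ?_
        have e2 : ∑ j, θ * (K * ∑ v : Sf f, ((v.1 j : ℕ) : ℝ)) = θ * (K * S) := by
          rw [← Finset.mul_sum, ← Finset.mul_sum, Finset.sum_comm, ← hS]
        rw [e2]
        exact hθK
      have h5 := (abs_le.1 (hαδ δ hδK)).2
      have h6 : η * ((∑ v, (α v : ℤ) * δ v : ℤ) : ℝ) ≤ η * (M * K) :=
        mul_le_mul_of_nonneg_left h5 hη0.le
      have h7 := h4 δ hδK hδs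
      have h8 : η ^ 2 * (K * c₀ + 1) = η ^ 2 * (K * c₀) + η ^ 2 := by ring
      linarith

end MPb07157
end
end
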