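import Pool.Agent.Lib.MP_b07157_ag.E.Core
import Pool.Agent.Lib.MP_b07157_ag.NewtRootLoc

/-!
# Theorem E: the general exceptional root theorem, local version
-/

noncomputable section

namespace MPb07157

open MvPolynomial Finset

variable {n : ℕ} {f : MvPolynomial (Fin n) ℂ}

/-- E-27. **Root theorem with twins, local version.** The set `ρ` lies in a face of the Newton
polyhedron of weight `w` and in a compact face, of weight `ω`. -/
theorem root_twin_form (hf : f ≠ 0) (halg : AlgebraicIndependent ℚ (cf f)) {w ω : Fin n → ℕ}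
    {N Nω : ℕ} (hN : 0 < N) (hNω : 0 < Nω) (hmin : ∀ v ∈ f.support, N ≤ wt w v)
    (hω : ∀ j, 0 < ω j) (hωmin : ∀ v ∈ f.support, Nω ≤ wt ω v) (P : Finset (Fin n))
    (hP : ∀ j, 0 < w j → j ∈ P) (ρ : Finset (Sf f)) (hρ : ∀ v ∈ ρ, wt w v.1 = N)
    (hρω : ∀ v ∈ ρ, wt ω v.1 = Nω)
    (lin : ∀ g : Sf f → ℚ, (∀ v, v ∉ ρ → g v = 0) →
      (∀ j, ∑ v, g v * ((v.1 j : ℕ) : ℚ) = 0) → g = 0)
    (γ : Sf f → ℚ) (hγ0 : ∀ v, v ∉ ρ → γ v = 0)
    (hγ : ∀ j ∈ P, ∑ v, γ v * ((v.1 j : ℕ) : ℚ) = 1)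
    (htw : ∀ j ∈ P, (∃ v ∈ ρ, (∀ k : ℕ, γ v ≠ k + 1) ∧ 0 < v.1 j) ∨
      ∃ j' ∈ P, j' ≠ j ∧ ∀ v ∈ ρ, v.1 j' = v.1 j)
    (b : Polynomial ℂ) (hb : InDnForm f 1 (b.map (MvPowerSeries.C (σ := Fin n) (R := ℂ)))) :
    b.eval ((-(∑ v, γ v) : ℚ) : ℂ) = 0 := by
  classical
  obtain ⟨p, hp, hpb⟩ := hb.exists_poly
  rw [← Finset.sum_neg_distrib]
  refine rootML hf halg (fun v => -γ v) (ρ.filter fun v => ∃ k : ℕ, γ v = k + 1).card
    (fun K => ?_) b p hp hpb
  obtain ⟨S, hS⟩ : ∃ S : ℝ, S = ∑ v : Sf f, ∑ j, ((v.1 j : ℕ) : ℝ) * ω j := ⟨_, rfl⟩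
  have hS0 : 0 ≤ S := by rw [hS]; positivity
  have hK0 : (0 : ℝ) ≤ K := by positivity
  have hNR : (0 : ℝ) < N := by exact_mod_cast hN
  have hNωR : (0 : ℝ) < Nω := by exact_mod_cast hNω
  have hNω1 : (1 : ℝ) ≤ Nω := by exact_mod_cast hNω
  obtain ⟨t, ht⟩ : ∃ t : ℝ, t = 1 / (4 * ((K : ℝ) * S + 1)) := ⟨_, rfl⟩
  have hKS : 0 ≤ (K : ℝ) * S := by positivity
  have ht0 : 0 < t := by rw [ht]; positivity
  have htd : t * (4 * ((K : ℝ) * S + 1)) = 1 := by rw [ht]; field_simp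
  have htK : t * (K * S) ≤ 1 / 4 := by nlinarith
  have ht1 : t ≤ 1 / 4 := by nlinarith
  let y₁ : Fin n → ℝ := fun j => (1 - t) * (w j : ℝ) / N + t * (ω j : ℝ) / Nω
  have hy1 : ∀ j, 0 < y₁ j := by
    intro j
    have h1 : 0 ≤ (1 - t) * (w j : ℝ) / N :=
      div_nonneg (mul_nonneg (by linarith) (by positivity)) hNR.le
    have h2 : 0 < t * (ω j : ℝ) / Nω := by
      have : (0 : ℝ) < ω j := by exact_mod_cast hω j
      positivity
    simp only [y₁]
    linarith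
  have hwt : ∀ v : Sf f, ∑ j, ((v.1 j : ℕ) : ℝ) * y₁ j =
      (1 - t) * ((wt w v.1 : ℝ) / N) + t * ((wt ω v.1 : ℝ) / Nω) := by
    intro v
    unfold wt
    push_cast
    rw [Finset.sum_div, Finset.sum_div, Finset.mul_sum, Finset.mul_sum, ← Finset.sum_add_distrib]
    refine Finset.sum_congr rfl fun j _ => ?_
    simp only [y₁]
    ring
  obtain ⟨E, α, Λ, h1, h2, h3, h4, h5⟩ := twin_core P ρ lin γ hγ0 hγ htw K y₁ (fun _ => 0)
    (fun j _ => hy1 j) (fun j => (hy1 j).le)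
    (fun v hv => by
      rw [hwt v, hρ v hv, hρω v hv, div_self hNR.ne', div_self hNωR.ne']
      simp)
    (fun v => by
      rw [hwt v]
      have h2 : (1 : ℝ) ≤ (wt w v.1 : ℝ) / N := by
        rw [le_div_iff₀ hNR, one_mul]
        exact_mod_cast hmin v.1 v.2
      have h3 : (1 : ℝ) ≤ (wt ω v.1 : ℝ) / Nω := by
        rw [le_div_iff₀ hNωR, one_mul]
        exact_mod_cast hωmin v.1 v.2
      have h4 : (1 - t) * 1 ≤ (1 - t) * ((wt w v.1 : ℝ) / N) :=
        mul_le_mul_of_nonneg_left h2 (by linarith)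
      have h5 : t * 1 ≤ t * ((wt ω v.1 : ℝ) / Nω) := mul_le_mul_of_nonneg_left h3 ht0.le
      simp only [mul_zero, Finset.sum_const_zero, add_zero]
      linarith)
    (fun δ hδK hδs => by
      simp only [mul_zero, Finset.sum_const_zero, sub_zero]
      have e1 : ∀ j ∈ Pᶜ, ((∑ v, δ v * ((v.1 j : ℕ) : ℤ) : ℤ) : ℝ) * y₁ j ≤
          (K * ∑ v : Sf f, ((v.1 j : ℕ) : ℝ)) * (t * ω j) := by
        intro j hj
        rw [Finset.mem_compl] at hj
        have hwj : w j = 0 := by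
          by_contra h
          exact hj (hP j (Nat.pos_of_ne_zero h))
        have hyj : y₁ j ≤ t * ω j := by
          simp only [y₁]
          rw [hwj, Nat.cast_zero, mul_zero, zero_div, zero_add, div_le_iff₀ hNωR]
          have h9 : 0 ≤ t * (ω j : ℝ) := by positivity
          nlinarith
        have h6 : ((∑ v, δ v * ((v.1 j : ℕ) : ℤ) : ℤ) : ℝ) ≤ K * ∑ v : Sf f, ((v.1 j : ℕ) : ℝ) := by
          push_cast
          rw [Finset.mul_sum]
          refine Finset.sum_le_sum fun v _ => mul_le_mul_of_nonneg_right ?_ (by positivity)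
          have : |(δ v : ℝ)| ≤ K := by exact_mod_cast hδK v
          exact (abs_le.1 this).2
        exact (mul_le_mul_of_nonneg_right h6 (hy1 j).le).trans
          (mul_le_mul_of_nonneg_left hyj (by positivity))
      refine (Finset.sum_le_sum e1).trans ?_
      have e2 : ∑ j ∈ Pᶜ, (K * ∑ v : Sf f, ((v.1 j : ℕ) : ℝ)) * (t * ω j) ≤
          ∑ j, (K * ∑ v : Sf f, ((v.1 j : ℕ) : ℝ)) * (t * ω j) :=
        Finset.sum_le_sum_of_subset_of_nonneg (Finset.subset_univ _) fun j _ _ => by positivity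
      refine e2.trans ?_
      have e3 : ∑ j, (K * ∑ v : Sf f, ((v.1 j : ℕ) : ℝ)) * (t * ω j) = t * (K * S) := by
        rw [hS, Finset.sum_comm, Finset.mul_sum, Finset.mul_sum]
        refine Finset.sum_congr rfl fun j _ => ?_
        rw [Finset.mul_sum, Finset.mul_sum, Finset.mul_sum, Finset.sum_mul]
        exact Finset.sum_congr rfl fun v _ => by ring
      rw [e3]
      exact htK)
  exact ⟨E, α, Λ, h1, h2, h3, fun δ hδ0 hδK hδs μ hδj =>
    h4 δ hδ0 hδK hδs μ hδj (Or.inr ⟨hy1, fun _ => rfl⟩), h5⟩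

end MPb07157
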